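import Pool.Agent.Helper23.Kneser

/-!
# `[0,2]`-sum-free sets: definitions and the Kneser upper bounds
-/

open Finset
open scoped Pointwise

namespace Pool.Agent.Helper23

/-- All divisors of `n` are `1` modulo `4`. -/
def D1 (n : ℕ) : Prop := ∀ d, d ∣ n → d % 4 = 1

lemma D1.dvd {n m : ℕ} (h : D1 n) (hm : m ∣ n) : D1 m := fun d hd => h d (hd.trans hm)

lemma D1.odd {n : ℕ} (h : D1 n) : Odd n := by
  have := h n dvd_rfl
  rw [Nat.odd_iff]; omega

lemma mod_four_of_primes {n : ℕ} (h : ∀ p, p.Prime → p ∣ n → p % 4 = 1) (hn : n ≠ 0) :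
    n % 4 = 1 := by
  induction n using Nat.recOnMul with
  | zero => exact absurd rfl hn
  | one => rfl
  | prime p hp => exact h p hp dvd_rfl
  | mul a b ha hb =>
    have ha0 : a ≠ 0 := fun h0 => hn (by rw [h0, zero_mul])
    have hb0 : b ≠ 0 := fun h0 => hn (by rw [h0, mul_zero])
    have h1 := ha (fun p hp hd => h p hp (hd.mul_right b)) ha0
    have h2 := hb (fun p hp hd => h p hp (hd.mul_left a)) hb0
    rw [Nat.mul_mod, h1, h2]

lemma D1_of_primes {n : ℕ} (h : ∀ p, p.Prime → p ∣ n → p % 4 = 1) (hn : n ≠ 0) : D1 n := by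
  intro d hd
  apply mod_four_of_primes
  · intro p hp hpd
    exact h p hp (hpd.trans hd)
  · rintro rfl
    exact hn (Nat.eq_zero_of_zero_dvd hd)

lemma D1_of_noThree {n : ℕ} (h : ∀ p, p.Prime → p ∣ n → p % 4 ≠ 3) (hn : Odd n) : D1 n := by
  apply D1_of_primes
  · intro p hp hd
    have h3 := h p hp hd
    have : Odd p := Odd.of_dvd_nat hn hd
    rw [Nat.odd_iff] at this
    omega
  · rintro rfl
    exact absurd hn (by decide)

section
set_option linter.unusedSectionVars false
variable {G : Type*} [AddCommGroup G] [Fintype G]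
open Classical

lemma neg_ne_of_odd (hG : Odd (Fintype.card G)) {z : G} (hz : z ≠ 0) : -z ≠ z := by
  intro h
  have h2 : (2 : ℕ) • z = 0 := by
    rw [two_nsmul]
    nth_rewrite 1 [← h]
    exact neg_add_cancel z
  have h3 : addOrderOf z ∣ 2 := addOrderOf_dvd_of_nsmul_eq_zero h2
  have h4 : addOrderOf z ∣ Fintype.card G := addOrderOf_dvd_card
  have h5 : addOrderOf z = 1 := by
    rcases (Nat.dvd_prime Nat.prime_two).mp h3 with h | h
    · exact h
    · rw [h] at h4
      rw [Nat.odd_iff] at hG
      omega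
  exact hz (AddMonoid.addOrderOf_eq_one_iff.mp h5)

/-- A symmetric set of nonzero elements with no fixed point of negation has even size. -/
lemma even_card_of_symm (Z : Finset G) (hs : ∀ z ∈ Z, -z ∈ Z) (h0 : ∀ z ∈ Z, -z ≠ z) :
    Even Z.card := by
  have : ∑ z ∈ Z, (1 : ZMod 2) = 0 := by
    apply Finset.sum_involution (fun z _ => -z)
    · intro z _; decide
    · intro z hz _; exact h0 z hz
    · intro z hz; exact neg_neg z
    · intro z hz; exact hs z hz
  rw [sum_const, nsmul_eq_mul, mul_one] at this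
  rw [even_iff_two_dvd]
  exact (ZMod.natCast_eq_zero_iff _ _).mp this

/-- The symmetrisation `A ∪ -A`. -/
noncomputable def symm (A : Finset G) : Finset G := A ∪ A.image (fun a => -a)

lemma mem_symm {A : Finset G} {x : G} : x ∈ symm A ↔ x ∈ A ∨ -x ∈ A := by
  unfold symm
  rw [mem_union, mem_image]
  constructor
  · rintro (h | ⟨a, ha, rfl⟩)
    · exact Or.inl h
    · right; simpa using ha
  · rintro (h | h)
    · exact Or.inl h
    · exact Or.inr ⟨-x, h, neg_neg x⟩

/-- `A` is antisymmetric: `A` and `-A` are disjoint. -/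
def Anti (A : Finset G) : Prop := ∀ a ∈ A, -a ∉ A

lemma card_symm {A : Finset G} (h : Anti A) : (symm A).card = 2 * A.card := by
  unfold symm
  rw [card_union_of_disjoint, card_image_of_injective _ neg_injective, two_mul]
  rw [disjoint_left]
  intro a ha hb
  rw [mem_image] at hb
  obtain ⟨b, hb, rfl⟩ := hb
  exact h b hb ha

lemma neg_mem_symm {A : Finset G} {x : G} (h : x ∈ symm A) : -x ∈ symm A := by
  rw [mem_symm] at h ⊢
  rw [neg_neg]
  exact h.symm

lemma SumFree02.anti {A : Finset G} (h : SumFree02 A) : Anti A := by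
  intro a ha hb
  exact (h.2 a ha (-a) hb).1 (add_neg_cancel a)

lemma SumFree02.sub_not_mem {A : Finset G} (h : SumFree02 A) {a b : G} (ha : a ∈ A)
    (hb : b ∈ A) : a - b ∉ symm A := by
  intro hm
  rw [mem_symm] at hm
  rcases hm with hm | hm
  · have := (h.2 b hb (a - b) hm).2
    rw [add_sub_cancel] at this
    exact this ha
  · have := (h.2 a ha _ hm).2
    rw [neg_sub, add_sub_cancel] at this
    exact this hb

lemma zero_not_mem_symm {A : Finset G} (h : Anti A) : (0 : G) ∉ symm A := by
  intro hm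
  rw [mem_symm, neg_zero, or_self] at hm
  have := h 0 hm
  rw [neg_zero] at this
  exact this hm

lemma card_quot_mul (H : AddSubgroup G) :
    Nat.card H * Nat.card (G ⧸ H) = Fintype.card G := by
  rw [mul_comm, ← Nat.card_eq_fintype_card]
  exact (AddSubgroup.card_eq_card_quotient_mul_card_addSubgroup H).symm

lemma card_le_image' (H : AddSubgroup G) (A : Finset G) :
    A.card ≤ Nat.card H * (A.image (QuotientAddGroup.mk' H)).card := by
  have := card_le_image (QuotientAddGroup.mk' H) (QuotientAddGroup.mk'_surjective H) A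
  rw [QuotientAddGroup.ker_mk'] at this
  exact this

lemma image_symm_neg (H : AddSubgroup G) (A : Finset G) :
    ∀ z ∈ (symm A).image (QuotientAddGroup.mk' H), -z ∈ (symm A).image (QuotientAddGroup.mk' H) := by
  intro z hz
  rw [mem_image] at hz ⊢
  obtain ⟨s, hs, rfl⟩ := hz
  exact ⟨-s, neg_mem_symm hs, by rw [map_neg]⟩

/-- In `G ⧸ H` of odd order, a symmetric set without zero has even size. -/
lemma even_image_symm (H : AddSubgroup G) (A : Finset G) (hodd : Odd (Nat.card (G ⧸ H)))
    (h0 : (0 : G ⧸ H) ∉ (symm A).image (QuotientAddGroup.mk' H)) :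
    Even ((symm A).image (QuotientAddGroup.mk' H)).card := by
  have hodd' : Odd (Fintype.card (G ⧸ H)) := by rw [← Nat.card_eq_fintype_card]; exact hodd
  apply even_card_of_symm _ (image_symm_neg H A)
  intro z hz
  apply neg_ne_of_odd hodd'
  rintro rfl
  exact h0 hz

theorem upper_general {A : Finset G} (h : SumFree02 A) (hA : A.Nonempty) :
    ∃ T k σ : ℕ, 0 < T ∧ T * k = Fintype.card G ∧ 2 * A.card ≤ T * σ ∧ 2 * σ ≤ k + 1 ∧
      (Odd k → Even σ) := by
  obtain ⟨H, hdis, _, hcard⟩ := kneser_diff A A (symm A) hA hA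
    (fun a ha b hb => h.sub_not_mem ha hb)
  refine ⟨Nat.card H, Nat.card (G ⧸ H), ((symm A).image (QuotientAddGroup.mk' H)).card,
    Nat.card_pos, card_quot_mul H, ?_, ?_, ?_⟩
  · rw [← card_symm h.anti]
    exact card_le_image' H _
  · have h1 : ((symm A).image (QuotientAddGroup.mk' H)).card
        ≤ 2 * (A.image (QuotientAddGroup.mk' H)).card := by
      have : (symm A).image (QuotientAddGroup.mk' H) ⊆ A.image (QuotientAddGroup.mk' H) ∪
          (A.image (QuotientAddGroup.mk' H)).image (fun a => -a) := by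
        intro z hz
        rw [mem_image] at hz
        obtain ⟨s, hs, rfl⟩ := hz
        rw [mem_symm] at hs
        rw [mem_union]
        rcases hs with hs | hs
        · left; exact mem_image_of_mem _ hs
        · right
          rw [mem_image]
          exact ⟨_, mem_image_of_mem _ hs, by rw [map_neg, neg_neg]⟩
      refine (card_le_card this).trans ((card_union_le _ _).trans ?_)
      rw [two_mul]
      exact Nat.add_le_add_left card_image_le _
    omega
  · intro hodd
    apply even_image_symm H A hodd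
    intro hm
    rw [mem_image] at hm
    obtain ⟨s, hs, hs0⟩ := hm
    obtain ⟨a, ha⟩ := hA
    apply hdis a ha a ha s hs
    rw [sub_self, hs0]

/-- If no prime `3 mod 4` divides `|G|` then `4|A| ≤ |G|`. -/
theorem upper_noThree (hn : ∀ p, p.Prime → p ∣ Fintype.card G → p % 4 ≠ 3)
    {A : Finset G} (h : SumFree02 A) : 4 * A.card ≤ Fintype.card G := by
  rcases A.eq_empty_or_nonempty with rfl | hA
  · simp
  obtain ⟨T, k, σ, hT, hTk, h1, h2, h3⟩ := upper_general h hA
  have hk : 2 * σ ≤ k := by
    rcases Nat.even_or_odd k with hk | hk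
    · rw [Nat.even_iff] at hk; omega
    · have := D1_of_noThree (n := k) (fun p hp hd => hn p hp (hd.trans ⟨T, by rw [← hTk, mul_comm]⟩)) hk
      have h4 := this k dvd_rfl
      have h5 := h3 hk
      rw [Nat.even_iff] at h5
      omega
  calc 4 * A.card = 2 * (2 * A.card) := by ring
    _ ≤ 2 * (T * σ) := Nat.mul_le_mul_left 2 h1
    _ = T * (2 * σ) := by ring
    _ ≤ T * k := Nat.mul_le_mul_left T hk
    _ = Fintype.card G := hTk

/-- If all divisors of `|G|` are `1 mod 4` then `4|A| < |G|`. -/
theorem upper_odd (hn : D1 (Fintype.card G))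
    {A : Finset G} (h : SumFree02 A) : 4 * A.card + 1 ≤ Fintype.card G := by
  rcases A.eq_empty_or_nonempty with rfl | hA
  · rw [card_empty]; exact Fintype.card_pos
  obtain ⟨T, k, σ, hT, hTk, h1, h2, h3⟩ := upper_general h hA
  have hkd : D1 k := hn.dvd ⟨T, by rw [← hTk, mul_comm]⟩
  have h4 := hkd k dvd_rfl
  have h5 := h3 hkd.odd
  rw [Nat.even_iff] at h5
  have hk : 2 * σ + 1 ≤ k := by omega
  calc 4 * A.card + 1 = 2 * (2 * A.card) + 1 := by ring
    _ ≤ 2 * (T * σ) + T := by
        have := Nat.mul_le_mul_left 2 h1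
        omega
    _ = T * (2 * σ + 1) := by ring
    _ ≤ T * k := Nat.mul_le_mul_left T hk
    _ = Fintype.card G := hTk

/-- If `p` is the least prime `3 mod 4` dividing `n = |G|` then `4|A| ≤ (p + 1)(n/p)`. -/
theorem upper_three {p : ℕ} (hp : p.Prime) (hpn : p ∣ Fintype.card G)
    (hmin : ∀ r, r.Prime → r % 4 = 3 → r ∣ Fintype.card G → p ≤ r)
    {A : Finset G} (h : SumFree02 A) : 4 * A.card ≤ (p + 1) * (Fintype.card G / p) := by
  have hp0 : 0 < p := hp.pos
  have hdiv : p * (Fintype.card G / p) = Fintype.card G := Nat.mul_div_cancel' hpn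
  rcases A.eq_empty_or_nonempty with rfl | hA
  · simp
  obtain ⟨T, k, σ, hT, hTk, h1, h2, h3⟩ := upper_general h hA
  have hkn : k ∣ Fintype.card G := ⟨T, by rw [← hTk, mul_comm]⟩
  have hk : 2 * σ ≤ k ∨ p ≤ k := by
    by_cases hr : ∃ r, r.Prime ∧ r % 4 = 3 ∧ r ∣ k
    · right
      obtain ⟨r, hr1, hr2, hr3⟩ := hr
      have hk0 : 0 < k := by
        rcases Nat.eq_zero_or_pos k with h0 | h0
        · rw [h0, mul_zero] at hTk
          exact absurd hTk.symm Fintype.card_ne_zero
        · exact h0
      exact (hmin r hr1 hr2 (hr3.trans hkn)).trans (Nat.le_of_dvd hk0 hr3)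
    · left
      push Not at hr
      rcases Nat.even_or_odd k with hk | hk
      · rw [Nat.even_iff] at hk; omega
      · have := D1_of_noThree (n := k) (fun p hp hd h3 => hr p hp h3 hd) hk
        have h4 := this k dvd_rfl
        have h5 := h3 hk
        rw [Nat.even_iff] at h5
        omega
  rcases hk with hk | hk
  · calc 4 * A.card = 2 * (2 * A.card) := by ring
      _ ≤ 2 * (T * σ) := Nat.mul_le_mul_left 2 h1
      _ = T * (2 * σ) := by ring
      _ ≤ T * k := Nat.mul_le_mul_left T hk
      _ = Fintype.card G := hTk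
      _ = p * (Fintype.card G / p) := hdiv.symm
      _ ≤ (p + 1) * (Fintype.card G / p) := Nat.mul_le_mul_right _ (Nat.le_succ p)
  · have hTle : T ≤ Fintype.card G / p := by
      rw [Nat.le_div_iff_mul_le hp0, ← hTk]
      exact Nat.mul_le_mul_left T hk
    calc 4 * A.card = 2 * (2 * A.card) := by ring
      _ ≤ 2 * (T * σ) := Nat.mul_le_mul_left 2 h1
      _ = T * (2 * σ) := by ring
      _ ≤ T * (k + 1) := Nat.mul_le_mul_left T h2
      _ = Fintype.card G + T := by rw [mul_add, hTk, mul_one]
      _ ≤ p * (Fintype.card G / p) + Fintype.card G / p := by rw [hdiv]; omega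
      _ = (p + 1) * (Fintype.card G / p) := by ring

end

end Pool.Agent.Helper23
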