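import Pool.Agent.Helper23.Cycle

/-!
# The case when some fibre is more than half full
-/

open Finset
open scoped Pointwise

namespace Pool.Agent.Helper23

section num

/-- The numerical core of the argument (all quantities normalised). -/
lemma num_S {α μ ξ γ τ lam ρ : ℝ} (h3 : 3 * α ≤ ξ * τ + (1 - ξ) * γ + ρ / 4)
    (hτ : τ = 1 + lam - μ) (hγ1 : γ ≤ (1 + μ) / 2) (hγ2 : γ ≤ μ + lam)
    (hξ1 : 1 / 2 ≤ ξ) (hξ2 : ξ ≤ 1) (hμ : 1 / 2 ≤ μ)
    (hρ : ρ = 0 ∨ ρ = μ - τ) :
    3 * α ≤ 1 / 2 + lam ∨ (3 * α ≤ 1 / 2 + lam / 4 + μ / 4 ∧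
      3 * α ≤ 1 / 4 + 3 * lam / 4 + μ / 2) ∨ 3 * α ≤ 1 / 2 + 3 * lam / 4 := by
  rcases le_or_gt τ γ with h | h
  · have h4 : ξ * τ + (1 - ξ) * γ ≤ (τ + γ) / 2 := by nlinarith
    rcases hρ with hρ | hρ
    · left; rw [hρ] at h3; subst hτ; linarith
    · right; left
      subst hτ
      constructor <;> linarith
  · have h4 : ξ * τ + (1 - ξ) * γ ≤ τ := by nlinarith
    rcases hρ with hρ | hρ
    · left; rw [hρ] at h3; subst hτ; linarith
    · right; right
      subst hτ
      linarith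

lemma num_B5 {α μ ξ : ℝ} (h : (13 * ξ + 14) * α ≤ 13 * ξ + μ * ξ * (1 - 13 * ξ))
    (hα : 6 / 25 < α) (hμ : 17 / 25 ≤ μ) (hξ : 7 / 13 ≤ ξ) : False := by
  have h1 : μ * ξ * (1 - 13 * ξ) ≤ 17 / 25 * ξ * (1 - 13 * ξ) := by
    have : 0 ≤ (μ - 17 / 25) * (ξ * (13 * ξ - 1)) :=
      mul_nonneg (by linarith) (mul_nonneg (by linarith) (by linarith))
    nlinarith
  have h2 : (13 * ξ + 14) * (6 / 25) < (13 * ξ + 14) * α :=
    mul_lt_mul_of_pos_left hα (by linarith)
  nlinarith [sq_nonneg (ξ - 3 / 5)]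

lemma num_B13 {α μ ξ : ℝ} (h : (13 * ξ + 14) * α ≤ 13 * ξ + μ * ξ * (1 - 13 * ξ))
    (hα : 3 / 13 < α) (hμ : 10 / 13 ≤ μ) (hξ : 7 / 13 ≤ ξ) : False := by
  have h1 : μ * ξ * (1 - 13 * ξ) ≤ 10 / 13 * ξ * (1 - 13 * ξ) := by
    have : 0 ≤ (μ - 10 / 13) * (ξ * (13 * ξ - 1)) :=
      mul_nonneg (by linarith) (mul_nonneg (by linarith) (by linarith))
    nlinarith
  have h2 : (13 * ξ + 14) * (3 / 13) < (13 * ξ + 14) * α :=
    mul_lt_mul_of_pos_left hα (by linarith)
  nlinarith [sq_nonneg (ξ - 7 / 13)]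

end num

section
set_option linter.unusedSectionVars false
open Classical
variable {Q : Type*} [AddCommGroup Q] [Fintype Q]

/-- number of elements with `a i ≥ t`. -/
noncomputable def cnt (a : Q → ℕ) (t : ℕ) : ℕ := ((univ : Finset Q).filter (fun i => t ≤ a i)).card

lemma cnt_anti (a : Q → ℕ) {s t : ℕ} (h : s ≤ t) : cnt a t ≤ cnt a s := by
  apply card_le_card
  intro i hi
  rw [mem_filter] at hi ⊢
  exact ⟨hi.1, h.trans hi.2⟩

lemma sum_cnt (a : Q → ℕ) (m θ : ℕ) (hm : ∀ i, a i ≤ m) :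
    ∑ t ∈ Ioc θ m, cnt a t = ∑ i, (a i - θ) := sum_sub_eq a m θ hm

/-- `(P)`. -/
lemma propP (hD : D1 (Fintype.card Q)) (T : ℕ) (a : Q → ℕ)
    (hFull : ∀ i j, T < a i + a j → sf a (i - j) = 0) (hsT : ∀ d, sf a d ≤ T)
    (h1 : Fintype.card Q * T < 4 * ∑ i, a i + T) (i0 : Q) (t : ℕ) (ht1 : 1 ≤ t) (ht2 : t ≤ T)
    (h3 : t ≤ a i0) (h4 : T + 1 - t ≤ a i0) :
    2 * (cnt a t + cnt a (T + 1 - t)) + 1 ≤ Fintype.card Q := by
  have h := aprime hD ((univ : Finset Q).filter (fun i => t ≤ a i))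
    ((univ : Finset Q).filter (fun i => T + 1 - t ≤ a i))
    ((univ : Finset Q).filter (fun d => 0 < sf a d)) (u0 := i0)
    (by rw [mem_filter]; exact ⟨mem_univ _, h3⟩) (by rw [mem_filter]; exact ⟨mem_univ _, h4⟩)
    (by
      intro z hz
      rw [mem_filter] at hz ⊢
      rw [sf_neg]
      exact ⟨mem_univ _, hz.2⟩)
    (by
      intro u hu v hv hz
      rw [mem_filter] at hu hv hz
      have := hFull u v (by omega)
      omega)
  rcases h with h | h
  · exact h
  · exfalso
    have h5 : ∑ d, sf a d ≤ ((univ : Finset Q).filter (fun d => 0 < sf a d)).card * T := by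
      rw [card_eq_sum_ones, sum_mul, sum_filter]
      apply sum_le_sum
      intro d _
      split_ifs with h6
      · rw [one_mul]; exact hsT d
      · omega
    rw [sum_sf] at h5
    set z := ((univ : Finset Q).filter (fun d => 0 < sf a d)).card with hz
    have h6 : (2 * z + 1) * T ≤ Fintype.card Q * T := Nat.mul_le_mul_right T h
    have h7 : (2 * z + 1) * T = 2 * (z * T) + T := by ring
    omega

/-- Tail bound. -/
lemma tail (hD : D1 (Fintype.card Q)) (T : ℕ) (a : Q → ℕ)
    (hFull : ∀ i j, T < a i + a j → sf a (i - j) = 0) (hsT : ∀ d, sf a d ≤ T)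
    (haT : ∀ i, a i ≤ T)
    (h1 : Fintype.card Q * T < 4 * ∑ i, a i + T) (i0 : Q) (hmax : ∀ i, a i ≤ a i0)
    (θ : ℕ) (hθ1 : T ≤ θ + a i0) (hθ2 : θ ≤ a i0) :
    4 * ∑ i, (a i - θ) + (a i0 - θ) ≤ Fintype.card Q * (a i0 - θ) := by
  rw [← sum_cnt a (a i0) θ hmax]
  have h2 : ∀ t ∈ Ioc θ (a i0), 2 * (cnt a t + cnt a (a i0 + θ + 1 - t)) + 1 ≤ Fintype.card Q := by
    intro t ht
    rw [mem_Ioc] at ht
    have h3 := propP hD T a hFull hsT h1 i0 t (by omega) (ht.2.trans (haT i0)) ht.2 (by omega)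
    have h4 : cnt a (a i0 + θ + 1 - t) ≤ cnt a (T + 1 - t) := cnt_anti a (by omega)
    omega
  have h3 := sum_le_sum h2
  rw [sum_const, Nat.card_Ioc, smul_eq_mul, sum_add_distrib, ← mul_sum, sum_add_distrib,
    sum_reflect (cnt a) θ (a i0) hθ2, sum_const, Nat.card_Ioc, smul_eq_mul, mul_one] at h3
  rw [mul_comm (Fintype.card Q)]
  omega

/-- `(D')`. -/
lemma propD (hD : D1 (Fintype.card Q)) (T : ℕ) (a : Q → ℕ)
    (hW : ∀ i j, 0 < a i → 0 < a j → sf a (i - j) + a i ≤ T)
    (hFive : ∀ L : AddSubgroup Q, Nat.card (Q ⧸ L) = 5 →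
      ∀ y : Q ⧸ L, ∃ x, 0 < a x ∧ QuotientAddGroup.mk' L x = y)
    (i0 : Q) (t : ℕ) (ht1 : 1 ≤ t) (ht2 : t ≤ a i0) :
    ((univ : Finset Q).filter (fun d => T < sf a d + t)).card = 0 ∨
    13 * (((univ : Finset Q).filter (fun d => T < sf a d + t)).card + cnt a 1 + cnt a t)
      ≤ 14 * Fintype.card Q := by
  set D := (univ : Finset Q).filter (fun d => T < sf a d + t) with hDdef
  rcases D.eq_empty_or_nonempty with he | hne
  · left; rw [he]; rfl
  right
  set X := (univ : Finset Q).filter (fun i => 1 ≤ a i) with hX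
  set V := (univ : Finset Q).filter (fun i => t ≤ a i) with hV
  have hi0V : i0 ∈ V := by rw [hV, mem_filter]; exact ⟨mem_univ _, ht2⟩
  have hi0X : i0 ∈ X := by rw [hX, mem_filter]; exact ⟨mem_univ _, ht1.trans ht2⟩
  obtain ⟨L, hdis, _, hcard⟩ := kneser_diff X V D ⟨i0, hi0X⟩ ⟨i0, hi0V⟩ (by
    intro x hx v hv hd
    rw [hX, mem_filter] at hx
    rw [hV, mem_filter] at hv
    rw [hDdef, mem_filter] at hd
    have h1 := hW v x (by omega) (by omega)
    have h2 : sf a (v - x) = sf a (x - v) := by rw [← sf_neg, neg_sub]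
    omega)
  set π := QuotientAddGroup.mk' L with hπ
  have hlm := card_quot_mul L
  have j1 : X.card ≤ Nat.card L * (X.image π).card := card_le_image' L _
  have j2 : V.card ≤ Nat.card L * (V.image π).card := card_le_image' L _
  have j3 : D.card ≤ Nat.card L * (D.image π).card := card_le_image' L _
  have hl0 : 0 < Nat.card L := Nat.card_pos
  have hmd : D1 (Nat.card (Q ⧸ L)) := hD.dvd ⟨Nat.card L, by rw [← hlm, mul_comm]⟩
  have hm4 : Nat.card (Q ⧸ L) % 4 = 1 := hmd _ dvd_rfl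
  obtain ⟨z, hz⟩ := hne
  -- the image of `X` is not everything
  have hnot : ∀ k : ℕ, Nat.card (Q ⧸ L) = k → k = 1 ∨ k = 5 ∨ k = 9 → False := by
    intro k hk hkk
    have hall : ∀ y : Q ⧸ L, ∃ x ∈ X, π x = y := by
      intro y
      rcases hkk with rfl | rfl | rfl
      · have : Subsingleton (Q ⧸ L) := by
          rw [← Finite.card_le_one_iff_subsingleton, hk]
        exact ⟨i0, hi0X, Subsingleton.elim _ _⟩
      · obtain ⟨x, hx, hxy⟩ := hFive L hk y
        exact ⟨x, by rw [hX, mem_filter]; exact ⟨mem_univ _, hx⟩, hxy⟩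
      · exfalso
        have := hmd 3 (by rw [hk]; norm_num)
        omega
    obtain ⟨x, hx, hxE⟩ := hall (π i0 + π z)
    apply hdis x hx i0 hi0V z hz
    rw [hxE]; abel
  have h13 : 13 ≤ Nat.card (Q ⧸ L) := by
    by_contra hlt
    push Not at hlt
    exact hnot _ rfl (by omega)
  have hk1 : Nat.card L * ((X.image π).card + (V.image π).card + (D.image π).card)
      ≤ Nat.card L * (Nat.card (Q ⧸ L) + 1) := Nat.mul_le_mul_left _ hcard
  have hk2 : Nat.card L * 13 ≤ Nat.card L * Nat.card (Q ⧸ L) := Nat.mul_le_mul_left _ h13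
  have hX' : cnt a 1 = X.card := rfl
  have hV' : cnt a t = V.card := rfl
  rw [hX', hV']
  have hk3 : Nat.card L * ((X.image π).card + (V.image π).card + (D.image π).card)
      = Nat.card L * (X.image π).card + Nat.card L * (V.image π).card
        + Nat.card L * (D.image π).card := by ring
  have hk4 : Nat.card L * (Nat.card (Q ⧸ L) + 1) = Fintype.card Q + Nat.card L := by
    rw [mul_add, hlm, mul_one]
  omega

theorem bigCase (hD : D1 (Fintype.card Q)) (T C N Lam : ℕ) (a : Q → ℕ) (d : Q)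
    (hT0 : 0 < T)
    (hW : ∀ i j, 0 < a i → 0 < a j → sf a (i - j) + a i ≤ T)
    (hFull : ∀ i j, T < a i + a j → sf a (i - j) = 0) (hsT : ∀ d, sf a d ≤ T)
    (haT : ∀ i, a i ≤ T)
    (hK' : ∀ i j, 0 < a i → 0 < a j → 0 < sf a (i - j) → sf a (i - j) + a i + a j ≤ T + Lam)
    (hLam : N * Lam ≤ T)
    (hCd : sf a d = C) (hCmax : ∀ d', sf a d' ≤ C)
    (h1 : Fintype.card Q * T < 4 * ∑ i, a i + T)
    (hFive : ∀ L : AddSubgroup Q, Nat.card (Q ⧸ L) = 5 →
      ∀ y : Q ⧸ L, ∃ x, 0 < a x ∧ QuotientAddGroup.mk' L x = y)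
    (hNum : (N = 5 ∧ 6 * (Fintype.card Q * T) < 25 * ∑ i, a i) ∨
      (N = 13 ∧ 3 * (Fintype.card Q * T) < 13 * ∑ i, a i))
    (i0 : Q) (hmax : ∀ i, a i ≤ a i0) (hbig : T < 2 * a i0) : False := by
  have hq0 : 0 < Fintype.card Q := Fintype.card_pos
  have hodd : Fintype.card Q % 4 = 1 := hD _ dvd_rfl
  have hmT : a i0 ≤ T := haT i0
  have htail := fun θ h2 h3 => tail hD T a hFull hsT haT h1 i0 hmax θ h2 h3
  have hpropD := fun t h2 h3 => propD hD T a hW hFive i0 t h2 h3
  have hA0 : 0 < ∑ i, a i := by rcases hNum with h | h <;> omega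
  have hsumcnt := sum_cnt a (a i0) 0 hmax
  simp only [Nat.sub_zero] at hsumcnt
  have hcntle : ∀ t, 1 ≤ t → cnt a t ≤ cnt a 1 := fun t ht => cnt_anti a ht
  have hxq : cnt a 1 ≤ Fintype.card Q := by
    rw [← Finset.card_univ]; exact card_le_card (subset_univ _)
  set m := a i0 with hm
  set q := Fintype.card Q with hq
  set A := ∑ i, a i with hA
  set x := cnt a 1 with hx
  -- θ = T - m
  obtain ⟨θ, hθ⟩ : ∃ θ, θ + m = T := ⟨T - m, by omega⟩
  have ht0 := htail θ (by omega) (by omega)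
  obtain ⟨e, he⟩ : ∃ e, θ + e = m := ⟨m - θ, by omega⟩
  have he' : m - θ = e := by omega
  rw [he'] at ht0
  -- (R1)
  have hR1 : q < 2 * x := by
    by_contra hcon
    have h2 : 2 * x + 1 ≤ q := by omega
    have h3 : A ≤ x * θ + ∑ i, (a i - θ) := by
      rw [hA, hx]
      unfold cnt
      rw [card_eq_sum_ones, sum_mul, sum_filter, ← sum_add_distrib]
      apply sum_le_sum
      intro i _
      split_ifs with h
      · omega
      · omega
    have h4 : (2 * x + 1) * (2 * θ) ≤ q * (2 * θ) := Nat.mul_le_mul_right _ h2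
    have h5 : q * T = q * (2 * θ) + q * e := by rw [← mul_add]; congr 1; omega
    have h6 : (2 * x + 1) * (2 * θ) = 4 * (x * θ) + 2 * θ := by ring
    omega
  have hCpos : 0 < C := by
    rcases Nat.eq_zero_or_pos C with h | h
    · exfalso
      have : ∑ d, sf a d = 0 := sum_eq_zero (fun d' _ => by have := hCmax d'; omega)
      rw [sum_sf] at this
      omega
    · exact h
  have hCT : C ≤ T := by rw [← hCd]; exact hsT d
  -- (A1)
  have hA1 : 2 * C < T + m ∧ C < m + Lam := by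
    by_contra hcon
    have hcon' : T + m ≤ 2 * C ∨ m + Lam ≤ C := by omega
    have hs1 : ∀ i, sf a ((i + d) - i) = C := fun i => by rw [add_sub_cancel_left, hCd]
    have hs2 : ∀ i, sf a (i - (i + d)) = C := fun i => by
      rw [← sf_neg, neg_sub, add_sub_cancel_left, hCd]
    have hz : a (i0 + d) = 0 := by
      by_contra hne
      have h2 := hW i0 (i0 + d) (by omega) (by omega)
      rw [hs2] at h2
      omega
    have h2 := cycle hD.odd d (fun i => min (a i) θ) θ (by
      intro i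
      rcases Nat.eq_zero_or_pos (a i) with h | h
      · rw [h]; omega
      · rcases Nat.eq_zero_or_pos (a (i + d)) with h' | h'
        · rw [h']; omega
        · have k1 := hW (i + d) i h' h
          have k2 := hW i (i + d) h h'
          have k3 := hK' (i + d) i h' h (by rw [hs1]; exact hCpos)
          rw [hs1] at k1 k3
          rw [hs2] at k2
          omega) (i0 + d) (by rw [hz]; omega)
    have h3 : A = ∑ i, min (a i) θ + ∑ i, (a i - θ) := by
      rw [hA, ← sum_add_distrib]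
      apply sum_congr rfl
      intro i _
      omega
    have h5 : q * T = 2 * (q * θ) + q * e := by
      have : T = 2 * θ + e := by omega
      rw [this]; ring
    rw [← hq] at h2
    omega
  -- (S)
  obtain ⟨th, hth⟩ : ∃ th, th + m = T + Lam := ⟨T + Lam - m, by omega⟩
  obtain ⟨R, hR⟩ : ∃ R, R = ∑ i, (a i - th) := ⟨_, rfl⟩
  have hRle : (4 * R ≤ q * (m - th) ∧ th ≤ m) ∨ R = 0 := by
    rcases Nat.lt_or_ge m th with h | h
    · right
      rw [hR]
      exact sum_eq_zero (fun i _ => by have := hmax i; omega)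
    · left
      have := htail th (by omega) h
      rw [← hR] at this
      exact ⟨by omega, h⟩
  obtain ⟨y, hy⟩ : ∃ y, x + y = q := ⟨q - x, by omega⟩
  have hS : 3 * A ≤ x * th + R + y * C := by
    have h2 : ∀ i, sf a (i - i0) + a i ≤ (if 1 ≤ a i then th else C) + (a i - th) := by
      intro i
      split_ifs with h
      · rcases Nat.eq_zero_or_pos (sf a (i - i0)) with h3 | h3
        · omega
        · have := hK' i i0 (by omega) (by omega) h3
          omega
      · have := hCmax (i - i0)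
        omega
    have h3 : ∑ i, (sf a (i - i0) + a i) ≤ ∑ i, ((if 1 ≤ a i then th else C) + (a i - th)) :=
      sum_le_sum (fun i _ => h2 i)
    rw [sum_add_distrib, sum_add_distrib, ← hR, ← hA, sum_ite, sum_const, sum_const, smul_eq_mul,
      smul_eq_mul] at h3
    have h4 : ∑ i, sf a (i - i0) = 2 * A := by
      rw [hA, ← sum_sf]
      exact Fintype.sum_equiv (Equiv.subRight i0) _ _ (fun i => rfl)
    have h5 : ((univ : Finset Q).filter (fun i => 1 ≤ a i)).card = x := rfl
    have h6 : ((univ : Finset Q).filter (fun i => ¬ 1 ≤ a i)).card = y := by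
      have := card_filter_add_card_filter_not (s := (univ : Finset Q)) (fun i => 1 ≤ a i)
      rw [h5, Finset.card_univ] at this
      omega
    rw [h4, h5, h6] at h3
    omega
  -- (D')
  obtain ⟨E, hE⟩ : ∃ E, E = ∑ t ∈ Ioc 0 m,
    ((univ : Finset Q).filter (fun d => T < sf a d + t)).card := ⟨_, rfl⟩
  have hEA : 2 * A + m * q ≤ E + T * q := by
    have h2 : ∑ t ∈ Ioc 0 T, ((univ : Finset Q).filter (fun d => T < sf a d + t)).card = 2 * A := by
      rw [hA, ← sum_sf]
      simp only [card_filter]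
      rw [sum_comm]
      apply sum_congr rfl
      intro d' _
      rw [← card_filter]
      have : (Ioc 0 T).filter (fun t => T < sf a d' + t) = Ioc (T - sf a d') T := by
        ext t
        rw [mem_filter, mem_Ioc, mem_Ioc]
        have := hsT d'
        omega
      rw [this, Nat.card_Ioc]
      have := hsT d'
      omega
    rw [← Finset.sum_Ioc_consecutive _ (Nat.zero_le m) hmT, ← hE] at h2
    have h3 : ∑ t ∈ Ioc m T, ((univ : Finset Q).filter (fun d => T < sf a d + t)).card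
        ≤ ∑ _t ∈ Ioc m T, q := by
      apply sum_le_sum
      intro t _
      rw [hq, ← Finset.card_univ]
      exact card_le_card (subset_univ _)
    rw [sum_const, Nat.card_Ioc, smul_eq_mul] at h3
    have h4 : (T - m) * q + m * q = T * q := by rw [← add_mul]; congr 1; omega
    omega
  have hE2 : (13 * x ≤ 7 * q ∧ 13 * E + 13 * x * m + 13 * A ≤ 14 * q * m) ∨
      (7 * q ≤ 13 * x ∧ (13 : ℝ) * x * E + (14 * q - 13 * x) * A
          ≤ (14 * q - 13 * x) * x * m) := by
    rcases Nat.lt_or_ge (7 * q) (13 * x) with hc | hc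
    · right
      refine ⟨hc.le, ?_⟩
      have h2 : ∀ t ∈ Ioc 0 m, (13 : ℝ) * x *
          ((univ : Finset Q).filter (fun d => T < sf a d + t)).card + (14 * q - 13 * x) * cnt a t
            ≤ (14 * q - 13 * x) * x := by
        intro t ht
        rw [mem_Ioc] at ht
        have hc' : (7 : ℝ) * q < 13 * x := by exact_mod_cast hc
        have hxq' : (x : ℝ) ≤ q := by exact_mod_cast hxq
        have hq' : (0 : ℝ) < q := by exact_mod_cast hq0
        have hx0 : (0 : ℝ) < x := by linarith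
        have hcl : (cnt a t : ℝ) ≤ x := by exact_mod_cast hcntle t (by omega)
        rcases hpropD t (by omega) ht.2 with h3 | h3
        · rw [h3, Nat.cast_zero, mul_zero, zero_add]
          exact mul_le_mul_of_nonneg_left hcl (by linarith)
        · have h3' : (13 : ℝ) * (((univ : Finset Q).filter (fun d => T < sf a d + t)).card + x
            + cnt a t) ≤ 14 * q := by exact_mod_cast h3
          generalize (((univ : Finset Q).filter (fun d => T < sf a d + t)).card : ℝ) = D at *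
          have hcn : (0 : ℝ) ≤ cnt a t := Nat.cast_nonneg _
          nlinarith [mul_le_mul_of_nonneg_left h3' hx0.le, mul_nonneg hcn (by linarith : (0 : ℝ) ≤ 26 * x - 14 * q)]
      have h3 := sum_le_sum h2
      rw [sum_add_distrib, ← mul_sum, ← mul_sum, sum_const, Nat.card_Ioc, nsmul_eq_mul] at h3
      have h4 : ((E : ℕ) : ℝ) = ∑ t ∈ Ioc 0 m,
          (((univ : Finset Q).filter (fun d => T < sf a d + t)).card : ℝ) := by
        rw [hE]; push_cast; rfl
      have h5 : ((A : ℕ) : ℝ) = ∑ t ∈ Ioc 0 m, (cnt a t : ℝ) := by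
        rw [← hsumcnt]; push_cast; rfl
      rw [← h4, ← h5] at h3
      rw [Nat.sub_zero] at h3
      linarith
    · left
      refine ⟨hc, ?_⟩
      have h2 : ∀ t ∈ Ioc 0 m, 13 * ((univ : Finset Q).filter (fun d => T < sf a d + t)).card
          + (13 * x + 13 * cnt a t) ≤ 14 * q := by
        intro t ht
        rw [mem_Ioc] at ht
        have hcl := hcntle t (by omega)
        rcases hpropD t (by omega) ht.2 with h3 | h3
        · rw [h3]; omega
        · omega
      have h3 := sum_le_sum h2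
      rw [sum_add_distrib, ← mul_sum, sum_add_distrib, sum_const, ← mul_sum, ← hE, hsumcnt,
        sum_const, Nat.card_Ioc, smul_eq_mul, smul_eq_mul, Nat.sub_zero] at h3
      have e1 : m * (13 * x) = 13 * x * m := by ring
      have e2 : m * (14 * q) = 14 * q * m := by ring
      omega
  -- real variables
  have hq' : (0 : ℝ) < q := by exact_mod_cast hq0
  have hT' : (0 : ℝ) < T := by exact_mod_cast hT0
  have hqT : (0 : ℝ) < q * T := mul_pos hq' hT'
  obtain ⟨α, hα⟩ : ∃ α : ℝ, (A : ℝ) = α * (q * T) := ⟨A / (q * T), by field_simp⟩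
  obtain ⟨μ, hμ⟩ : ∃ μ : ℝ, (m : ℝ) = μ * T := ⟨m / T, by field_simp⟩
  obtain ⟨ξ, hξ⟩ : ∃ ξ : ℝ, (x : ℝ) = ξ * q := ⟨x / q, by field_simp⟩
  obtain ⟨γ, hγ⟩ : ∃ γ : ℝ, (C : ℝ) = γ * T := ⟨C / T, by field_simp⟩
  obtain ⟨τ, hτ⟩ : ∃ τ : ℝ, (th : ℝ) = τ * T := ⟨th / T, by field_simp⟩
  obtain ⟨lam, hlam⟩ : ∃ lam : ℝ, (Lam : ℝ) = lam * T := ⟨Lam / T, by field_simp⟩
  -- facts
  have f1 : τ = 1 + lam - μ := by
    have : (th : ℝ) + m = T + Lam := by exact_mod_cast hth
    rw [hτ, hμ, hlam] at this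
    have h2 : T * (τ + μ) = T * (1 + lam) := by linarith
    have h3 := mul_left_cancel₀ hT'.ne' h2
    linarith
  have f2 : γ ≤ (1 + μ) / 2 := by
    have : (2 : ℝ) * C ≤ T + m := by exact_mod_cast hA1.1.le
    rw [hγ, hμ] at this
    have h2 : T * (2 * γ) ≤ T * (1 + μ) := by linarith
    have h3 := le_of_mul_le_mul_left h2 hT'
    linarith
  have f3 : γ ≤ μ + lam := by
    have : (C : ℝ) ≤ m + Lam := by exact_mod_cast hA1.2.le
    rw [hγ, hμ, hlam] at this
    have h2 : T * γ ≤ T * (μ + lam) := by linarith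
    exact le_of_mul_le_mul_left h2 hT'
  have f4 : 1 / 2 ≤ ξ := by
    have : (q : ℝ) ≤ 2 * x := by exact_mod_cast hR1.le
    rw [hξ] at this
    have h2 : q * (1 : ℝ) ≤ q * (2 * ξ) := by linarith
    have h3 := le_of_mul_le_mul_left h2 hq'
    linarith
  have f5 : ξ ≤ 1 := by
    have : (x : ℝ) ≤ q := by exact_mod_cast hxq
    rw [hξ] at this
    have h2 : q * ξ ≤ q * (1 : ℝ) := by linarith
    exact le_of_mul_le_mul_left h2 hq'
  have f6 : 1 / 2 ≤ μ := by
    have : (T : ℝ) ≤ 2 * m := by exact_mod_cast hbig.le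
    rw [hμ] at this
    have h2 : T * (1 : ℝ) ≤ T * (2 * μ) := by linarith
    have h3 := le_of_mul_le_mul_left h2 hT'
    linarith
  have f7 : N * lam ≤ 1 := by
    have : (N : ℝ) * Lam ≤ T := by exact_mod_cast hLam
    rw [hlam] at this
    have h2 : T * (N * lam) ≤ T * (1 : ℝ) := by linarith
    exact le_of_mul_le_mul_left h2 hT'
  have f8 : ∃ ρ : ℝ, (ρ = 0 ∨ ρ = μ - τ) ∧ 3 * α ≤ ξ * τ + (1 - ξ) * γ + ρ / 4 := by
    have hS' : (3 : ℝ) * A ≤ x * th + R + y * C := by exact_mod_cast hS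
    have hy' : (y : ℝ) = q - x := by
      have : (x : ℝ) + y = q := by exact_mod_cast hy
      linarith
    rcases hRle with hR' | hR'
    · refine ⟨μ - τ, Or.inr rfl, ?_⟩
      obtain ⟨u, hu⟩ : ∃ u, th + u = m := ⟨m - th, by omega⟩
      have hu' : m - th = u := by omega
      have h2 : (4 : ℝ) * R ≤ q * u := by
        have := hR'.1
        rw [hu'] at this
        exact_mod_cast this
      have h3 : (u : ℝ) = (μ - τ) * T := by
        have : (th : ℝ) + u = m := by exact_mod_cast hu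
        rw [hτ, hμ] at this
        linarith
      rw [h3] at h2
      rw [hy', hα, hξ, hτ, hγ] at hS'
      have h4 : (q * T : ℝ) * (3 * α) ≤ (q * T) * (ξ * τ + (1 - ξ) * γ + (μ - τ) / 4) := by
        nlinarith
      exact le_of_mul_le_mul_left h4 hqT
    · refine ⟨0, Or.inl rfl, ?_⟩
      rw [hR', hy', hα, hξ, hτ, hγ] at hS'
      have h4 : (q * T : ℝ) * (3 * α) ≤ (q * T) * (ξ * τ + (1 - ξ) * γ + 0 / 4) := by
        push_cast at hS'
        nlinarith
      exact le_of_mul_le_mul_left h4 hqT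
  obtain ⟨ρ, hρ, f9⟩ := f8
  have f10 := num_S f9 f1 f2 f3 f4 f5 f6 hρ
  -- the bound from (D')
  have g1 : (13 * ξ ≤ 7 ∧ 3 * α ≤ 1 - 11 * μ / 26) ∨
      (7 / 13 ≤ ξ ∧ (13 * ξ + 14) * α ≤ 13 * ξ + μ * ξ * (1 - 13 * ξ)) := by
    have hEA' : (2 : ℝ) * A + m * q ≤ E + T * q := by exact_mod_cast hEA
    rcases hE2 with ⟨hc, h2⟩ | ⟨hc, h2⟩
    · left
      have h3 : (13 : ℝ) * E + 13 * x * m + 13 * A ≤ 14 * q * m := by exact_mod_cast h2
      have hc' : (13 : ℝ) * x ≤ 7 * q := by exact_mod_cast hc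
      constructor
      · rw [hξ] at hc'
        have h4 : q * (13 * ξ) ≤ q * (7 : ℝ) := by linarith
        exact le_of_mul_le_mul_left h4 hq'
      · rw [hα, hμ, hξ] at h3
        rw [hα, hμ] at hEA'
        have h4 : (q * T : ℝ) * (3 * α) ≤ (q * T) * (1 + μ / 13 - ξ * μ) := by nlinarith
        have h5 := le_of_mul_le_mul_left h4 hqT
        have h6 : 1 / 2 * μ ≤ ξ * μ := mul_le_mul_of_nonneg_right f4 (by linarith)
        linarith
    · right
      have hc' : (7 : ℝ) * q ≤ 13 * x := by exact_mod_cast hc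
      have hξ' : 7 / 13 ≤ ξ := by
        rw [hξ] at hc'
        have h4 : q * (7 : ℝ) ≤ q * (13 * ξ) := by linarith
        have := le_of_mul_le_mul_left h4 hq'
        linarith
      refine ⟨hξ', ?_⟩
      have hx0 : (0 : ℝ) ≤ 13 * x := by positivity
      have h3 := mul_le_mul_of_nonneg_left hEA' hx0
      rw [hα, hμ, hξ] at h2
      rw [hα, hμ, hξ] at h3
      have h4 : (q * q * T : ℝ) * ((13 * ξ + 14) * α)
          ≤ (q * q * T) * (13 * ξ + μ * ξ * (1 - 13 * ξ)) := by nlinarith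
      exact le_of_mul_le_mul_left h4 (by positivity)
  rcases hNum with ⟨hN, hA5⟩ | ⟨hN, hA13⟩
  · have hα5 : 6 / 25 < α := by
      have : (6 : ℝ) * (q * T) < 25 * A := by exact_mod_cast hA5
      rw [hα] at this
      have h2 : (q * T : ℝ) * 6 < (q * T) * (25 * α) := by linarith
      have h3 := lt_of_mul_lt_mul_left h2 hqT.le
      linarith
    have hlam5 : lam ≤ 1 / 5 := by
      rw [hN] at f7; push_cast at f7; linarith
    have hμ5 : 17 / 25 ≤ μ := by
      rcases f10 with h | h | h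
      · linarith
      · linarith [h.1]
      · linarith
    rcases g1 with ⟨_, h⟩ | ⟨h1, h2⟩
    · linarith
    · exact num_B5 h2 hα5 hμ5 h1
  · have hα13 : 3 / 13 < α := by
      have : (3 : ℝ) * (q * T) < 13 * A := by exact_mod_cast hA13
      rw [hα] at this
      have h2 : (q * T : ℝ) * 3 < (q * T) * (13 * α) := by linarith
      have h3 := lt_of_mul_lt_mul_left h2 hqT.le
      linarith
    have hlam13 : lam ≤ 1 / 13 := by
      rw [hN] at f7; push_cast at f7; linarith
    have hμ13 : 10 / 13 ≤ μ := by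
      rcases f10 with h | h | h
      · linarith
      · linarith [h.2]
      · linarith
    rcases g1 with ⟨_, h⟩ | ⟨h1, h2⟩
    · linarith
    · exact num_B13 h2 hα13 hμ13 h1

end

end Pool.Agent.Helper23
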