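import Pool.Agent.Helper23.Lower

/-!
# Exact values when the exponent is divisible by `4`, when a prime `3 mod 4` divides the order,
and when the exponent is `2 mod 4`
-/

open Finset
open scoped Pointwise

namespace Pool.Agent.Helper23

section
set_option linter.unusedSectionVars false
variable {G : Type*} [AddCommGroup G] [Fintype G]
open Classical

theorem exists_split (c : ℕ) (hc : Odd c) (h : ∀ x : G, (2 * c) • x = 0) :
    ∃ (T K : AddSubgroup G), Nonempty (G ≃+ T × K) ∧ (∀ t ∈ T, t + t = 0) ∧
      (∀ k ∈ K, c • k = 0) := by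
  set T : AddSubgroup G := (nsmulAddMonoidHom 2 : G →+ G).ker with hT
  set K : AddSubgroup G := (nsmulAddMonoidHom c : G →+ G).ker with hK
  have mT : ∀ x, x ∈ T ↔ x + x = 0 := by
    intro x
    rw [hT, AddMonoidHom.mem_ker, nsmulAddMonoidHom_apply, two_nsmul]
  have mK : ∀ x, x ∈ K ↔ c • x = 0 := by
    intro x
    rw [hK, AddMonoidHom.mem_ker, nsmulAddMonoidHom_apply]
  refine ⟨T, K, ?_, fun t ht => (mT t).mp ht, fun k hk => (mK k).mp hk⟩
  obtain ⟨b, hb⟩ := hc
  set f : T × K →+ G := T.subtype.coprod K.subtype with hf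
  have hfa : ∀ t k, f (t, k) = (t : G) + k := by
    intro t k; simp [hf]
  have hbij : Function.Bijective f := by
    constructor
    · rw [injective_iff_map_eq_zero]
      rintro ⟨t, k⟩ h0
      rw [hfa] at h0
      have ht := (mT _).mp t.2
      have hk := (mK _).mp k.2
      have hcT : c • (t : G) = t := by
        rw [hb, add_nsmul, mul_comm, mul_nsmul, two_nsmul, one_nsmul, ← nsmul_add, ht, nsmul_zero, zero_add]
      have h1 : c • ((t : G) + k) = 0 := by rw [h0, nsmul_zero]
      rw [nsmul_add, hk, add_zero, hcT] at h1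
      have h2 : (k : G) = 0 := by rw [h1, zero_add] at h0; exact h0
      exact Prod.ext (Subtype.ext h1) (Subtype.ext h2)
    · intro x
      have h1 : -(c • x) ∈ T := by
        rw [mT, ← neg_add, ← two_nsmul, ← mul_nsmul', h x, neg_zero]
      have h2 : (c + 1) • x ∈ K := by
        rw [mK, ← mul_nsmul']
        have : c * (c + 1) = (2 * c) * (b + 1) := by rw [hb]; ring
        rw [this, mul_nsmul, h, nsmul_zero]
      refine ⟨(⟨_, h1⟩, ⟨_, h2⟩), ?_⟩
      rw [hfa]
      simp only
      rw [add_nsmul, one_nsmul]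
      abel
  exact ⟨(AddEquiv.ofBijective f hbij).symm⟩

lemma prime_dvd_exponent {p : ℕ} (hp : p.Prime) (h : p ∣ Fintype.card G) :
    p ∣ AddMonoid.exponent G := by
  have := Fact.mk hp
  obtain ⟨x, hx⟩ := exists_prime_addOrderOf_dvd_card p h
  rw [← hx]
  exact AddMonoid.addOrder_dvd_exponent x

theorem case_three {p : ℕ} (hp : p.Prime) (h3 : p % 4 = 3) (hpn : p ∣ Fintype.card G)
    (hmin : ∀ r, r.Prime → r % 4 = 3 → r ∣ Fintype.card G → p ≤ r) :
    IsGreatest (sizes G) ((p + 1) / 4 * (Fintype.card G / p)) := by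
  have hp0 : 0 < p := hp.pos
  have hdiv : p * (Fintype.card G / p) = Fintype.card G := Nat.mul_div_cancel' hpn
  constructor
  · obtain ⟨A, hA, hc⟩ := lower_interval (G := G) p ((p + 1) / 4) ((p - 1) / 2) hp0
      (prime_dvd_exponent hp hpn) (by omega) (by omega) (by omega)
    refine ⟨A, hA, ?_⟩
    have h1 : (p - 1) / 2 + 1 - (p + 1) / 4 = (p + 1) / 4 := by omega
    rw [h1] at hc
    have h2 : p * A.card = p * ((p + 1) / 4 * (Fintype.card G / p)) := by
      rw [mul_comm p A.card, hc]
      nth_rewrite 1 [← hdiv]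
      ring
    exact Nat.eq_of_mul_eq_mul_left hp0 h2
  · rintro k ⟨A, hA, rfl⟩
    have h1 := upper_three hp hpn hmin hA
    have h2 : p + 1 = 4 * ((p + 1) / 4) := by omega
    rw [h2, mul_assoc] at h1
    exact Nat.le_of_mul_le_mul_left h1 (by norm_num)

theorem case_four (hn : ∀ p, p.Prime → p ∣ Fintype.card G → p % 4 ≠ 3)
    (h4 : 4 ∣ AddMonoid.exponent G) :
    IsGreatest (sizes G) (Fintype.card G / 4) := by
  constructor
  · obtain ⟨A, hA, hc⟩ := lower_interval (G := G) 4 1 1 (by norm_num) h4 (by omega) (by omega)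
      (by omega)
    refine ⟨A, hA, ?_⟩
    omega
  · rintro k ⟨A, hA, rfl⟩
    have h1 := upper_noThree hn hA
    omega

theorem case_even (hn : ∀ p, p.Prime → p ∣ Fintype.card G → p % 4 ≠ 3)
    (h4 : ¬ 4 ∣ AddMonoid.exponent G) (h2 : 2 ∣ Fintype.card G) :
    IsGreatest (sizes G) ((Fintype.card G - 2 ^ padicValNat 2 (Fintype.card G)) / 4) := by
  have h2e := prime_dvd_exponent Nat.prime_two h2
  obtain ⟨c, hc⟩ := h2e
  have hcodd : Odd c := by
    rw [← Nat.not_even_iff_odd, even_iff_two_dvd]
    rintro ⟨d, hd⟩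
    apply h4
    rw [hc, hd]
    exact ⟨d, by ring⟩
  obtain ⟨T, K, ⟨e⟩, hT, hK⟩ := exists_split (G := G) c hcodd (by
    intro x
    rw [← hc]
    exact AddMonoid.exponent_nsmul_eq_zero x)
  have hcard : Fintype.card G = Fintype.card T * Fintype.card K := by
    rw [← Fintype.card_prod]; exact Fintype.card_congr e.toEquiv
  have hT' : ∀ t : T, t + t = 0 := fun t => Subtype.ext (hT t t.2)
  have hKodd : ∀ p, p.Prime → p ∣ Fintype.card K → p % 4 = 1 := by
    intro p hp hd
    have := Fact.mk hp
    obtain ⟨x, hx⟩ := exists_prime_addOrderOf_dvd_card p hd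
    have h1 : c • x = 0 := Subtype.ext (hK x x.2)
    have h3 : p ∣ c := by rw [← hx]; exact addOrderOf_dvd_of_nsmul_eq_zero h1
    have h5 : Odd p := Odd.of_dvd_nat hcodd h3
    have h6 := hn p hp (by rw [hcard]; exact hd.mul_left _)
    rw [Nat.odd_iff] at h5
    omega
  have hD : D1 (Fintype.card K) := D1_of_primes hKodd Fintype.card_ne_zero
  have hTpow : Fintype.card T = 2 ^ padicValNat 2 (Fintype.card G) := by
    have h1 : Fintype.card T = 2 ^ (Fintype.card T).primeFactorsList.length := by
      apply Nat.eq_prime_pow_of_unique_prime_dvd Fintype.card_ne_zero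
      intro d hd hdv
      have := Fact.mk hd
      obtain ⟨x, hx⟩ := exists_prime_addOrderOf_dvd_card d hdv
      have h3 : d ∣ 2 := by
        rw [← hx]
        apply addOrderOf_dvd_of_nsmul_eq_zero
        rw [two_nsmul]; exact hT' x
      exact (Nat.prime_dvd_prime_iff_eq hd Nat.prime_two).mp h3
    have h5 : padicValNat 2 (Fintype.card K) = 0 := by
      apply padicValNat.eq_zero_of_not_dvd
      intro h
      have := hD.odd
      rw [Nat.odd_iff] at this
      omega
    rw [hcard, padicValNat.mul Fintype.card_ne_zero Fintype.card_ne_zero, h5, add_zero]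
    conv_rhs => rw [h1, padicValNat.prime_pow]
    exact h1
  have hTexp : 2 ∣ AddMonoid.exponent T := by
    apply prime_dvd_exponent Nat.prime_two
    have := hD.odd
    rw [hcard] at h2
    rcases (Nat.Prime.dvd_mul Nat.prime_two).mp h2 with h | h
    · exact h
    · rw [Nat.odd_iff] at this
      omega
  rw [← hTpow]
  constructor
  · obtain ⟨A, hA, hAc⟩ := lower_prod (T := T) (K := K) hTexp hD.odd
    refine ⟨A.image e.symm, ?_, ?_⟩
    · exact hA.map_equiv e.symm
    · rw [card_image_of_injective _ e.symm.injective, hcard]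
      omega
  · rintro k ⟨A, hA, rfl⟩
    have h1 := upper_prod hT' hD (hA.map_equiv e)
    have h5 : (A.image e).card = A.card := card_image_of_injective _ e.injective
    rw [← hcard] at h1
    have h6 : 4 * A.card + Fintype.card T ≤ Fintype.card G := by
      rw [← h5]; exact h1
    omega

end

end Pool.Agent.Helper23
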