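import Pool.Agent.Helper23.Fourier

/-!
# Combinatorial lemmas on functions on a finite group of odd order
-/

open Finset
open scoped Pointwise

namespace Pool.Agent.Helper23

section
set_option linter.unusedSectionVars false
open Classical
variable {Q : Type*} [AddCommGroup Q] [Fintype Q]

lemma alt_sum (d : Q) (g : Q → ℤ) (W : ℤ) (i1 : Q) (k : ℕ) :
    ∑ j ∈ range (2 * k + 1), (-1 : ℤ) ^ j * (W - g (i1 + j • d) - g (i1 + (j + 1) • d))
      = W - g i1 - g (i1 + (2 * k + 1) • d) := by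
  induction k with
  | zero => simp
  | succ k ih =>
    have e : 2 * (k + 1) + 1 = (2 * k + 1) + 1 + 1 := by ring
    rw [e, sum_range_succ, sum_range_succ, ih]
    have p1 : (-1 : ℤ) ^ (2 * k + 1) = -1 := by
      rw [pow_succ, pow_mul]; simp
    have p2 : (-1 : ℤ) ^ (2 * k + 1 + 1) = 1 := by
      rw [pow_succ, p1]; norm_num
    rw [p1, p2]
    ring

/-- If `g(i) + g(i+d) ≤ W` for all `i` and `g` vanishes somewhere then `2 ∑ g ≤ (q - 1) W`. -/
lemma cycle (hodd : Odd (Fintype.card Q)) (d : Q) (g : Q → ℕ) (W : ℕ)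
    (hW : ∀ i, g i + g (i + d) ≤ W) (i1 : Q) (h1 : g i1 = 0) :
    2 * ∑ i, g i + W ≤ Fintype.card Q * W := by
  set o := addOrderOf d with ho
  have hoo : Odd o := Odd.of_dvd_nat hodd addOrderOf_dvd_card
  obtain ⟨k, hk⟩ := hoo
  have h2 := alt_sum d (fun i => (g i : ℤ)) W i1 k
  rw [← hk, ho, addOrderOf_nsmul_eq_zero, add_zero] at h2
  simp only [h1] at h2
  set h : Q → ℤ := fun i => (W : ℤ) - g i - g (i + d) with hh
  have hnn : ∀ i, 0 ≤ h i := by
    intro i
    have := hW i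
    simp only [hh]
    omega
  have h3 : ∑ j ∈ range (addOrderOf d), h (i1 + j • d) ≤ ∑ i, h i := by
    have hinj : Set.InjOn (fun j : ℕ => i1 + j • d) (range (addOrderOf d)) := by
      intro x hx y hy hxy
      have hxy' : i1 + x • d = i1 + y • d := hxy
      have h4 := add_left_cancel hxy'
      rw [mem_coe, mem_range] at hx hy
      exact nsmul_injOn_Iio_addOrderOf hx hy h4
    rw [← sum_image (f := h) hinj]
    exact sum_le_sum_of_subset_of_nonneg (subset_univ _) (fun i _ _ => hnn i)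
  have h4 : (W : ℤ) ≤ ∑ j ∈ range (addOrderOf d), h (i1 + j • d) := by
    have e1 : (W : ℤ) = ∑ j ∈ range (addOrderOf d), (-1 : ℤ) ^ j *
        ((W : ℤ) - g (i1 + j • d) - g (i1 + (j + 1) • d)) := by
      rw [h2]; simp
    rw [e1]
    apply sum_le_sum
    intro j _
    have e2 : i1 + (j + 1) • d = i1 + j • d + d := by rw [succ_nsmul, add_assoc]
    rw [e2]
    have h5 := hnn (i1 + j • d)
    simp only [hh] at h5 ⊢
    rcases neg_one_pow_eq_or ℤ j with h6 | h6 <;> rw [h6] <;> linarith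
  have h5 : ∑ i, h i = Fintype.card Q * W - 2 * ∑ i, (g i : ℤ) := by
    simp only [hh]
    rw [sum_sub_distrib, sum_sub_distrib, sum_const, Finset.card_univ, nsmul_eq_mul]
    have h6 : ∑ i : Q, (g (i + d) : ℤ) = ∑ i : Q, (g i : ℤ) :=
      Fintype.sum_equiv (Equiv.addRight d) _ _ (fun i => rfl)
    rw [h6]; ring
  have h6 : (W : ℤ) ≤ Fintype.card Q * W - 2 * ∑ i, (g i : ℤ) := by
    rw [← h5]; exact h4.trans h3
  have h7 : ((2 * ∑ i, g i + W : ℕ) : ℤ) ≤ ((Fintype.card Q * W : ℕ) : ℤ) := by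
    push_cast
    linarith
  exact_mod_cast h7

/-- Kneser's theorem and parity. -/
lemma aprime (hD : D1 (Fintype.card Q)) (U V Z : Finset Q) {u0 : Q} (hu : u0 ∈ U) (hv : u0 ∈ V)
    (hZ : ∀ z ∈ Z, -z ∈ Z) (hdisj : ∀ u ∈ U, ∀ v ∈ V, u - v ∉ Z) :
    2 * (U.card + V.card) + 1 ≤ Fintype.card Q ∨ 2 * Z.card + 1 ≤ Fintype.card Q := by
  obtain ⟨L, hdis, _, hcard⟩ := kneser_diff U V Z ⟨u0, hu⟩ ⟨u0, hv⟩ hdisj
  set π := QuotientAddGroup.mk' L with hπ
  have hlm := card_quot_mul L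
  have i1 : U.card ≤ Nat.card L * (U.image π).card := card_le_image' L _
  have i2 : V.card ≤ Nat.card L * (V.image π).card := card_le_image' L _
  have i3 : Z.card ≤ Nat.card L * (Z.image π).card := card_le_image' L _
  have hl0 : 0 < Nat.card L := Nat.card_pos
  have hmd : D1 (Nat.card (Q ⧸ L)) := hD.dvd ⟨Nat.card L, by rw [← hlm, mul_comm]⟩
  have hm4 : Nat.card (Q ⧸ L) % 4 = 1 := hmd _ dvd_rfl
  have h0 : (0 : Q ⧸ L) ∉ Z.image π := by
    intro h
    rw [mem_image] at h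
    obtain ⟨z, hz, hz0⟩ := h
    apply hdis u0 hu u0 hv z hz
    rw [sub_self, hz0]
  have hev : Even (Z.image π).card := by
    have hodd' : Odd (Fintype.card (Q ⧸ L)) := by
      rw [← Nat.card_eq_fintype_card]; exact hmd.odd
    apply even_card_of_symm
    · intro z hz
      rw [mem_image] at hz ⊢
      obtain ⟨y, hy, rfl⟩ := hz
      exact ⟨-y, hZ y hy, map_neg _ _⟩
    · intro z hz
      apply neg_ne_of_odd hodd'
      rintro rfl
      exact h0 hz
  rw [Nat.even_iff] at hev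
  by_cases hc : 2 * (Z.image π).card + 1 ≤ Nat.card (Q ⧸ L)
  · right
    calc 2 * Z.card + 1 ≤ 2 * (Nat.card L * (Z.image π).card) + Nat.card L := by omega
      _ = Nat.card L * (2 * (Z.image π).card + 1) := by ring
      _ ≤ Nat.card L * Nat.card (Q ⧸ L) := Nat.mul_le_mul_left _ hc
      _ = Fintype.card Q := hlm
  · left
    have h2 : 2 * ((U.image π).card + (V.image π).card) + 1 ≤ Nat.card (Q ⧸ L) := by omega
    calc 2 * (U.card + V.card) + 1
        ≤ 2 * (Nat.card L * (U.image π).card + Nat.card L * (V.image π).card) + Nat.card L := by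
          omega
      _ = Nat.card L * (2 * ((U.image π).card + (V.image π).card) + 1) := by ring
      _ ≤ Nat.card L * Nat.card (Q ⧸ L) := Nat.mul_le_mul_left _ h2
      _ = Fintype.card Q := hlm

/-- `s(d) = a(d) + a(-d)`. -/
def sf (a : Q → ℕ) (d : Q) : ℕ := a d + a (-d)

lemma sf_neg (a : Q → ℕ) (d : Q) : sf a (-d) = sf a d := by
  unfold sf; rw [neg_neg, add_comm]

lemma sum_sf (a : Q → ℕ) : ∑ d, sf a d = 2 * ∑ i, a i := by
  unfold sf
  rw [sum_add_distrib, two_mul]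
  congr 1
  exact Fintype.sum_equiv (Equiv.neg Q) _ _ (fun i => rfl)

lemma sum_sub_eq (a : Q → ℕ) (m θ : ℕ) (hm : ∀ i, a i ≤ m) :
    ∑ t ∈ Ioc θ m, ((univ : Finset Q).filter (fun i => t ≤ a i)).card = ∑ i, (a i - θ) := by
  simp only [card_filter]
  rw [sum_comm]
  apply sum_congr rfl
  intro i _
  rw [← card_filter]
  have : (Ioc θ m).filter (fun t => t ≤ a i) = Ioc θ (a i) := by
    ext t
    rw [mem_filter, mem_Ioc, mem_Ioc]
    have := hm i
    constructor
    · rintro ⟨h1, h2⟩; omega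
    · rintro ⟨h1, h2⟩; omega
  rw [this, Nat.card_Ioc]

lemma sum_reflect (f : ℕ → ℕ) (θ m : ℕ) (h : θ ≤ m) :
    ∑ t ∈ Ioc θ m, f (m + θ + 1 - t) = ∑ t ∈ Ioc θ m, f t := by
  apply sum_nbij' (fun t => m + θ + 1 - t) (fun t => m + θ + 1 - t)
  · intro t ht; rw [mem_Ioc] at ht ⊢; omega
  · intro t ht; rw [mem_Ioc] at ht ⊢; omega
  · intro t ht; rw [mem_Ioc] at ht; omega
  · intro t ht; rw [mem_Ioc] at ht; omega
  · intro t ht; rfl

end

end Pool.Agent.Helper23
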