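import Pool.Agent.Helper23.Basic

/-!
# The case of even order and exponent not divisible by `4`
-/

open Finset
open scoped Pointwise

namespace Pool.Agent.Helper23

section
set_option linter.unusedSectionVars false
variable {K : Type*} [AddCommGroup K] [Fintype K]
open Classical

lemma two_card_lt {A : Finset K} (h : Anti A) : 2 * A.card + 1 ≤ Fintype.card K := by
  rw [← card_symm h]
  have h1 : symm A ⊆ (univ : Finset K).erase 0 := by
    intro x hx
    rw [mem_erase]
    refine ⟨?_, mem_univ _⟩
    rintro rfl
    exact zero_not_mem_symm h hx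
  have h2 := card_le_card h1
  rw [card_erase_of_mem (mem_univ _), Finset.card_univ] at h2
  have : 0 < Fintype.card K := Fintype.card_pos
  omega

lemma card_le_fib (L : AddSubgroup K) (A : Finset K) {a : K} (ha : a ∈ A) :
    A.card + Nat.card L ≤ (A.filter (fun x => QuotientAddGroup.mk' L x = QuotientAddGroup.mk' L a)).card
      + Nat.card L * (A.image (QuotientAddGroup.mk' L)).card := by
  set F := A.filter (fun x => QuotientAddGroup.mk' L x = QuotientAddGroup.mk' L a) with hF
  set R := A.filter (fun x => ¬ QuotientAddGroup.mk' L x = QuotientAddGroup.mk' L a) with hR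
  have h1 : F.card + R.card = A.card := card_filter_add_card_filter_not _
  have h2 : R.card ≤ Nat.card L * (R.image (QuotientAddGroup.mk' L)).card := card_le_image' L R
  have h3 : R.image (QuotientAddGroup.mk' L) ⊆
      (A.image (QuotientAddGroup.mk' L)).erase (QuotientAddGroup.mk' L a) := by
    intro x hx
    rw [mem_image] at hx
    obtain ⟨r, hr, rfl⟩ := hx
    rw [hR, mem_filter] at hr
    rw [mem_erase]
    exact ⟨hr.2, mem_image_of_mem _ hr.1⟩
  have h4 := card_le_card h3
  rw [card_erase_of_mem (mem_image_of_mem _ ha)] at h4
  have h5 : 0 < (A.image (QuotientAddGroup.mk' L)).card :=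
    card_pos.mpr ⟨_, mem_image_of_mem _ ha⟩
  have h6 : Nat.card L * (R.image (QuotientAddGroup.mk' L)).card + Nat.card L
      ≤ Nat.card L * (A.image (QuotientAddGroup.mk' L)).card := by
    calc Nat.card L * (R.image (QuotientAddGroup.mk' L)).card + Nat.card L
        = Nat.card L * ((R.image (QuotientAddGroup.mk' L)).card + 1) := by ring
      _ ≤ _ := Nat.mul_le_mul_left _ (by omega)
  omega

lemma card_coset (L : AddSubgroup K) (q : K ⧸ L) :
    ((univ : Finset K).filter (fun x => QuotientAddGroup.mk' L x = q)).card = Nat.card L := by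
  have := card_fib (QuotientAddGroup.mk' L) (QuotientAddGroup.mk'_surjective L) q
  rw [QuotientAddGroup.ker_mk'] at this
  exact this

theorem lemmaE (hD : D1 (Fintype.card K)) (B1 B2 B3 : Finset K)
    (a1 : Anti B1) (a2 : Anti B2) (a3 : Anti B3)
    (h12 : ∀ x ∈ B1, ∀ y ∈ B2, x - y ∉ symm B3)
    (h32 : ∀ x ∈ B3, ∀ y ∈ B2, x - y ∉ symm B1)
    (hb : Fintype.card K ≤ 4 * B3.card) :
    2 * (B1.card + B2.card) + 1 ≤ Fintype.card K := by
  rcases B1.eq_empty_or_nonempty with rfl | ne1
  · rw [card_empty, zero_add]; exact two_card_lt a2
  rcases B2.eq_empty_or_nonempty with rfl | ne2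
  · rw [card_empty, add_zero]; exact two_card_lt a1
  obtain ⟨L, hdis, _, hcard⟩ := kneser_diff B1 B2 (symm B3) ne1 ne2 h12
  set π := QuotientAddGroup.mk' L with hπ
  have hlm := card_quot_mul L
  have s3 : 2 * B3.card ≤ Nat.card L * ((symm B3).image π).card := by
    rw [← card_symm a3]; exact card_le_image' L _
  have i1 : B1.card ≤ Nat.card L * (B1.image π).card := card_le_image' L _
  have i2 : B2.card ≤ Nat.card L * (B2.image π).card := card_le_image' L _
  have hl0 : 0 < Nat.card L := Nat.card_pos
  have hN4 := hD _ dvd_rfl
  have hm4 : Nat.card (K ⧸ L) % 4 = 1 := hD _ ⟨Nat.card L, by rw [← hlm, mul_comm]⟩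
  have hl4 : Nat.card L % 4 = 1 := hD _ ⟨Nat.card (K ⧸ L), by rw [← hlm]⟩
  by_contra hcon
  have hcon' : Fintype.card K + 1 ≤ 2 * (B1.card + B2.card) := by omega
  have hσ : Nat.card (K ⧸ L) + 1 ≤ 2 * ((symm B3).image π).card := by
    by_contra h
    have h1 : 2 * ((symm B3).image π).card ≤ Nat.card (K ⧸ L) := by omega
    have h2 : 4 * B3.card ≤ Fintype.card K := by
      calc 4 * B3.card = 2 * (2 * B3.card) := by ring
        _ ≤ 2 * (Nat.card L * ((symm B3).image π).card) := Nat.mul_le_mul_left 2 s3
        _ = Nat.card L * (2 * ((symm B3).image π).card) := by ring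
        _ ≤ Nat.card L * Nat.card (K ⧸ L) := Nat.mul_le_mul_left _ h1
        _ = Fintype.card K := hlm
    omega
  rcases Nat.lt_or_ge (Nat.card (K ⧸ L) + 1) (2 * ((symm B3).image π).card) with hgt | hle
  · -- `2σ ≥ m + 3`
    have h1 : 2 * ((B1.image π).card + (B2.image π).card) + 1 ≤ Nat.card (K ⧸ L) := by omega
    have h2 : 2 * (B1.card + B2.card) + 1 ≤ Fintype.card K := by
      calc 2 * (B1.card + B2.card) + 1
          ≤ 2 * (Nat.card L * (B1.image π).card + Nat.card L * (B2.image π).card) + Nat.card L := by
            omega
        _ = Nat.card L * (2 * ((B1.image π).card + (B2.image π).card) + 1) := by ring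
        _ ≤ Nat.card L * Nat.card (K ⧸ L) := Nat.mul_le_mul_left _ h1
        _ = Fintype.card K := hlm
    omega
  · have heq : 2 * ((symm B3).image π).card = Nat.card (K ⧸ L) + 1 := by omega
    have hβ : 2 * ((B1.image π).card + (B2.image π).card) ≤ Nat.card (K ⧸ L) + 1 := by omega
    -- an element of `B3` in `L`
    have hz : ∃ z ∈ B3, π z = 0 := by
      by_contra hno
      push Not at hno
      have hodd : Odd (Nat.card (K ⧸ L)) := by rw [Nat.odd_iff]; omega
      have hev : Even ((symm B3).image π).card := even_image_symm L B3 hodd (by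
        intro hm
        rw [mem_image] at hm
        obtain ⟨s, hs, hs0⟩ := hm
        rw [mem_symm] at hs
        rcases hs with hs | hs
        · exact hno s hs hs0
        · apply hno _ hs
          rw [map_neg, neg_eq_zero]
          exact hs0)
      rw [Nat.even_iff] at hev
      omega
    obtain ⟨z, hz3, hz0⟩ := hz
    have hmul : Nat.card L * (2 * ((B1.image π).card + (B2.image π).card))
        ≤ Fintype.card K + Nat.card L := by
      calc _ ≤ Nat.card L * (Nat.card (K ⧸ L) + 1) := Nat.mul_le_mul_left _ hβ
        _ = _ := by rw [mul_add, hlm, mul_one]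
    have hmul' : 2 * (Nat.card L * (B1.image π).card) + 2 * (Nat.card L * (B2.image π).card)
        ≤ Fintype.card K + Nat.card L := by
      refine le_trans (le_of_eq ?_) hmul
      ring
    have f1 : ∀ b ∈ B1, Nat.card L + 1 ≤ 2 * (B1.filter (fun x => π x = π b)).card := by
      intro b hb
      have := card_le_fib L B1 hb
      rw [← hπ] at this
      omega
    have f2 : ∀ b ∈ B2, Nat.card L + 1 ≤ 2 * (B2.filter (fun x => π x = π b)).card := by
      intro b hb
      have := card_le_fib L B2 hb
      rw [← hπ] at this
      omega
    -- key claim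
    have key : ∀ s1 ∈ symm B1, ∀ s2 ∈ B2, π s1 ≠ π s2 := by
      intro s1 hs1 s2 hs2 hE
      set D := (univ : Finset K).filter (fun x => π x = - π s2) with hD'
      have hDcard : D.card = Nat.card L := card_coset L _
      set F2 := (B2.filter (fun x => π x = π s2)).image (fun x => z - x) with hF2
      have hF2card : F2.card = (B2.filter (fun x => π x = π s2)).card :=
        card_image_of_injective _ sub_right_injective
      have hF2D : F2 ⊆ D := by
        intro x hx
        rw [hF2, mem_image] at hx
        obtain ⟨b, hb, rfl⟩ := hx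
        rw [mem_filter] at hb
        simp only [hD', mem_filter, mem_univ, true_and]
        rw [map_sub, hz0, hb.2, zero_sub]
      have hF1 : ∃ F1 : Finset K, F1 ⊆ D ∧ F1 ⊆ symm B1 ∧ Nat.card L + 1 ≤ 2 * F1.card := by
        rw [mem_symm] at hs1
        rcases hs1 with hs1 | hs1
        · refine ⟨(B1.filter (fun x => π x = π s1)).image (fun x => -x), ?_, ?_, ?_⟩
          · intro x hx
            rw [mem_image] at hx
            obtain ⟨b, hb, rfl⟩ := hx
            rw [mem_filter] at hb
            simp only [hD', mem_filter, mem_univ, true_and]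
            rw [map_neg, hb.2, hE]
          · intro x hx
            rw [mem_image] at hx
            obtain ⟨b, hb, rfl⟩ := hx
            rw [mem_filter] at hb
            rw [mem_symm, neg_neg]
            exact Or.inr hb.1
          · rw [card_image_of_injective _ neg_injective]
            exact f1 s1 hs1
        · refine ⟨B1.filter (fun x => π x = π (-s1)), ?_, ?_, ?_⟩
          · intro x hx
            rw [mem_filter] at hx
            simp only [hD', mem_filter, mem_univ, true_and]
            rw [hx.2, map_neg, hE]
          · intro x hx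
            rw [mem_filter] at hx
            rw [mem_symm]
            exact Or.inl hx.1
          · exact f1 _ hs1
      obtain ⟨F1, hF1D, hF1S, hF1c⟩ := hF1
      have hdisj : Disjoint F1 F2 := by
        rw [disjoint_left]
        intro x hx1 hx2
        rw [hF2, mem_image] at hx2
        obtain ⟨b, hb, rfl⟩ := hx2
        rw [mem_filter] at hb
        exact h32 z hz3 b hb.1 (hF1S hx1)
      have := card_le_card (union_subset hF1D hF2D)
      rw [card_union_of_disjoint hdisj, hDcard, hF2card] at this
      have := f2 s2 hs2
      omega
    have hdisj : Disjoint ((symm B1).image π) ((symm B2).image π) := by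
      rw [disjoint_left]
      intro x hx1 hx2
      rw [mem_image] at hx1 hx2
      obtain ⟨s1, hs1, rfl⟩ := hx1
      obtain ⟨s2, hs2, hE⟩ := hx2
      rw [mem_symm] at hs2
      rcases hs2 with hs2 | hs2
      · exact key s1 hs1 s2 hs2 hE.symm
      · apply key (-s1) (neg_mem_symm hs1) (-s2) hs2
        rw [map_neg, map_neg, hE]
    have hle : ((symm B1).image π).card + ((symm B2).image π).card ≤ Nat.card (K ⧸ L) := by
      rw [← card_union_of_disjoint hdisj, Nat.card_eq_fintype_card, ← Finset.card_univ]
      exact card_le_card (subset_univ _)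
    have j1 : 2 * B1.card ≤ Nat.card L * ((symm B1).image π).card := by
      rw [← card_symm a1]; exact card_le_image' L _
    have j2 : 2 * B2.card ≤ Nat.card L * ((symm B2).image π).card := by
      rw [← card_symm a2]; exact card_le_image' L _
    have : 2 * (B1.card + B2.card) ≤ Fintype.card K := by
      calc 2 * (B1.card + B2.card) = 2 * B1.card + 2 * B2.card := by ring
        _ ≤ Nat.card L * ((symm B1).image π).card + Nat.card L * ((symm B2).image π).card := by
          omega
        _ = Nat.card L * (((symm B1).image π).card + ((symm B2).image π).card) := by ring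
        _ ≤ Nat.card L * Nat.card (K ⧸ L) := Nat.mul_le_mul_left _ hle
        _ = Fintype.card K := hlm
    omega

variable {T : Type*} [AddCommGroup T] [Fintype T]

theorem upper_prod (hT : ∀ t : T, t + t = 0) (hD : D1 (Fintype.card K)) {A : Finset (T × K)}
    (h : SumFree02 A) : 4 * A.card + Fintype.card T ≤ Fintype.card T * Fintype.card K := by
  set C : T → Finset K := fun t => (univ : Finset K).filter (fun y => (t, y) ∈ A) with hC
  have hAc : A.card = ∑ t : T, (C t).card := by
    have h1 : A.card = ∑ t : T, (A.filter (fun p => p.1 = t)).card :=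
      card_eq_sum_card_fiberwise (fun p _ => mem_coe.mpr (mem_univ _))
    rw [h1]
    apply sum_congr rfl
    intro t _
    apply card_bij (fun p _ => p.2)
    · intro p hp
      rw [mem_filter] at hp
      simp only [hC, mem_filter, mem_univ, true_and]
      rw [← hp.2]; exact hp.1
    · intro p hp q hq hpq
      rw [mem_filter] at hp hq
      exact Prod.ext (hp.2.trans hq.2.symm) hpq
    · intro y hy
      simp only [hC, mem_filter, mem_univ, true_and] at hy
      exact ⟨(t, y), by rw [mem_filter]; exact ⟨hy, rfl⟩, rfl⟩
  have hanti : ∀ t, Anti (C t) := by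
    intro t y hy hy'
    simp only [hC, mem_filter, mem_univ, true_and] at hy hy'
    apply (h.2 _ hy _ hy').1
    ext
    · exact hT t
    · simp
  have hsub : ∀ u v, ∀ a ∈ C u, ∀ b ∈ C v, a - b ∉ symm (C (u + v)) := by
    intro u v a ha b hb hm
    rw [mem_symm] at hm
    simp only [hC, mem_filter, mem_univ, true_and] at ha hb hm
    have hv : v + (u + v) = u := by
      have := hT v
      calc v + (u + v) = u + (v + v) := by abel
        _ = u := by rw [this, add_zero]
    have hu : u + (u + v) = v := by
      have := hT u
      calc u + (u + v) = v + (u + u) := by abel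
        _ = v := by rw [this, add_zero]
    rcases hm with hm | hm
    · have := (h.2 _ hb _ hm).2
      apply this
      have e : (v, b) + (u + v, a - b) = (u, a) := by
        ext
        · exact hv
        · simp
      rw [e]; exact ha
    · have := (h.2 _ ha _ hm).2
      apply this
      have e : (u, a) + (u + v, -(a - b)) = (v, b) := by
        ext
        · exact hu
        · simp
      rw [e]; exact hb
  by_cases hheavy : ∃ t0, Fintype.card K ≤ 4 * (C t0).card
  · obtain ⟨t0, ht0⟩ := hheavy
    have hpair : ∀ u, 2 * ((C u).card + (C (u + t0)).card) + 1 ≤ Fintype.card K := by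
      intro u
      apply lemmaE hD (C u) (C (u + t0)) (C t0) (hanti _) (hanti _) (hanti _) _ _ ht0
      · intro x hx y hy
        have := hsub u (u + t0) x hx y hy
        have e : u + (u + t0) = t0 := by
          rw [← add_assoc, hT u, zero_add]
        rw [e] at this; exact this
      · intro x hx y hy
        have := hsub t0 (u + t0) x hx y hy
        have e : t0 + (u + t0) = u := by
          calc t0 + (u + t0) = u + (t0 + t0) := by abel
            _ = u := by rw [hT t0, add_zero]
        rw [e] at this; exact this
    have hsum : ∑ u : T, (2 * ((C u).card + (C (u + t0)).card) + 1) ≤ ∑ _u : T, Fintype.card K :=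
      sum_le_sum (fun u _ => hpair u)
    rw [sum_const, Finset.card_univ, smul_eq_mul] at hsum
    have hshift : ∑ u : T, (C (u + t0)).card = A.card := by
      rw [hAc]
      exact Fintype.sum_equiv (Equiv.addRight t0) _ _ (fun u => rfl)
    have : ∑ u : T, (2 * ((C u).card + (C (u + t0)).card) + 1) = 4 * A.card + Fintype.card T := by
      rw [sum_add_distrib, ← mul_sum, sum_add_distrib, hshift, ← hAc, sum_const, Finset.card_univ,
        smul_eq_mul, mul_one]
      ring
    rw [this] at hsum
    exact hsum
  · push Not at hheavy
    have hsum : ∑ u : T, (4 * (C u).card + 1) ≤ ∑ _u : T, Fintype.card K :=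
      sum_le_sum (fun u _ => hheavy u)
    rw [sum_const, Finset.card_univ, smul_eq_mul, sum_add_distrib, ← mul_sum, ← hAc, sum_const,
      Finset.card_univ, smul_eq_mul, mul_one] at hsum
    exact hsum

end

end Pool.Agent.Helper23
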