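import Pool.Agent.Helper23.Five

/-!
# Fibres of a `[0,2]`-sum-free set over a quotient
-/

open Finset
open scoped Pointwise

namespace Pool.Agent.Helper23

section
set_option linter.unusedSectionVars false
open Classical
variable {G : Type*} [AddCommGroup G] [Fintype G] {Q : Type*} [AddCommGroup Q] [Fintype Q]

/-- Size of the fibre of `A` over `q`. -/
noncomputable def fib (φ : G →+ Q) (A : Finset G) (q : Q) : ℕ := (A.filter (fun x => φ x = q)).card

lemma sum_fib (φ : G →+ Q) (A : Finset G) : ∑ q : Q, fib φ A q = A.card :=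
  (card_eq_sum_card_fiberwise (fun p _ => mem_coe.mpr (mem_univ _))).symm

lemma fib_symm (φ : G →+ Q) {A : Finset G} (hA : Anti A) (d : Q) :
    fib φ (symm A) d = fib φ A d + fib φ A (-d) := by
  unfold fib
  have h1 : (symm A).filter (fun x => φ x = d) = A.filter (fun x => φ x = d) ∪
      (A.filter (fun x => φ x = -d)).image (fun x => -x) := by
    ext x
    rw [mem_filter, mem_symm, mem_union, mem_filter, mem_image]
    constructor
    · rintro ⟨h | h, hx⟩
      · exact Or.inl ⟨h, hx⟩
      · right
        refine ⟨-x, ?_, neg_neg x⟩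
        rw [mem_filter, map_neg, hx]
        exact ⟨h, rfl⟩
    · rintro (h | ⟨y, hy, rfl⟩)
      · exact ⟨Or.inl h.1, h.2⟩
      · rw [mem_filter] at hy
        rw [neg_neg, map_neg, hy.2, neg_neg]
        exact ⟨Or.inr hy.1, rfl⟩
  rw [h1, card_union_of_disjoint, card_image_of_injective _ neg_injective]
  rw [disjoint_left]
  intro x hx hx'
  rw [mem_filter] at hx
  rw [mem_image] at hx'
  obtain ⟨y, hy, rfl⟩ := hx'
  rw [mem_filter] at hy
  exact hA y hy.1 hx.1

lemma fib_pos {φ : G →+ Q} {A : Finset G} {q : Q} (h : 0 < fib φ A q) : ∃ x ∈ A, φ x = q := by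
  unfold fib at h
  rw [card_pos] at h
  obtain ⟨x, hx⟩ := h
  rw [mem_filter] at hx
  exact ⟨x, hx.1, hx.2⟩

lemma fib_le (φ : G →+ Q) (hφ : Function.Surjective φ) (A : Finset G) (q : Q) :
    fib φ A q ≤ Nat.card φ.ker := by
  rw [← card_fib φ hφ q]
  apply card_le_card
  intro x hx
  rw [mem_filter] at hx ⊢
  exact ⟨mem_univ _, hx.2⟩

/-- `(W)`. -/
lemma fib_W (φ : G →+ Q) (hφ : Function.Surjective φ) {A : Finset G} (hA : SumFree02 A) (i j : Q)
    (hi : 0 < fib φ A i) (hj : 0 < fib φ A j) :
    fib φ (symm A) (i - j) + fib φ A i ≤ Nat.card φ.ker := by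
  obtain ⟨b, hb, hbj⟩ := fib_pos hj
  rw [← card_fib φ hφ (i - j)]
  have h1 : fib φ A i = ((A.filter (fun x => φ x = i)).image (fun x => x - b)).card := by
    rw [card_image_of_injective _ sub_left_injective]; rfl
  rw [h1]
  unfold fib
  rw [← card_union_of_disjoint]
  · apply card_le_card
    intro x hx
    rw [mem_union, mem_filter, mem_image] at hx
    rw [mem_filter]
    refine ⟨mem_univ _, ?_⟩
    rcases hx with hx | ⟨y, hy, rfl⟩
    · exact hx.2
    · rw [mem_filter] at hy
      rw [map_sub, hy.2, hbj]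
  · rw [disjoint_left]
    intro x hx hx'
    rw [mem_filter] at hx
    rw [mem_image] at hx'
    obtain ⟨y, hy, rfl⟩ := hx'
    rw [mem_filter] at hy
    exact hA.sub_not_mem hy.1 hb hx.1

/-- `(Full)`. -/
lemma fib_Full (φ : G →+ Q) (hφ : Function.Surjective φ) {A : Finset G} (hA : SumFree02 A) (i j : Q)
    (h : Nat.card φ.ker < fib φ A i + fib φ A j) : fib φ (symm A) (i - j) = 0 := by
  by_contra hne
  obtain ⟨z, hz, hzij⟩ := fib_pos (Nat.pos_of_ne_zero hne)
  -- A_i and z + A_j both lie in the fibre over i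
  have h1 : fib φ A j = ((A.filter (fun x => φ x = j)).image (fun x => z + x)).card := by
    rw [card_image_of_injective _ (add_right_injective z)]; rfl
  rw [h1, ← card_fib φ hφ i] at h
  unfold fib at h
  rw [← card_union_of_disjoint] at h
  · apply absurd h (not_lt.mpr _)
    apply card_le_card
    intro x hx
    rw [mem_union, mem_filter, mem_image] at hx
    rw [mem_filter]
    refine ⟨mem_univ _, ?_⟩
    rcases hx with hx | ⟨y, hy, rfl⟩
    · exact hx.2
    · rw [mem_filter] at hy
      rw [map_add, hy.2, hzij]; abel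
  · rw [disjoint_left]
    intro x hx hx'
    rw [mem_filter] at hx
    rw [mem_image] at hx'
    obtain ⟨y, hy, rfl⟩ := hx'
    rw [mem_filter] at hy
    have := hA.sub_not_mem hx.1 hy.1
    rw [add_sub_cancel_right] at this
    exact this hz

/-- `(K)`: Kneser's theorem inside the fibre. -/
lemma fib_K (φ : G →+ Q) (hφ : Function.Surjective φ) {A : Finset G} (hA : SumFree02 A) (i j : Q)
    (hi : 0 < fib φ A i) (hj : 0 < fib φ A j) (hs : 0 < fib φ (symm A) (i - j)) :
    ∃ t l r ri rj : ℕ, Nat.card φ.ker = l * t ∧ 0 < t ∧ l ≠ 1 ∧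
      fib φ (symm A) (i - j) + r * t ≤ Nat.card φ.ker ∧
      fib φ A i ≤ ri * t ∧ fib φ A j ≤ rj * t ∧ ri + rj ≤ r + 1 := by
  set Ai := A.filter (fun x => φ x = i) with hAi
  set Aj := A.filter (fun x => φ x = j) with hAj
  set Z := (symm A).filter (fun x => φ x = i - j) with hZ
  set Bj := Aj.image (fun b => -b) with hBj
  have hci : Ai.card = fib φ A i := rfl
  have hcj : Aj.card = fib φ A j := rfl
  have hcz : Z.card = fib φ (symm A) (i - j) := rfl
  have nAi : Ai.Nonempty := card_pos.mp hi
  have nAj : Aj.Nonempty := card_pos.mp hj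
  obtain ⟨L, hper, hcard⟩ := kneser Ai Bj nAi (nAj.image _)
  have hmem : ∀ x ∈ Ai + Bj, φ x = i - j ∧ x ∉ symm A := by
    intro x hx
    rw [mem_add] at hx
    obtain ⟨a, ha, b', hb', rfl⟩ := hx
    rw [hBj, mem_image] at hb'
    obtain ⟨b, hb, rfl⟩ := hb'
    rw [hAi, mem_filter] at ha
    rw [hAj, mem_filter] at hb
    constructor
    · rw [map_add, map_neg, ha.2, hb.2, sub_eq_add_neg]
    · rw [← sub_eq_add_neg]
      exact hA.sub_not_mem ha.1 hb.1
  have hLker : L ≤ φ.ker := by
    intro h hh
    obtain ⟨a, ha⟩ := nAi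
    obtain ⟨b, hb⟩ := nAj.image (fun b => -b)
    have h1 := hmem _ (add_mem_add ha hb)
    have h2 := hmem _ (hper _ (add_mem_add ha hb) h hh)
    have h3 := h2.1
    rw [map_add, h1.1] at h3
    rw [AddMonoidHom.mem_ker]
    exact left_eq_add.mp h3.symm
  obtain ⟨l, hl⟩ : Nat.card L ∣ Nat.card φ.ker := AddSubgroup.card_dvd_of_le hLker
  set π := QuotientAddGroup.mk' L with hπ
  have hπs : Function.Surjective π := QuotientAddGroup.mk'_surjective L
  have hπk : π.ker = L := QuotientAddGroup.ker_mk' L
  set r := ((Ai + Bj).image π).card with hr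
  have hLpos : 0 < Nat.card L := Nat.card_pos
  have hC : (Ai + Bj).card = Nat.card L * r := by
    have h1 := card_pre π hπs ((Ai + Bj).image π)
    rw [hπk] at h1
    rw [hr, ← h1]
    congr 1
    ext z
    simp only [mem_filter, mem_univ, true_and, mem_image]
    constructor
    · intro hz; exact ⟨z, hz, rfl⟩
    · rintro ⟨c, hc, hcz⟩
      have h1 : z - c ∈ L := by
        rw [← hπk, AddMonoidHom.mem_ker, map_sub, hcz, sub_self]
      have := hper c hc _ h1
      rwa [add_sub_cancel] at this
  have hsum : fib φ (symm A) (i - j) + r * Nat.card L ≤ Nat.card φ.ker := by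
    rw [← hcz, mul_comm r, ← hC, ← card_fib φ hφ (i - j), ← card_union_of_disjoint]
    · apply card_le_card
      intro x hx
      rw [mem_union, hZ, mem_filter] at hx
      rw [mem_filter]
      refine ⟨mem_univ _, ?_⟩
      rcases hx with hx | hx
      · exact hx.2
      · exact (hmem x hx).1
    · rw [disjoint_left]
      intro x hx hx'
      rw [hZ, mem_filter] at hx
      exact (hmem x hx').2 hx.1
  have hBi : (Bj.image π).card = (Aj.image π).card := by
    have : Bj.image π = (Aj.image π).image (fun b => -b) := by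
      rw [hBj, image_image, image_image]
      apply image_congr
      intro b _
      simp
    rw [this]
    exact card_image_of_injective _ neg_injective
  have hle1 : Ai.card ≤ Nat.card L * (Ai.image π).card := card_le_image' L Ai
  have hle2 : Aj.card ≤ Nat.card L * (Aj.image π).card := card_le_image' L Aj
  refine ⟨Nat.card L, l, r, (Ai.image π).card, (Aj.image π).card, ?_, hLpos, ?_, hsum, ?_, ?_, ?_⟩
  · rw [hl, mul_comm]
  · rintro rfl
    rw [mul_one] at hl
    have hr1 : 1 ≤ r := by
      rw [hr]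
      exact card_pos.mpr ((nAi.add (nAj.image _)).image _)
    have : 1 * Nat.card L ≤ r * Nat.card L := Nat.mul_le_mul_right _ hr1
    omega
  · rw [← hci, mul_comm]; exact hle1
  · rw [← hcj, mul_comm]; exact hle2
  · have : (Ai.image π).card + (Bj.image π).card ≤ r + 1 := hcard
    rw [hBi] at this
    exact this

end

end Pool.Agent.Helper23
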