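import Pool.Agent.Helper23.CaseEven

/-!
# Elementary abelian `5`-groups
-/

open Finset
open scoped Pointwise

universe u

namespace Pool.Agent.Helper23

section
set_option linter.unusedSectionVars false
open Classical

lemma five_25 {G : Type*} [AddCommGroup G] [Fintype G] (h5 : ∀ x : G, (5 : ℕ) • x = 0)
    (hcard : Fintype.card G = 25) {A : Finset G} (hA : SumFree02 A) : A.card ≤ 5 := by
  by_contra hcon
  have hx5 : ∀ x : G, x + x + x + x + x = 0 := by
    intro x
    have := h5 x
    have e : (5 : ℕ) • x = x + x + x + x + x := by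
      simp only [succ_nsmul, zero_nsmul, zero_add]
    rw [← e]; exact this
  set S := symm A with hS
  set D := S.image (fun x => x + x) with hD
  have hinj : Function.Injective (fun x : G => x + x) := by
    intro x y hxy
    have hxy' : x + x = y + y := hxy
    have h1 : x = -((x + x) + (x + x)) := by
      rw [eq_neg_iff_add_eq_zero]
      have := hx5 x
      calc x + (x + x + (x + x)) = x + x + x + x + x := by abel
        _ = 0 := this
    have h2 : y = -((y + y) + (y + y)) := by
      rw [eq_neg_iff_add_eq_zero]
      have := hx5 y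
      calc y + (y + y + (y + y)) = y + y + y + y + y := by abel
        _ = 0 := this
    rw [h1, h2, hxy']
  have hScard : S.card = 2 * A.card := card_symm hA.anti
  have hDcard : D.card = 2 * A.card := by
    rw [hD, card_image_of_injective _ hinj, hScard]
  -- if `a, b ∈ A` then `a + a ≠ ± b`
  have hne1 : ∀ a ∈ A, a + a ∉ S := by
    intro a ha hm
    rw [hS, mem_symm] at hm
    rcases hm with hm | hm
    · exact (hA.2 a ha a ha).2 hm
    · have := (hA.2 _ hm _ hm).2
      apply this
      have e : -(a + a) + -(a + a) = a := by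
        rw [← sub_eq_zero]
        have := hx5 (-a)
        calc -(a + a) + -(a + a) - a = -a + -a + -a + -a + -a := by abel
          _ = 0 := this
      rw [e]; exact ha
  have hdisj : Disjoint S D := by
    rw [disjoint_left]
    intro x hx hxD
    rw [hD, mem_image] at hxD
    obtain ⟨s, hs, rfl⟩ := hxD
    rw [hS, mem_symm] at hs
    rcases hs with hs | hs
    · exact hne1 s hs hx
    · apply hne1 _ hs
      have := neg_mem_symm hx
      rw [neg_add] at this
      exact this
  have h0S : (0 : G) ∉ S := zero_not_mem_symm hA.anti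
  have h0D : (0 : G) ∉ D := by
    rw [hD, mem_image]
    rintro ⟨s, hs, h0⟩
    have h1 : s = 0 := by
      apply hinj
      simp only
      rw [h0, add_zero]
    rw [h1] at hs
    exact h0S hs
  have hcover : ∀ x : G, x ≠ 0 → x ∈ S ∨ x ∈ D := by
    have hsub : S ∪ D ⊆ (univ : Finset G).erase 0 := by
      intro x hx
      rw [mem_erase]
      refine ⟨?_, mem_univ _⟩
      rintro rfl
      rw [mem_union] at hx
      rcases hx with hx | hx
      · exact h0S hx
      · exact h0D hx
    have hEq : S ∪ D = (univ : Finset G).erase 0 := by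
      apply eq_of_subset_of_card_le hsub
      rw [card_erase_of_mem (mem_univ _), Finset.card_univ, hcard, card_union_of_disjoint hdisj,
        hScard, hDcard]
      omega
    intro x hx
    have : x ∈ S ∪ D := by
      rw [hEq, mem_erase]; exact ⟨hx, mem_univ _⟩
    rwa [mem_union] at this
  have hinj2 : Set.InjOn (fun p : G × G => p.1 + (p.2 + p.2)) (A ×ˢ A : Finset (G × G)) := by
    intro p hp q hq hpq
    rw [mem_coe, mem_product] at hp hq
    have hpq' : p.1 + (p.2 + p.2) = q.1 + (q.2 + q.2) := hpq
    by_contra hne
    have h1 : p.1 ≠ q.1 := by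
      intro h1
      rw [h1] at hpq'
      have h2 : p.2 = q.2 := hinj (add_left_cancel hpq')
      exact hne (Prod.ext h1 h2)
    have h2 : p.2 ≠ q.2 := by
      intro h2
      rw [h2] at hpq'
      exact h1 (add_right_cancel hpq')
    have k1 : p.1 - q.1 ∉ S := hA.sub_not_mem hp.1 hq.1
    have k2 : q.2 - p.2 ∉ S := hA.sub_not_mem hq.2 hp.2
    have k4 : q.2 - p.2 ∈ D := (hcover _ (sub_ne_zero.mpr (Ne.symm h2))).resolve_left k2
    rw [hD, mem_image] at k4
    obtain ⟨s, hs, hsE⟩ := k4
    apply k1
    have e : p.1 - q.1 = (q.2 - p.2) + (q.2 - p.2) := by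
      rw [← sub_eq_zero]
      have : p.1 + (p.2 + p.2) - (q.1 + (q.2 + q.2)) = 0 := by rw [hpq', sub_self]
      rw [← this]; abel
    have hsE' : s + s = q.2 - p.2 := hsE
    rw [e, ← hsE']
    have e2 : s + s + (s + s) = -s := by
      rw [eq_neg_iff_add_eq_zero]
      have := hx5 s
      rw [← this]; abel
    rw [e2]
    exact neg_mem_symm hs
  have h36 := card_image_of_injOn hinj2
  rw [card_product] at h36
  have hle : ((A ×ˢ A).image (fun p : G × G => p.1 + (p.2 + p.2))).card ≤ 25 := by
    rw [← hcard, ← Finset.card_univ]
    exact card_le_card (subset_univ _)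
  rw [h36] at hle
  have : 6 * 6 ≤ A.card * A.card := Nat.mul_le_mul (by omega) (by omega)
  omega

lemma five_card {G : Type*} [AddCommGroup G] [Fintype G] (h5 : ∀ x : G, (5 : ℕ) • x = 0) :
    ∃ r : ℕ, Fintype.card G = 5 ^ r := by
  refine ⟨_, Nat.eq_prime_pow_of_unique_prime_dvd Fintype.card_ne_zero ?_⟩
  intro d hd hdv
  have := Fact.mk hd
  obtain ⟨x, hx⟩ := exists_prime_addOrderOf_dvd_card d hdv
  have h3 : d ∣ 5 := by
    rw [← hx]
    exact addOrderOf_dvd_of_nsmul_eq_zero (h5 x)
  exact (Nat.prime_dvd_prime_iff_eq hd Nat.prime_five).mp h3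

lemma D1_five_pow (r : ℕ) : D1 (5 ^ r) := by
  apply D1_of_primes
  · intro p hp hd
    have := hp.dvd_of_dvd_pow hd
    rw [(Nat.prime_dvd_prime_iff_eq hp Nat.prime_five).mp this]
  · positivity

/-- Restriction to a subgroup. -/
lemma SumFree02.restrict {G : Type*} [AddCommGroup G] {A : Finset G} (hA : SumFree02 A)
    (H : AddSubgroup G) [DecidablePred (fun x => x ∈ H)] : SumFree02 (A.subtype (fun x => x ∈ H) : Finset H) := by
  constructor
  · rw [mem_subtype]; exact hA.1
  · intro a ha b hb
    rw [mem_subtype] at ha hb
    have := hA.2 _ ha _ hb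
    constructor
    · intro h0
      apply this.1
      have := congrArg (fun z : H => (z : G)) h0
      simpa using this
    · rw [mem_subtype]; exact this.2

theorem five_main (n : ℕ) : ∀ (G : Type u) [AddCommGroup G] [Fintype G],
    Fintype.card G = n → (∀ x : G, (5 : ℕ) • x = 0) → ∀ A : Finset G, SumFree02 A →
      5 * A.card ≤ Fintype.card G := by
  induction n using Nat.strong_induction_on with
  | _ n ih =>
    intro G _ _ hn h5 A hA
    obtain ⟨r, hr⟩ := five_card h5
    have hD : D1 (Fintype.card G) := by rw [hr]; exact D1_five_pow r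
    have hup := upper_odd hD hA
    rcases Nat.lt_or_ge r 2 with hr2 | hr2
    · interval_cases r
      · rw [pow_zero] at hr; omega
      · rw [pow_one] at hr; omega
    rcases Nat.lt_or_ge r 3 with hr3 | hr3
    · have : r = 2 := by omega
      subst this
      have h25 : Fintype.card G = 25 := by rw [hr]; norm_num
      have := five_25 h5 h25 hA
      omega
    -- `n ≥ 125`
    have h125 : 125 ≤ Fintype.card G := by
      rw [hr]
      calc 125 = 5 ^ 3 := by norm_num
        _ ≤ 5 ^ r := Nat.pow_le_pow_right (by norm_num) hr3
    let _ : Module (ZMod 5) G := AddCommGroup.zmodModule h5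
    have : Fact (Nat.Prime 5) := ⟨Nat.prime_five⟩
    have : Finite (Module.Dual (ZMod 5) G) :=
      Finite.of_injective (fun f : Module.Dual (ZMod 5) G => (f : G → ZMod 5)) DFunLike.coe_injective
    let _ : Fintype (Module.Dual (ZMod 5) G) := Fintype.ofFinite _
    have hMcard : Fintype.card (Module.Dual (ZMod 5) G) = Fintype.card G := by
      rw [Module.card_eq_pow_finrank (K := ZMod 5), Module.card_eq_pow_finrank (K := ZMod 5) (V := G),
        Subspace.dual_finrank_eq]
    -- number of functionals vanishing at `a`
    have hev : ∀ a : G, a ≠ 0 → 5 * ((univ : Finset (Module.Dual (ZMod 5) G)).filter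
        (fun f => f a = 0)).card = Fintype.card G := by
      intro a ha
      set ev : Module.Dual (ZMod 5) G →+ ZMod 5 := (Module.Dual.eval (ZMod 5) G a).toAddMonoidHom
        with hev
      have heva : ∀ f, ev f = f a := fun f => rfl
      obtain ⟨f0, hf0⟩ : ∃ f : Module.Dual (ZMod 5) G, f a ≠ 0 := by
        by_contra hno
        push Not at hno
        exact ha ((Module.forall_dual_apply_eq_zero_iff (ZMod 5) a).mp hno)
      have hsurj : Function.Surjective ev := by
        intro z
        refine ⟨(z * (f0 a)⁻¹) • f0, ?_⟩
        rw [heva, LinearMap.smul_apply, smul_eq_mul, mul_assoc, inv_mul_cancel₀ hf0, mul_one]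
      have h1 := card_dom ev hsurj
      have h2 := card_fib ev hsurj 0
      rw [ZMod.card, ← h2, hMcard] at h1
      rw [h1, mul_comm]
      congr 2
    have hker : ∀ f : Module.Dual (ZMod 5) G, f ≠ 0 →
        25 * (A.filter (fun a => f a = 0)).card ≤ Fintype.card G := by
      intro f hf
      obtain ⟨a0, ha0⟩ : ∃ a, f a ≠ 0 := by
        by_contra hno
        push Not at hno
        exact hf (LinearMap.ext hno)
      have hsurj : Function.Surjective f.toAddMonoidHom := by
        intro z
        refine ⟨(z * (f a0)⁻¹) • a0, ?_⟩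
        show f _ = z
        rw [map_smul, smul_eq_mul, mul_assoc, inv_mul_cancel₀ ha0, mul_one]
      have h1 := card_dom f.toAddMonoidHom hsurj
      set H := f.toAddMonoidHom.ker with hH
      rw [ZMod.card, Nat.card_eq_fintype_card] at h1
      have hlt : Fintype.card H < n := by
        rw [← hn, h1]
        have : 0 < Fintype.card H := Fintype.card_pos
        omega
      have h2 := ih _ hlt H rfl (fun x => Subtype.ext (h5 x)) _ (hA.restrict H)
      have h3 : (A.subtype (fun x => x ∈ H) : Finset H).card
          = (A.filter (fun a => f a = 0)).card := by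
        rw [card_subtype]
        congr 1
        ext x
        rw [mem_filter, mem_filter, hH, AddMonoidHom.mem_ker]
        rfl
      have h4 : 5 * (A.filter (fun a => f a = 0)).card ≤ Fintype.card H := by
        rw [← h3]
        exact h2
      omega
    -- double counting
    have hdc : ∑ f ∈ (univ : Finset (Module.Dual (ZMod 5) G)).erase 0,
        (A.filter (fun a => f a = 0)).card
        = ∑ a ∈ A, (((univ : Finset (Module.Dual (ZMod 5) G)).erase 0).filter
          (fun f => f a = 0)).card := by
      simp only [card_filter]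
      exact sum_comm
    have hR : ∀ a ∈ A, 5 * (((univ : Finset (Module.Dual (ZMod 5) G)).erase 0).filter
          (fun f => f a = 0)).card + 5 = Fintype.card G := by
      intro a ha
      have ha0 : a ≠ 0 := by rintro rfl; exact hA.1 ha
      have h1 := hev a ha0
      have h2 : ((univ : Finset (Module.Dual (ZMod 5) G)).erase 0).filter (fun f => f a = 0)
          = ((univ : Finset (Module.Dual (ZMod 5) G)).filter (fun f => f a = 0)).erase 0 := by
        ext f
        simp only [mem_filter, mem_erase, mem_univ, and_true, true_and]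
      have h3 : (0 : Module.Dual (ZMod 5) G) ∈
          (univ : Finset (Module.Dual (ZMod 5) G)).filter (fun f => f a = 0) := by
        rw [mem_filter]; exact ⟨mem_univ _, rfl⟩
      have h4 : 0 < ((univ : Finset (Module.Dual (ZMod 5) G)).filter (fun f => f a = 0)).card :=
        card_pos.mpr ⟨_, h3⟩
      rw [h2, card_erase_of_mem h3]
      omega
    have hsum1 : 25 * ∑ f ∈ (univ : Finset (Module.Dual (ZMod 5) G)).erase 0,
        (A.filter (fun a => f a = 0)).card ≤ (Fintype.card G - 1) * Fintype.card G := by
      rw [mul_sum]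
      calc ∑ f ∈ (univ : Finset (Module.Dual (ZMod 5) G)).erase 0,
          25 * (A.filter (fun a => f a = 0)).card
          ≤ ∑ f ∈ (univ : Finset (Module.Dual (ZMod 5) G)).erase 0, Fintype.card G := by
            apply sum_le_sum
            intro f hf
            rw [mem_erase] at hf
            exact hker f hf.1
        _ = (Fintype.card G - 1) * Fintype.card G := by
            rw [sum_const, smul_eq_mul, card_erase_of_mem (mem_univ _), Finset.card_univ, hMcard]
    have hsum2 : 5 * ∑ a ∈ A, (((univ : Finset (Module.Dual (ZMod 5) G)).erase 0).filter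
          (fun f => f a = 0)).card + 5 * A.card = A.card * Fintype.card G := by
      rw [mul_sum]
      have : ∑ a ∈ A, (5 * (((univ : Finset (Module.Dual (ZMod 5) G)).erase 0).filter
          (fun f => f a = 0)).card + 5) = ∑ a ∈ A, Fintype.card G := sum_congr rfl hR
      rw [sum_add_distrib, sum_const, sum_const, smul_eq_mul, smul_eq_mul] at this
      rw [← this]; ring
    rw [hdc] at hsum1
    generalize (∑ a ∈ A, (((univ : Finset (Module.Dual (ZMod 5) G)).erase 0).filter
          (fun f => f a = 0)).card) = s at hsum1 hsum2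
    -- now arithmetic: 25 s ≤ (N - 1) N, 5 s + 5 a = a N, 5 ∣ N, N ≥ 125
    obtain ⟨r', hr'⟩ : ∃ r', r = r' + 1 := ⟨r - 1, by omega⟩
    have hN5 : Fintype.card G = 5 * 5 ^ r' := by rw [hr, hr', pow_succ]; ring
    have hfin : 5 * A.card < Fintype.card G + 5 := by
      by_contra hge
      push Not at hge
      obtain ⟨N, hN⟩ : ∃ N, Fintype.card G = N + 5 := ⟨Fintype.card G - 5, by omega⟩
      rw [hN] at hsum1 hsum2 hge h125
      have e1 : N + 5 - 1 = N + 4 := by omega
      rw [e1] at hsum1
      -- 5 s = a N
      have e2 : 5 * s = A.card * N := by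
        have : A.card * (N + 5) = A.card * N + 5 * A.card := by ring
        omega
      have e3 : 5 * (A.card * N) ≤ (N + 4) * (N + 5) := by rw [← e2]; linarith
      have e4 : (N + 10) * N ≤ 5 * A.card * N := Nat.mul_le_mul_right N (by omega)
      nlinarith
    omega

end

end Pool.Agent.Helper23
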