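import Pool.Agent.Helper23.Fiber

/-!
# A quotient with a dense fibre, from Fourier analysis
-/

open Finset
open scoped Pointwise ComplexConjugate

namespace Pool.Agent.Helper23

section
set_option linter.unusedSectionVars false
open Classical
variable {G : Type*} [AddCommGroup G] [Fintype G]

/-- The character sum over `X`. -/
noncomputable def hat (X : Finset G) (ψ : AddChar G ℂ) : ℂ := ∑ x ∈ X, ψ x

lemma sum_psi (a : G) : ∑ ψ : AddChar G ℂ, ψ a = if a = 0 then (Fintype.card G : ℂ) else 0 := by
  exact AddChar.sum_apply_eq_ite a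

lemma hat_mul_conj (X : Finset G) (ψ : AddChar G ℂ) :
    hat X ψ * conj (hat X ψ) = ∑ a ∈ X, ∑ b ∈ X, ψ (a - b) := by
  unfold hat
  rw [map_sum, sum_mul_sum]
  apply sum_congr rfl
  intro a _
  apply sum_congr rfl
  intro b _
  rw [sub_eq_add_neg, AddChar.map_add_eq_mul, AddChar.map_neg_eq_conj]

lemma parseval (X : Finset G) :
    ∑ ψ : AddChar G ℂ, hat X ψ * conj (hat X ψ) = (Fintype.card G : ℂ) * X.card := by
  simp_rw [hat_mul_conj]
  rw [sum_comm]
  have : ∀ a ∈ X, ∑ ψ : AddChar G ℂ, ∑ b ∈ X, ψ (a - b) = (Fintype.card G : ℂ) := by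
    intro a ha
    rw [sum_comm]
    have h1 : ∀ b ∈ X, ∑ ψ : AddChar G ℂ, ψ (a - b) = if a = b then (Fintype.card G : ℂ) else 0 := by
      intro b _
      rw [sum_psi]
      simp only [sub_eq_zero]
    rw [sum_congr rfl h1, sum_ite_eq, if_pos ha]
  rw [sum_congr rfl this, sum_const, nsmul_eq_mul, mul_comm]

lemma triple {A : Finset G} (hA : SumFree02 A) :
    ∑ ψ : AddChar G ℂ, (hat A ψ * conj (hat A ψ)) * hat (symm A) ψ = 0 := by
  have h1 : ∀ ψ : AddChar G ℂ, (hat A ψ * conj (hat A ψ)) * hat (symm A) ψ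
      = ∑ a ∈ A, ∑ b ∈ A, ∑ s ∈ symm A, ψ (a - b + s) := by
    intro ψ
    rw [hat_mul_conj, sum_mul]
    apply sum_congr rfl
    intro a _
    rw [sum_mul]
    apply sum_congr rfl
    intro b _
    unfold hat
    rw [mul_sum]
    apply sum_congr rfl
    intro s _
    rw [AddChar.map_add_eq_mul]
  simp_rw [h1]
  rw [sum_comm]
  apply sum_eq_zero
  intro a ha
  rw [sum_comm]
  apply sum_eq_zero
  intro b hb
  rw [sum_comm]
  apply sum_eq_zero
  intro s hs
  rw [sum_psi, if_neg]
  intro h0
  have : a - b = -s := eq_neg_of_add_eq_zero_left h0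
  exact hA.sub_not_mem ha hb (by rw [this]; exact neg_mem_symm hs)

lemma exists_char {A : Finset G} (hA : SumFree02 A) (hne : A.Nonempty) :
    ∃ ψ : AddChar G ℂ, ψ ≠ 0 ∧
      (hat (symm A) ψ).re * ((Fintype.card G : ℝ) - A.card) + 2 * (A.card : ℝ) ^ 2 ≤ 0 := by
  set n : ℝ := (Fintype.card G : ℝ) with hn
  set a : ℝ := (A.card : ℝ) with ha
  have ha0 : 0 < a := by rw [ha]; exact_mod_cast card_pos.mpr hne
  have han : a < n := by
    rw [ha, hn]
    have : A.card < Fintype.card G := by
      rw [← Finset.card_univ]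
      apply card_lt_card
      rw [ssubset_univ_iff]
      intro h
      exact hA.1 (h ▸ mem_univ _)
    exact_mod_cast this
  set P : AddChar G ℂ → ℝ := fun ψ => Complex.normSq (hat A ψ) with hP
  set R : AddChar G ℂ → ℝ := fun ψ => (hat (symm A) ψ).re with hR
  have hPc : ∀ ψ, hat A ψ * conj (hat A ψ) = (P ψ : ℂ) := fun ψ => Complex.mul_conj _
  have e1 : ∑ ψ : AddChar G ℂ, P ψ = n * a := by
    have h := parseval A
    simp_rw [hPc] at h
    have h' : ((∑ ψ : AddChar G ℂ, P ψ : ℝ) : ℂ) = ((n * a : ℝ) : ℂ) := by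
      rw [Complex.ofReal_sum, h, hn, ha]
      push_cast
      rfl
    exact_mod_cast h'
  have e2 : ∑ ψ : AddChar G ℂ, P ψ * R ψ = 0 := by
    have h := triple hA
    simp_rw [hPc] at h
    have h' := congrArg Complex.re h
    rw [Complex.re_sum] at h'
    simp only [Complex.re_ofReal_mul, Complex.zero_re] at h'
    exact h'
  have hz1 : P 0 = a ^ 2 := by
    simp only [hP, hat, AddChar.zero_apply, sum_const, nsmul_eq_mul, mul_one]
    rw [Complex.normSq_natCast, ha]; ring
  have hz2 : R 0 = 2 * a := by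
    simp only [hR, hat, AddChar.zero_apply, sum_const, nsmul_eq_mul, mul_one]
    rw [Complex.natCast_re, card_symm hA.anti, ha]
    push_cast; ring
  by_contra hcon
  push Not at hcon
  have hP0 : ∀ ψ, 0 ≤ P ψ := fun ψ => Complex.normSq_nonneg _
  have e3 : ∑ ψ : AddChar G ℂ, P ψ * (R ψ * (n - a) + 2 * a ^ 2) = 2 * n * a ^ 3 := by
    have : ∀ ψ ∈ (univ : Finset (AddChar G ℂ)), P ψ * (R ψ * (n - a) + 2 * a ^ 2)
        = (n - a) * (P ψ * R ψ) + 2 * a ^ 2 * P ψ := fun ψ _ => by ring
    rw [sum_congr rfl this, sum_add_distrib, ← mul_sum, ← mul_sum, e1, e2]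
    ring
  rw [← add_sum_erase _ _ (mem_univ (0 : AddChar G ℂ)), hz1, hz2] at e3
  have e4 : ∑ ψ ∈ (univ : Finset (AddChar G ℂ)).erase 0, P ψ * (R ψ * (n - a) + 2 * a ^ 2) = 0 := by
    have : a ^ 2 * (2 * a * (n - a) + 2 * a ^ 2) = 2 * n * a ^ 3 := by ring
    linarith
  have e5 : ∀ ψ ∈ (univ : Finset (AddChar G ℂ)).erase 0, P ψ * (R ψ * (n - a) + 2 * a ^ 2) = 0 := by
    rw [sum_eq_zero_iff_of_nonneg] at e4
    · exact e4
    · intro ψ hψ
      rw [mem_erase] at hψ
      exact mul_nonneg (hP0 ψ) (hcon ψ hψ.1).le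
  have e6 : ∑ ψ ∈ (univ : Finset (AddChar G ℂ)).erase 0, P ψ = 0 := by
    apply sum_eq_zero
    intro ψ hψ
    have h1 := e5 ψ hψ
    rw [mem_erase] at hψ
    have h2 := hcon ψ hψ.1
    rcases mul_eq_zero.mp h1 with h | h
    · exact h
    · exact absurd h h2.ne'
  rw [← add_sum_erase _ _ (mem_univ (0 : AddChar G ℂ)), hz1, e6, add_zero] at e1
  nlinarith

theorem exists_dir {A : Finset G} (hA : SumFree02 A) (hne : A.Nonempty) :
    ∃ H : AddSubgroup G, Nat.card (G ⧸ H) ≤ AddMonoid.exponent G ∧
      ∃ d : G ⧸ H, (∀ d', fib (QuotientAddGroup.mk' H) (symm A) d'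
        ≤ fib (QuotientAddGroup.mk' H) (symm A) d) ∧
      2 * A.card * Nat.card H + fib (QuotientAddGroup.mk' H) (symm A) d * A.card
        ≤ fib (QuotientAddGroup.mk' H) (symm A) d * Fintype.card G := by
  obtain ⟨ψ, hψ0, hψ⟩ := exists_char hA hne
  -- the kernel
  let H : AddSubgroup G :=
    { carrier := {x | ψ x = 1}
      zero_mem' := AddChar.map_zero_eq_one ψ
      add_mem' := by
        intro x y hx hy
        have hx' : ψ x = 1 := hx
        have hy' : ψ y = 1 := hy
        show ψ (x + y) = 1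
        rw [AddChar.map_add_eq_mul, hx', hy', one_mul]
      neg_mem' := by
        intro x hx
        have hx' : ψ x = 1 := hx
        show ψ (-x) = 1
        rw [AddChar.map_neg_eq_inv, hx', inv_one] }
  have hH : ∀ x, x ∈ H ↔ ψ x = 1 := fun x => Iff.rfl
  set π := QuotientAddGroup.mk' H with hπ
  have hπs : Function.Surjective π := QuotientAddGroup.mk'_surjective H
  have hπk : π.ker = H := QuotientAddGroup.ker_mk' H
  have hsame : ∀ x y, π x = π y → ψ x = ψ y := by
    intro x y h
    have h1 : x - y ∈ H := by rw [← hπk, AddMonoidHom.mem_ker, map_sub, h, sub_self]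
    rw [hH, sub_eq_add_neg, AddChar.map_add_eq_mul, AddChar.map_neg_eq_inv] at h1
    have h2 : ψ y ≠ 0 := by
      intro h0
      have := AddChar.norm_apply ψ y
      rw [h0, norm_zero] at this
      exact zero_ne_one this
    field_simp at h1
    exact h1
  have hsame' : ∀ x y, ψ x = ψ y → π x = π y := by
    intro x y h
    have h2 : ψ y ≠ 0 := by
      intro h0
      have := AddChar.norm_apply ψ y
      rw [h0, norm_zero] at this
      exact zero_ne_one this
    have h1 : x - y ∈ H := by
      rw [hH, sub_eq_add_neg, AddChar.map_add_eq_mul, AddChar.map_neg_eq_inv, h, mul_inv_cancel₀ h2]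
    rw [← sub_eq_zero, ← map_sub, ← AddMonoidHom.mem_ker, hπk]
    exact h1
  refine ⟨H, ?_, ?_⟩
  · -- the quotient has at most `exponent` elements
    set κ := AddMonoid.exponent G with hκ
    have hκ0 : 0 < κ := Nat.pos_of_ne_zero AddMonoid.exponent_ne_zero_of_finite
    set g : G ⧸ H → ℂ := fun q => ψ (Function.surjInv hπs q) with hg
    have hginj : Function.Injective g := by
      intro p q hpq
      have := hsame' _ _ hpq
      rwa [Function.surjInv_eq hπs, Function.surjInv_eq hπs] at this
    have hmem : ∀ q, g q ∈ (Polynomial.nthRoots κ (1 : ℂ)).toFinset := by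
      intro q
      rw [Multiset.mem_toFinset, Polynomial.mem_nthRoots hκ0]
      simp only [hg]
      rw [← AddChar.map_nsmul_eq_pow, AddMonoid.exponent_nsmul_eq_zero, AddChar.map_zero_eq_one]
    rw [Nat.card_eq_fintype_card, ← Finset.card_univ]
    calc (univ : Finset (G ⧸ H)).card ≤ (Polynomial.nthRoots κ (1 : ℂ)).toFinset.card :=
          card_le_card_of_injOn g (fun q _ => hmem q) (fun p _ q _ h => hginj h)
      _ ≤ Multiset.card (Polynomial.nthRoots κ (1 : ℂ)) := Multiset.toFinset_card_le _
      _ ≤ κ := Polynomial.card_nthRoots κ 1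
  · obtain ⟨d, hd⟩ := Finite.exists_max (fun d => fib π (symm A) d)
    refine ⟨d, hd, ?_⟩
    set C := fib π (symm A) d with hC
    set T := Nat.card H with hT
    -- `∑_x c(x) Re ψ x = T * R`
    have f1 : ∑ x : G, (fib π (symm A) (π x) : ℝ) * (ψ x).re = T * (hat (symm A) ψ).re := by
      have h1 : ∀ x ∈ (univ : Finset G), (fib π (symm A) (π x) : ℝ) * (ψ x).re
          = ∑ s ∈ symm A, if π s = π x then (ψ s).re else 0 := by
        intro x _
        unfold fib
        rw [card_filter, Nat.cast_sum, sum_mul]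
        apply sum_congr rfl
        intro s _
        split_ifs with h
        · rw [Nat.cast_one, one_mul, hsame _ _ h]
        · rw [Nat.cast_zero, zero_mul]
      rw [sum_congr rfl h1, sum_comm]
      unfold hat
      rw [Complex.re_sum, mul_sum]
      apply sum_congr rfl
      intro s _
      rw [← sum_filter, sum_const, nsmul_eq_mul]
      congr 2
      have h2 := card_fib π hπs (π s)
      rw [hπk] at h2
      rw [hT, ← h2]
      congr 1
      ext x
      simp only [mem_filter, mem_univ, true_and]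
      exact eq_comm
    have f2 : ∑ x : G, (fib π (symm A) (π x) : ℝ) = T * (2 * A.card) := by
      have h1 : ∀ x ∈ (univ : Finset G), (fib π (symm A) (π x) : ℝ)
          = ∑ s ∈ symm A, if π s = π x then (1 : ℝ) else 0 := by
        intro x _
        unfold fib
        rw [card_filter, Nat.cast_sum]
        apply sum_congr rfl
        intro s _
        split_ifs with h
        · rw [Nat.cast_one]
        · rw [Nat.cast_zero]
      rw [sum_congr rfl h1, sum_comm]
      have h2 : ∀ s ∈ symm A, ∑ x : G, (if π s = π x then (1 : ℝ) else 0) = T := by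
        intro s _
        rw [← sum_filter, sum_const, nsmul_eq_mul, mul_one]
        have h2 := card_fib π hπs (π s)
        rw [hπk] at h2
        rw [hT, ← h2]
        congr 2
        ext x
        simp only [mem_filter, mem_univ, true_and]
        exact eq_comm
      rw [sum_congr rfl h2, sum_const, nsmul_eq_mul, card_symm hA.anti]
      push_cast; ring
    have f3 : ∑ x : G, (ψ x).re = 0 := by
      have h1 := AddChar.sum_eq_zero_iff_ne_zero.mpr hψ0
      have h2 := congrArg Complex.re h1
      rw [Complex.re_sum, Complex.zero_re] at h2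
      exact h2
    have f4 : ∑ x : G, ((C : ℝ) - fib π (symm A) (π x)) * (ψ x).re
        ≤ ∑ x : G, ((C : ℝ) - fib π (symm A) (π x)) := by
      apply sum_le_sum
      intro x _
      have h1 : (ψ x).re ≤ 1 := by
        have := Complex.re_le_norm (ψ x)
        rwa [AddChar.norm_apply] at this
      have h2 : (0 : ℝ) ≤ (C : ℝ) - fib π (symm A) (π x) := by
        have : fib π (symm A) (π x) ≤ C := hd _
        have : (fib π (symm A) (π x) : ℝ) ≤ C := by exact_mod_cast this
        linarith
      nlinarith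
    have f5 : ∑ x : G, ((C : ℝ) - fib π (symm A) (π x)) * (ψ x).re
        = - (T * (hat (symm A) ψ).re) := by
      simp_rw [sub_mul]
      rw [sum_sub_distrib, ← mul_sum, f3, f1]; ring
    have f6 : ∑ x : G, ((C : ℝ) - fib π (symm A) (π x)) = Fintype.card G * C - T * (2 * A.card) := by
      rw [sum_sub_distrib, sum_const, nsmul_eq_mul, f2, Finset.card_univ]
    rw [f5, f6] at f4
    set n : ℝ := (Fintype.card G : ℝ) with hn
    set a : ℝ := (A.card : ℝ) with ha
    have ha0 : 0 < a := by rw [ha]; exact_mod_cast card_pos.mpr hne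
    have han : a < n := by
      rw [ha, hn]
      have : A.card < Fintype.card G := by
        rw [← Finset.card_univ]
        apply card_lt_card
        rw [ssubset_univ_iff]
        intro h
        exact hA.1 (h ▸ mem_univ _)
      exact_mod_cast this
    have hn0 : 0 < n := ha0.trans han
    have hT0 : (0 : ℝ) ≤ T := Nat.cast_nonneg _
    -- 2 T a n ≤ n C (n - a)
    have g1 : (T : ℝ) * (2 * a ^ 2) ≤ (n * C - T * (2 * a)) * (n - a) := by
      have h1 : (T : ℝ) * (2 * a ^ 2) ≤ - (T * (hat (symm A) ψ).re) * (n - a) := by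
        nlinarith
      have h2 : - (T * (hat (symm A) ψ).re) * (n - a) ≤ (n * C - T * (2 * a)) * (n - a) :=
        mul_le_mul_of_nonneg_right f4 (by linarith)
      linarith
    have g2 : n * (2 * a * T) ≤ n * (C * (n - a)) := by nlinarith
    have g3 : 2 * a * T ≤ C * (n - a) := le_of_mul_le_mul_left g2 hn0
    have g4 : 2 * a * T + C * a ≤ C * n := by linarith
    rw [ha, hn] at g4
    exact_mod_cast g4

end

end Pool.Agent.Helper23
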