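import Pool.Agent.Helper23.MuDefs

/-!
# Kneser's addition theorem for finite abelian groups
-/

open Finset
open scoped Pointwise

namespace Pool.Agent.Helper23

variable {G : Type*} [AddCommGroup G]

/-- `C` is a union of cosets of `H`. -/
def Per (H : AddSubgroup G) (C : Finset G) : Prop := ∀ c ∈ C, ∀ h ∈ H, c + h ∈ C

/-- `C` has a period `H` with `N ≤ |C| + |H|`. -/
def Good (N : ℕ) (C : Finset G) : Prop :=
  ∃ H : AddSubgroup G, Per H C ∧ N ≤ C.card + Nat.card H

section
set_option linter.unusedSectionVars false
variable [Fintype G]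
open Classical

lemma card_filter_mem (H : AddSubgroup G) :
    ((univ : Finset G).filter (fun g => g ∈ H)).card = Nat.card H := by
  rw [Nat.card_eq_fintype_card, Fintype.card_subtype]

lemma prod_count {H1 H2 : AddSubgroup G} (x : G) (U V W : Finset G)
    (hU : ∀ u ∈ U, u ∈ H2) (hV : ∀ v ∈ V, v ∈ H1)
    (hmap : ∀ u ∈ U, ∀ v ∈ V, x + u + v ∈ W) :
    U.card * V.card ≤ Nat.card ↥(H1 ⊓ H2) * W.card := by
  rw [← card_product]
  apply card_le_mul_card_image_of_maps_to (f := fun p : G × G => x + p.1 + p.2)
  · intro p hp
    rw [mem_product] at hp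
    exact hmap _ hp.1 _ hp.2
  · intro a _
    rw [← card_filter_mem]
    by_cases hne : ((U ×ˢ V).filter (fun p : G × G => x + p.1 + p.2 = a)).Nonempty
    · obtain ⟨p0, hp0⟩ := hne
      rw [mem_filter, mem_product] at hp0
      apply card_le_card_of_injOn (fun p => p.1 - p0.1)
      · intro p hp
        rw [mem_coe, mem_filter, mem_product] at hp
        rw [mem_coe, mem_filter]
        refine ⟨mem_univ _, ?_⟩
        rw [AddSubgroup.mem_inf]
        refine ⟨?_, H2.sub_mem (hU _ hp.1.1) (hU _ hp0.1.1)⟩
        have : p.1 - p0.1 = p0.2 - p.2 := by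
          have e := hp.2.trans hp0.2.symm
          rw [sub_eq_sub_iff_add_eq_add]
          have e2 : x + (p.1 + p.2) = x + (p0.1 + p0.2) := by
            rw [← add_assoc, ← add_assoc]; exact e
          have e3 := add_left_cancel e2
          rw [e3, add_comm]
        simp only
        rw [this]
        exact H1.sub_mem (hV _ hp0.1.2) (hV _ hp.1.2)
      · intro p hp q hq hpq
        rw [mem_coe, mem_filter, mem_product] at hp hq
        have h1 : p.1 = q.1 := sub_left_injective hpq
        have e := hp.2.trans hq.2.symm
        rw [h1] at e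
        have h2 : p.2 = q.2 := add_left_cancel e
        exact Prod.ext h1 h2
    · rw [not_nonempty_iff_eq_empty] at hne
      rw [hne]; simp

lemma core {C1 C2 : Finset G} {H1 H2 : AddSubgroup G}
    (h1 : Per H1 C1) (h2 : Per H2 C2) (hne : ∃ x ∈ C2, x ∉ C1)
    (e1 : (C2 \ C1).card + Nat.card ↥(H1 ⊓ H2) < Nat.card H1)
    (e2 : (C1 \ C2).card + Nat.card ↥(H1 ⊓ H2) < Nat.card H2) :
    Nat.card H2 < Nat.card H1 := by
  obtain ⟨x, hx2, hx1⟩ := hne
  have neg1 : ∀ y, y ∉ C1 → ∀ h ∈ H1, y + h ∉ C1 := by
    intro y hy h hh hc
    apply hy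
    have := h1 _ hc (-h) (H1.neg_mem hh)
    simpa using this
  have neg2 : ∀ y, y ∉ C2 → ∀ h ∈ H2, y + h ∉ C2 := by
    intro y hy h hh hc
    apply hy
    have := h2 _ hc (-h) (H2.neg_mem hh)
    simpa using this
  set U := (univ : Finset G).filter (fun u => u ∈ H2 ∧ x + u ∉ C1) with hUdef
  set U' := (univ : Finset G).filter (fun u => u ∈ H2 ∧ x + u ∈ C1) with hU'def
  set V := (univ : Finset G).filter (fun v => v ∈ H1 ∧ x + v ∈ C2) with hVdef
  set V' := (univ : Finset G).filter (fun v => v ∈ H1 ∧ x + v ∉ C2) with hV'def
  set h := Nat.card ↥(H1 ⊓ H2) with hhdef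
  have hU : U.card + U'.card = Nat.card H2 := by
    rw [← card_filter_mem H2, ← card_union_of_disjoint]
    · congr 1
      ext u
      simp only [hUdef, hU'def, mem_union, mem_filter, mem_univ, true_and]
      tauto
    · rw [disjoint_left]
      intro u hu hu'
      simp only [hUdef, hU'def, mem_filter, mem_univ, true_and] at hu hu'
      exact hu.2 hu'.2
  have hV : V.card + V'.card = Nat.card H1 := by
    rw [← card_filter_mem H1, ← card_union_of_disjoint]
    · congr 1
      ext u
      simp only [hVdef, hV'def, mem_union, mem_filter, mem_univ, true_and]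
      tauto
    · rw [disjoint_left]
      intro u hu hu'
      simp only [hVdef, hV'def, mem_filter, mem_univ, true_and] at hu hu'
      exact hu'.2 hu.2
  have hUh : h ≤ U.card := by
    rw [hhdef, ← card_filter_mem]
    apply card_le_card
    intro u hu
    simp only [hUdef, mem_filter, mem_univ, true_and, AddSubgroup.mem_inf] at hu ⊢
    exact ⟨hu.2, neg1 x hx1 u hu.1⟩
  have hVh : h ≤ V.card := by
    rw [hhdef, ← card_filter_mem]
    apply card_le_card
    intro u hu
    simp only [hVdef, mem_filter, mem_univ, true_and, AddSubgroup.mem_inf] at hu ⊢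
    exact ⟨hu.1, h2 x hx2 u hu.2⟩
  have hU'h : U'.card = 0 ∨ h ≤ U'.card := by
    rcases U'.eq_empty_or_nonempty with he | ⟨u0, hu0⟩
    · left; rw [he]; rfl
    · right
      simp only [hU'def, mem_filter, mem_univ, true_and] at hu0
      rw [hhdef, ← card_filter_mem]
      apply card_le_card_of_injOn (fun k => u0 + k)
      · intro k hk
        simp only [hU'def, mem_coe, mem_filter, mem_univ, true_and, AddSubgroup.mem_inf] at hk ⊢
        refine ⟨H2.add_mem hu0.1 hk.2, ?_⟩
        rw [← add_assoc]
        exact h1 _ hu0.2 _ hk.1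
      · intro k _ k' _ hkk
        exact add_left_cancel hkk
  have hV'h : V'.card = 0 ∨ h ≤ V'.card := by
    rcases V'.eq_empty_or_nonempty with he | ⟨u0, hu0⟩
    · left; rw [he]; rfl
    · right
      simp only [hV'def, mem_filter, mem_univ, true_and] at hu0
      rw [hhdef, ← card_filter_mem]
      apply card_le_card_of_injOn (fun k => u0 + k)
      · intro k hk
        simp only [hV'def, mem_coe, mem_filter, mem_univ, true_and, AddSubgroup.mem_inf] at hk ⊢
        refine ⟨H1.add_mem hu0.1 hk.1, ?_⟩
        rw [← add_assoc]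
        exact neg2 _ hu0.2 _ hk.2
      · intro k _ k' _ hkk
        exact add_left_cancel hkk
  have hp1 : U.card * V.card ≤ h * (C2 \ C1).card := by
    apply prod_count x
    · intro u hu
      simp only [hUdef, mem_filter, mem_univ, true_and] at hu
      exact hu.1
    · intro u hu
      simp only [hVdef, mem_filter, mem_univ, true_and] at hu
      exact hu.1
    · intro u hu v hv
      simp only [hUdef, hVdef, mem_filter, mem_univ, true_and] at hu hv
      rw [mem_sdiff]
      constructor
      · rw [add_right_comm]
        exact h2 _ hv.2 _ hu.1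
      · exact neg1 _ hu.2 _ hv.1
  have hp2 : U'.card * V'.card ≤ h * (C1 \ C2).card := by
    apply prod_count x
    · intro u hu
      simp only [hU'def, mem_filter, mem_univ, true_and] at hu
      exact hu.1
    · intro u hu
      simp only [hV'def, mem_filter, mem_univ, true_and] at hu
      exact hu.1
    · intro u hu v hv
      simp only [hU'def, hV'def, mem_filter, mem_univ, true_and] at hu hv
      rw [mem_sdiff]
      constructor
      · exact h1 _ hu.2 _ hv.1
      · rw [add_right_comm]
        exact neg2 _ hv.2 _ hu.1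
  have hh0 : 0 < h := Nat.card_pos
  generalize Nat.card H1 = p at *
  generalize Nat.card H2 = q at *
  generalize (C2 \ C1).card = c at *
  generalize (C1 \ C2).card = d at *
  generalize U.card = a at *
  generalize U'.card = a' at *
  generalize V.card = b at *
  generalize V'.card = b' at *
  -- a b ≤ h c, c + h < p = b + b', a' b' ≤ h d, d + h < q = a + a'
  subst hU hV
  rcases hV'h with hb' | hb'
  · subst hb'
    exfalso
    nlinarith
  · rcases hU'h with ha' | ha'
    · subst ha'
      nlinarith
    · exfalso
      have k1 : a < b' := by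
        by_contra hcon
        push Not at hcon
        nlinarith
      have k2 : b' < a := by
        by_contra hcon
        push Not at hcon
        nlinarith
      omega

lemma good_union {N : ℕ} {C1 C2 : Finset G} (g1 : Good N C1) (g2 : Good N C2) :
    Good N (C1 ∪ C2) := by
  obtain ⟨H1, h1, n1⟩ := g1
  obtain ⟨H2, h2, n2⟩ := g2
  by_cases s1 : C2 ⊆ C1
  · rw [union_eq_left.mpr s1]; exact ⟨H1, h1, n1⟩
  by_cases s2 : C1 ⊆ C2
  · rw [union_eq_right.mpr s2]; exact ⟨H2, h2, n2⟩
  by_contra hcon
  have hper : Per (H1 ⊓ H2) (C1 ∪ C2) := by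
    intro c hc h hh
    rw [mem_union] at hc ⊢
    rcases hc with hc | hc
    · left; exact h1 c hc h hh.1
    · right; exact h2 c hc h hh.2
  have hlt : (C1 ∪ C2).card + Nat.card ↥(H1 ⊓ H2) < N := by
    by_contra hge
    push Not at hge
    exact hcon ⟨H1 ⊓ H2, hper, hge⟩
  have c1 : (C1 ∪ C2).card = C1.card + (C2 \ C1).card := by
    rw [← union_sdiff_self_eq_union, card_union_of_disjoint disjoint_sdiff]
  have c2 : (C1 ∪ C2).card = C2.card + (C1 \ C2).card := by
    rw [union_comm, ← union_sdiff_self_eq_union, card_union_of_disjoint disjoint_sdiff]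
  have e1 : (C2 \ C1).card + Nat.card ↥(H1 ⊓ H2) < Nat.card H1 := by omega
  have e2 : (C1 \ C2).card + Nat.card ↥(H1 ⊓ H2) < Nat.card H2 := by omega
  have x1 : ∃ x ∈ C2, x ∉ C1 := by
    rw [not_subset] at s1; exact s1
  have x2 : ∃ x ∈ C1, x ∉ C2 := by
    rw [not_subset] at s2; exact s2
  have l1 := core h1 h2 x1 e1 e2
  have l2 := core h2 h1 x2 (by rw [inf_comm]; exact e2) (by rw [inf_comm]; exact e1)
  omega

lemma dyson (n : ℕ) : ∀ (A B : Finset G), B.card = n → (0 : G) ∈ A → (0 : G) ∈ B →
    ∃ C : Finset G, C ⊆ A + B ∧ (0 : G) ∈ C ∧ Good (A.card + B.card) C := by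
  induction n using Nat.strong_induction_on with
  | _ n ih =>
    intro A B hn hA hB
    by_cases hall : ∀ e ∈ A, ∀ b ∈ B, e + b ∈ A
    · -- A + B = A
      refine ⟨A, ?_, hA, AddSubgroup.closure (B : Set G), ?_, ?_⟩
      · intro a ha
        rw [mem_add]
        exact ⟨a, ha, 0, hB, add_zero a⟩
      · -- periodicity
        have key : ∀ b ∈ B, ∀ a ∈ A, a - b ∈ A := by
          intro b hb a ha
          have hinj : Set.InjOn (fun a => a + b) (A : Set G) := by
            intro x _ y _ hxy
            exact add_right_cancel hxy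
          have hmaps : ∀ x ∈ A, (fun a => a + b) x ∈ A := fun x hx => hall x hx b hb
          have hsurj := surj_on_of_inj_on_of_card_le (s := A) (t := A) (fun a _ => a + b)
            (fun a ha => hall a ha b hb) (fun x y _ _ hxy => add_right_cancel hxy) le_rfl a ha
          obtain ⟨a', ha', hEq⟩ := hsurj
          have : a - b = a' := by rw [hEq]; simp
          rw [this]; exact ha'
        intro c hc h hh
        revert c
        refine AddSubgroup.closure_induction (p := fun h _ => ∀ c ∈ A, c + h ∈ A) ?_ ?_ ?_ ?_ hh
        · intro x hx c hc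
          exact hall c hc x hx
        · intro c hc; simpa using hc
        · intro x y _ _ hx hy c hc
          rw [← add_assoc]
          exact hy _ (hx _ hc)
        · intro x _ hx c hc
          -- c - x ∈ A from surjectivity
          have hsurj := surj_on_of_inj_on_of_card_le (s := A) (t := A) (fun a _ => a + x)
            (fun a ha => hx a ha) (fun y z _ _ hyz => add_right_cancel hyz) le_rfl c hc
          obtain ⟨a', ha', hEq⟩ := hsurj
          have : c + -x = a' := by rw [hEq]; simp
          rw [this]; exact ha'
      · -- |A| + |B| ≤ |A| + |H|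
        apply Nat.add_le_add_left
        rw [← card_filter_mem]
        apply card_le_card
        intro b hb
        rw [mem_filter]
        exact ⟨mem_univ _, AddSubgroup.subset_closure hb⟩
    · push Not at hall
      obtain ⟨e, he, b0, hb0, hnot⟩ := hall
      set B1 := B.image (fun b => e + b) with hB1
      set A' := A ∪ B1 with hA'
      set B' := B.filter (fun b => e + b ∈ A) with hB'
      have hB1card : B1.card = B.card := by
        rw [hB1]
        apply card_image_of_injective
        intro x y hxy
        exact add_left_cancel hxy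
      have hinter : (A ∩ B1).card = B'.card := by
        have : A ∩ B1 = B'.image (fun b => e + b) := by
          ext z
          simp only [hB1, hB', mem_inter, mem_image, mem_filter]
          constructor
          · rintro ⟨hz, b, hb, rfl⟩
            exact ⟨b, ⟨hb, hz⟩, rfl⟩
          · rintro ⟨b, ⟨hb, hz⟩, rfl⟩
            exact ⟨hz, b, hb, rfl⟩
        rw [this]
        apply card_image_of_injective
        intro x y hxy
        exact add_left_cancel hxy
      have hcard : A'.card + B'.card = A.card + B.card := by
        rw [hA', ← hinter, card_union_add_card_inter, hB1card]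
      have hlt : B'.card < n := by
        rw [← hn]
        apply card_lt_card
        rw [ssubset_iff_of_subset (filter_subset _ _)]
        refine ⟨b0, hb0, ?_⟩
        rw [mem_filter]
        intro h
        exact hnot h.2
      have h0A' : (0 : G) ∈ A' := mem_union_left _ hA
      have h0B' : (0 : G) ∈ B' := by
        rw [hB', mem_filter]
        refine ⟨hB, ?_⟩
        simpa using he
      obtain ⟨C, hC, h0C, hgood⟩ := ih _ hlt A' B' rfl h0A' h0B'
      refine ⟨C, ?_, h0C, ?_⟩
      · refine hC.trans ?_
        intro z hz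
        rw [mem_add] at hz
        obtain ⟨a, ha, b, hb, rfl⟩ := hz
        rw [hB', mem_filter] at hb
        rw [hA', mem_union] at ha
        rcases ha with ha | ha
        · exact add_mem_add ha hb.1
        · rw [hB1, mem_image] at ha
          obtain ⟨b1, hb1, rfl⟩ := ha
          have : e + b1 + b = (e + b) + b1 := by rw [add_right_comm]
          rw [this]
          exact add_mem_add hb.2 hb1
      · rw [← hcard]; exact hgood

/-- Weak Kneser theorem. -/
theorem kneser_weak (A B : Finset G) (hA : A.Nonempty) (hB : B.Nonempty) :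
    Good (A.card + B.card) (A + B) := by
  have key : ∀ c ∈ A + B, ∃ C : Finset G, C ⊆ A + B ∧ c ∈ C ∧ Good (A.card + B.card) C := by
    intro c hc
    rw [mem_add] at hc
    obtain ⟨a, ha, b, hb, rfl⟩ := hc
    set A1 := A.image (fun x => x - a) with hA1
    set B1 := B.image (fun x => x - b) with hB1
    have cA : A1.card = A.card := card_image_of_injective _ (sub_left_injective)
    have cB : B1.card = B.card := card_image_of_injective _ (sub_left_injective)
    have z1 : (0 : G) ∈ A1 := by rw [hA1, mem_image]; exact ⟨a, ha, sub_self a⟩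
    have z2 : (0 : G) ∈ B1 := by rw [hB1, mem_image]; exact ⟨b, hb, sub_self b⟩
    obtain ⟨C, hC, h0, H, hper, hN⟩ := dyson B1.card A1 B1 rfl z1 z2
    refine ⟨C.image (fun x => x + (a + b)), ?_, ?_, H, ?_, ?_⟩
    · intro z hz
      rw [mem_image] at hz
      obtain ⟨x, hx, rfl⟩ := hz
      have hx' := hC hx
      rw [mem_add] at hx'
      obtain ⟨y1, hy1, y2, hy2, rfl⟩ := hx'
      rw [hA1, mem_image] at hy1
      rw [hB1, mem_image] at hy2
      obtain ⟨a', ha', rfl⟩ := hy1
      obtain ⟨b', hb', rfl⟩ := hy2
      have : a' - a + (b' - b) + (a + b) = a' + b' := by abel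
      rw [this]
      exact add_mem_add ha' hb'
    · rw [mem_image]
      exact ⟨0, h0, zero_add _⟩
    · intro c hc h hh
      rw [mem_image] at hc ⊢
      obtain ⟨x, hx, rfl⟩ := hc
      exact ⟨x + h, hper x hx h hh, by abel⟩
    · rw [card_image_of_injective _ (add_left_injective _), ← cA, ← cB]
      exact hN
  choose! f hf1 hf2 hf3 using key
  have hne : (A + B).Nonempty := hA.add hB
  have hun : (A + B).biUnion f = A + B := by
    apply Subset.antisymm
    · intro z hz
      rw [mem_biUnion] at hz
      obtain ⟨c, hc, hz⟩ := hz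
      exact hf1 c hc hz
    · intro z hz
      rw [mem_biUnion]
      exact ⟨z, hz, hf2 z hz⟩
  have hall : ∀ s : Finset G, s.Nonempty → s ⊆ A + B → Good (A.card + B.card) (s.biUnion f) := by
    intro s hs
    induction hs using Finset.Nonempty.cons_induction with
    | singleton a =>
      intro hsub
      rw [singleton_biUnion]
      exact hf3 a (hsub (mem_singleton_self a))
    | cons a s ha hs ih =>
      intro hsub
      rw [cons_eq_insert, biUnion_insert]
      apply good_union
      · exact hf3 a (hsub (mem_cons_self a s))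
      · exact ih (fun x hx => hsub (mem_cons.mpr (Or.inr hx)))
  rw [← hun]
  exact hall _ hne (Subset.refl _)

/-! ### Fibres of surjective homomorphisms -/

section fib
variable {Q : Type*} [AddCommGroup Q] [Fintype Q] [DecidableEq Q]

lemma card_fib (φ : G →+ Q) (hφ : Function.Surjective φ) (q : Q) :
    ((univ : Finset G).filter (fun g => φ g = q)).card = Nat.card φ.ker := by
  obtain ⟨g0, rfl⟩ := hφ q
  rw [← card_filter_mem]
  apply card_bij (fun g _ => g - g0)
  · intro g hg
    simp only [mem_filter, mem_univ, true_and] at hg ⊢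
    rw [AddMonoidHom.mem_ker, map_sub, hg, sub_self]
  · intro a _ b _ h
    exact sub_left_injective h
  · intro b hb
    simp only [mem_filter, mem_univ, true_and, AddMonoidHom.mem_ker] at hb
    refine ⟨b + g0, ?_, by simp⟩
    simp only [mem_filter, mem_univ, true_and]
    rw [map_add, hb, zero_add]

lemma card_pre (φ : G →+ Q) (hφ : Function.Surjective φ) (X : Finset Q) :
    ((univ : Finset G).filter (fun g => φ g ∈ X)).card = Nat.card φ.ker * X.card := by
  have : ((univ : Finset G).filter (fun g => φ g ∈ X)).card
      = ∑ q ∈ X, (((univ : Finset G).filter (fun g => φ g ∈ X)).filter (fun g => φ g = q)).card := by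
    apply card_eq_sum_card_fiberwise
    intro g hg
    simp only [mem_coe, mem_filter, mem_univ, true_and] at hg
    exact hg
  rw [this]
  have : ∀ q ∈ X, (((univ : Finset G).filter (fun g => φ g ∈ X)).filter (fun g => φ g = q)).card
      = Nat.card φ.ker := by
    intro q hq
    rw [← card_fib φ hφ q]
    congr 1
    ext g
    simp only [mem_filter, mem_univ, true_and]
    constructor
    · exact fun h => h.2
    · intro h; exact ⟨by rw [h]; exact hq, h⟩
  rw [sum_congr rfl this, sum_const, smul_eq_mul, mul_comm]

lemma card_dom (φ : G →+ Q) (hφ : Function.Surjective φ) :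
    Fintype.card G = Nat.card φ.ker * Fintype.card Q := by
  have := card_pre φ hφ (univ : Finset Q)
  rw [← Finset.card_univ, ← Finset.card_univ, ← this]
  congr 1
  ext g
  simp

lemma card_le_image (φ : G →+ Q) (hφ : Function.Surjective φ) (A : Finset G) :
    A.card ≤ Nat.card φ.ker * (A.image φ).card := by
  rw [← card_pre φ hφ]
  apply card_le_card
  intro a ha
  simp only [mem_filter, mem_univ, true_and]
  exact mem_image_of_mem φ ha

end fib

/-- Kneser's theorem, quotient form: `A + B` is a union of cosets of `H`, and in `G ⧸ H` one has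
`|A| + |B| ≤ |A + B| + 1`. -/
theorem kneser (A B : Finset G) (hA : A.Nonempty) (hB : B.Nonempty) :
    ∃ H : AddSubgroup G, Per H (A + B) ∧
      (A.image (QuotientAddGroup.mk' H)).card + (B.image (QuotientAddGroup.mk' H)).card
        ≤ ((A + B).image (QuotientAddGroup.mk' H)).card + 1 := by
  have hne : ({H : AddSubgroup G | Per H (A + B)} : Set (AddSubgroup G)).Nonempty := by
    refine ⟨⊥, ?_⟩
    intro c hc h hh
    rw [AddSubgroup.mem_bot] at hh
    rw [hh, add_zero]; exact hc
  obtain ⟨H, hH, hmax⟩ := Set.exists_max_image {H : AddSubgroup G | Per H (A + B)}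
    (fun H => Nat.card H) (Set.toFinite _) hne
  refine ⟨H, hH, ?_⟩
  set π := QuotientAddGroup.mk' H with hπ
  have hsurj : Function.Surjective π := QuotientAddGroup.mk'_surjective H
  have hker : π.ker = H := QuotientAddGroup.ker_mk' H
  have hk : Nat.card π.ker = Nat.card H := by rw [hker]
  set A' := (univ : Finset G).filter (fun g => π g ∈ A.image π) with hA'
  set B' := (univ : Finset G).filter (fun g => π g ∈ B.image π) with hB'
  have cA : A'.card = Nat.card H * (A.image π).card := by
    rw [← hk]; exact card_pre π hsurj (A.image π)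
  have cB : B'.card = Nat.card H * (B.image π).card := by
    rw [← hk]; exact card_pre π hsurj (B.image π)
  have hsub : ∀ g a : G, π g = π a → g - a ∈ H := by
    intro g a h
    rw [← hker, AddMonoidHom.mem_ker, map_sub, h, sub_self]
  have hAA : A ⊆ A' := by
    intro a ha
    simp only [hA', mem_filter, mem_univ, true_and]
    exact mem_image_of_mem π ha
  have hBB : B ⊆ B' := by
    intro a ha
    simp only [hB', mem_filter, mem_univ, true_and]
    exact mem_image_of_mem π ha
  have hAB : A' + B' = A + B := by
    apply Subset.antisymm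
    · intro z hz
      rw [mem_add] at hz
      obtain ⟨a, ha, b, hb, rfl⟩ := hz
      simp only [hA', hB', mem_filter, mem_univ, true_and, mem_image] at ha hb
      obtain ⟨a', ha', haa⟩ := ha
      obtain ⟨b', hb', hbb⟩ := hb
      have h1 := hsub _ _ haa
      have h2 := hsub _ _ hbb
      have h3 : -((a' - a) + (b' - b)) ∈ H := H.neg_mem (H.add_mem h1 h2)
      have := hH (a' + b') (add_mem_add ha' hb') _ h3
      have e : a' + b' + -((a' - a) + (b' - b)) = a + b := by abel
      rw [e] at this
      exact this
    · exact add_subset_add hAA hBB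
  have hC : (A + B).card = Nat.card H * ((A + B).image π).card := by
    rw [← hk, ← card_pre π hsurj]
    congr 1
    ext z
    simp only [mem_filter, mem_univ, true_and, mem_image]
    constructor
    · intro hz; exact ⟨z, hz, rfl⟩
    · rintro ⟨c, hc, hcz⟩
      have h1 := hsub _ _ hcz
      have := hH c hc _ (H.neg_mem h1)
      have e : c + -(c - z) = z := by abel
      rw [e] at this; exact this
  obtain ⟨H', hper, hN⟩ := kneser_weak A' B' (hA.mono hAA) (hB.mono hBB)
  rw [hAB] at hper hN
  have hle : Nat.card H' ≤ Nat.card H := hmax H' hper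
  rw [cA, cB, hC] at hN
  have hpos : 0 < Nat.card H := Nat.card_pos
  have : Nat.card H * ((A.image π).card + (B.image π).card)
      ≤ Nat.card H * (((A + B).image π).card + 1) := by
    rw [mul_add, mul_add, mul_one]; omega
  exact Nat.le_of_mul_le_mul_left this hpos

/-- Kneser's theorem for a difference set avoiding `Z`. -/
theorem kneser_diff (A B Z : Finset G) (hA : A.Nonempty) (hB : B.Nonempty)
    (hZ : ∀ a ∈ A, ∀ b ∈ B, a - b ∉ Z) :
    ∃ H : AddSubgroup G,
      (∀ a ∈ A, ∀ b ∈ B, ∀ z ∈ Z, QuotientAddGroup.mk' H a - QuotientAddGroup.mk' H b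
        ≠ QuotientAddGroup.mk' H z) ∧
      (∀ a ∈ A, ∀ b ∈ B, ∀ h ∈ H, ∃ a' ∈ A, ∃ b' ∈ B, a' - b' = a - b + h) ∧
      (A.image (QuotientAddGroup.mk' H)).card + (B.image (QuotientAddGroup.mk' H)).card
        + (Z.image (QuotientAddGroup.mk' H)).card ≤ Nat.card (G ⧸ H) + 1 := by
  obtain ⟨H, hper, hcard⟩ := kneser A (B.image (fun b => -b)) hA (hB.image _)
  have hper' : ∀ a ∈ A, ∀ b ∈ B, ∀ h ∈ H, ∃ a' ∈ A, ∃ b' ∈ B, a' - b' = a - b + h := by
    intro a ha b hb h hh
    have := hper (a + -b) (add_mem_add ha (mem_image_of_mem _ hb)) h hh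
    rw [mem_add] at this
    obtain ⟨a', ha', b', hb', hE⟩ := this
    rw [mem_image] at hb'
    obtain ⟨b'', hb'', rfl⟩ := hb'
    exact ⟨a', ha', b'', hb'', by rw [sub_eq_add_neg, sub_eq_add_neg, hE]⟩
  have hdis : ∀ a ∈ A, ∀ b ∈ B, ∀ z ∈ Z, QuotientAddGroup.mk' H a - QuotientAddGroup.mk' H b
        ≠ QuotientAddGroup.mk' H z := by
    intro a ha b hb z hz hE
    have h1 : z - (a - b) ∈ H := by
      have hker : (QuotientAddGroup.mk' H).ker = H := QuotientAddGroup.ker_mk' H
      rw [← hker, AddMonoidHom.mem_ker, map_sub, map_sub, hE, sub_self]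
    obtain ⟨a', ha', b', hb', hE'⟩ := hper' a ha b hb _ h1
    apply hZ a' ha' b' hb'
    rw [hE']
    have : a - b + (z - (a - b)) = z := by abel
    rw [this]; exact hz
  refine ⟨H, hdis, hper', ?_⟩
  have hBi : ((B.image (fun b => -b)).image (QuotientAddGroup.mk' H)).card
      = (B.image (QuotientAddGroup.mk' H)).card := by
    have : (B.image (fun b => -b)).image (QuotientAddGroup.mk' H)
        = (B.image (QuotientAddGroup.mk' H)).image (fun b => -b) := by
      rw [image_image, image_image]
      apply image_congr
      intro b _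
      simp
    rw [this]
    exact card_image_of_injective _ neg_injective
  rw [hBi] at hcard
  have hd : Disjoint ((A + B.image (fun b => -b)).image (QuotientAddGroup.mk' H))
      (Z.image (QuotientAddGroup.mk' H)) := by
    rw [disjoint_left]
    intro x hx hx'
    rw [mem_image] at hx hx'
    obtain ⟨c, hc, rfl⟩ := hx
    obtain ⟨z, hz, hE⟩ := hx'
    rw [mem_add] at hc
    obtain ⟨a, ha, b', hb', rfl⟩ := hc
    rw [mem_image] at hb'
    obtain ⟨b, hb, rfl⟩ := hb'
    apply hdis a ha b hb z hz
    rw [hE, map_add, map_neg, sub_eq_add_neg]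
  have hle : ((A + B.image (fun b => -b)).image (QuotientAddGroup.mk' H)).card
      + (Z.image (QuotientAddGroup.mk' H)).card ≤ Nat.card (G ⧸ H) := by
    rw [← card_union_of_disjoint hd, Nat.card_eq_fintype_card, ← Finset.card_univ]
    exact card_le_card (subset_univ _)
  omega

end

end Pool.Agent.Helper23
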