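import Pool.Agent.Helper23.Cycle

/-!
# Five fibres, one of them empty
-/

open Finset
open scoped Pointwise

namespace Pool.Agent.Helper23

section

lemma five_core (T Lam b0 b1 b2 b3 b4 : ℕ) (hLam : 5 * Lam ≤ T)
    (W0 : 0 < b0 → 2 * b0 + b0 ≤ T) (W1 : 0 < b1 → 2 * b0 + b1 ≤ T) (W2 : 0 < b2 → 2 * b0 + b2 ≤ T)
    (W3 : 0 < b3 → 2 * b0 + b3 ≤ T) (W4 : 0 < b4 → 2 * b0 + b4 ≤ T)
    (W01 : 0 < b0 → 0 < b1 → b1 + b4 + b0 ≤ T ∧ b1 + b4 + b1 ≤ T)
    (W12 : 0 < b1 → 0 < b2 → b1 + b4 + b1 ≤ T ∧ b1 + b4 + b2 ≤ T)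
    (W23 : 0 < b2 → 0 < b3 → b1 + b4 + b2 ≤ T ∧ b1 + b4 + b3 ≤ T)
    (W34 : 0 < b3 → 0 < b4 → b1 + b4 + b3 ≤ T ∧ b1 + b4 + b4 ≤ T)
    (W40 : 0 < b4 → 0 < b0 → b1 + b4 + b4 ≤ T ∧ b1 + b4 + b0 ≤ T)
    (W02 : 0 < b0 → 0 < b2 → b2 + b3 + b0 ≤ T ∧ b2 + b3 + b2 ≤ T)
    (W13 : 0 < b1 → 0 < b3 → b2 + b3 + b1 ≤ T ∧ b2 + b3 + b3 ≤ T)
    (W24 : 0 < b2 → 0 < b4 → b2 + b3 + b2 ≤ T ∧ b2 + b3 + b4 ≤ T)
    (W30 : 0 < b3 → 0 < b0 → b2 + b3 + b3 ≤ T ∧ b2 + b3 + b0 ≤ T)
    (K0 : 0 < b0 → 2 * b0 + 2 * b0 ≤ T + Lam)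
    (K1 : 0 < b0 → 0 < b1 → 2 * b0 + 2 * b1 ≤ T + Lam)
    (K2 : 0 < b0 → 0 < b2 → 2 * b0 + 2 * b2 ≤ T + Lam)
    (K3 : 0 < b0 → 0 < b3 → 2 * b0 + 2 * b3 ≤ T + Lam)
    (K4 : 0 < b0 → 0 < b4 → 2 * b0 + 2 * b4 ≤ T + Lam)
    (K01 : 0 < b0 → 0 < b1 → 0 < b1 + b4 → b1 + b4 + b0 + b1 ≤ T + Lam)
    (K12 : 0 < b1 → 0 < b2 → 0 < b1 + b4 → b1 + b4 + b1 + b2 ≤ T + Lam)
    (K23 : 0 < b2 → 0 < b3 → 0 < b1 + b4 → b1 + b4 + b2 + b3 ≤ T + Lam)
    (K34 : 0 < b3 → 0 < b4 → 0 < b1 + b4 → b1 + b4 + b3 + b4 ≤ T + Lam)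
    (K40 : 0 < b4 → 0 < b0 → 0 < b1 + b4 → b1 + b4 + b4 + b0 ≤ T + Lam)
    (K02 : 0 < b0 → 0 < b2 → 0 < b2 + b3 → b2 + b3 + b0 + b2 ≤ T + Lam)
    (K13 : 0 < b1 → 0 < b3 → 0 < b2 + b3 → b2 + b3 + b1 + b3 ≤ T + Lam)
    (K24 : 0 < b2 → 0 < b4 → 0 < b2 + b3 → b2 + b3 + b2 + b4 ≤ T + Lam)
    (K30 : 0 < b3 → 0 < b0 → 0 < b2 + b3 → b2 + b3 + b3 + b0 ≤ T + Lam)
    (K41 : 0 < b4 → 0 < b1 → 0 < b2 + b3 → b2 + b3 + b4 + b1 ≤ T + Lam)
    (F1 : T < b1 + b1 → b0 = 0) (F2 : T < b2 + b2 → b0 = 0) (F3 : T < b3 + b3 → b0 = 0)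
    (F4 : T < b4 + b4 → b0 = 0)
    (hT : b0 ≤ T ∧ b1 + b4 ≤ T ∧ b2 + b3 ≤ T)
    (h0 : b0 = 0 ∨ b1 = 0 ∨ b2 = 0 ∨ b3 = 0 ∨ b4 = 0) :
    5 * (b0 + b1 + b2 + b3 + b4) ≤ 6 * T := by
  rcases Nat.eq_zero_or_pos b0 with z0 | z0 <;> rcases Nat.eq_zero_or_pos b1 with z1 | z1 <;>
  rcases Nat.eq_zero_or_pos b2 with z2 | z2 <;> rcases Nat.eq_zero_or_pos b3 with z3 | z3 <;>
  rcases Nat.eq_zero_or_pos b4 with z4 | z4 <;>
  simp only [z0, z1, z2, z3, z4, lt_irrefl, true_implies, false_implies] at * <;> omega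

end

section
set_option linter.unusedSectionVars false
open Classical
variable {Q : Type*} [AddCommGroup Q] [Fintype Q]

lemma equiv_zmod_five (hQ : Nat.card Q = 5) : Nonempty (ZMod 5 ≃+ Q) := by
  have : Fact (Nat.Prime 5) := ⟨Nat.prime_five⟩
  have hc : IsAddCyclic Q := isAddCyclic_of_prime_card (p := 5) hQ
  have h := zmodAddCyclicAddEquiv hc
  rw [hQ] at h
  exact ⟨h⟩

lemma fiveQ (hQ : Nat.card Q = 5) (T Lam : ℕ) (a : Q → ℕ) (hLam : 5 * Lam ≤ T)
    (hW : ∀ i j, 0 < a i → 0 < a j → sf a (i - j) + a i ≤ T)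
    (hFull : ∀ i j, T < a i + a j → sf a (i - j) = 0) (hsT : ∀ d, sf a d ≤ T)
    (haT : ∀ i, a i ≤ T)
    (hK' : ∀ i j, 0 < a i → 0 < a j → 0 < sf a (i - j) → sf a (i - j) + a i + a j ≤ T + Lam)
    (h0 : ∃ i, a i = 0) : 5 * ∑ i, a i ≤ 6 * T := by
  obtain ⟨e⟩ := equiv_zmod_five hQ
  set b : ZMod 5 → ℕ := fun i => a (e i) with hb
  have hsf : ∀ i j k k' : ZMod 5, i - j = k → -k = k' → sf a (e i - e j) = b k + b k' := by
    intro i j k k' hk hk'
    unfold sf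
    rw [← map_sub, ← map_neg, hk, hk']
  have W : ∀ i j k k' : ZMod 5, i - j = k → -k = k' → 0 < b i → 0 < b j → b k + b k' + b i ≤ T := by
    intro i j k k' hk hk' hi hj
    rw [← hsf i j k k' hk hk']
    exact hW _ _ hi hj
  have K : ∀ i j k k' : ZMod 5, i - j = k → -k = k' → 0 < b i → 0 < b j → 0 < b k + b k' →
      b k + b k' + b i + b j ≤ T + Lam := by
    intro i j k k' hk hk' hi hj hs
    rw [← hsf i j k k' hk hk'] at hs ⊢
    exact hK' _ _ hi hj hs
  have F : ∀ i : ZMod 5, T < b i + b i → b 0 = 0 := by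
    intro i hi
    have h1 := hFull _ _ hi
    rw [hsf i i 0 0 (sub_self i) neg_zero] at h1
    omega
  have hsum : ∑ i, a i = b 0 + b 1 + b 2 + b 3 + b 4 := by
    have h1 : ∑ i : ZMod 5, b i = ∑ i, a i := Fintype.sum_equiv e.toEquiv _ _ (fun i => rfl)
    rw [← h1]
    exact Fin.sum_univ_five b
  rw [hsum]
  have d1 : (1 : ZMod 5) - 0 = 1 := by decide
  apply five_core T Lam (b 0) (b 1) (b 2) (b 3) (b 4) hLam
  · intro h; have := W 0 0 0 0 (by decide) (by decide) h h; omega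
  · intro h; have := W 1 1 0 0 (by decide) (by decide) h h; omega
  · intro h; have := W 2 2 0 0 (by decide) (by decide) h h; omega
  · intro h; have := W 3 3 0 0 (by decide) (by decide) h h; omega
  · intro h; have := W 4 4 0 0 (by decide) (by decide) h h; omega
  · intro h h'
    have h1 := W 0 1 4 1 (by decide) (by decide) h h'
    have h2 := W 1 0 1 4 (by decide) (by decide) h' h
    omega
  · intro h h'
    have h1 := W 1 2 4 1 (by decide) (by decide) h h'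
    have h2 := W 2 1 1 4 (by decide) (by decide) h' h
    omega
  · intro h h'
    have h1 := W 2 3 4 1 (by decide) (by decide) h h'
    have h2 := W 3 2 1 4 (by decide) (by decide) h' h
    omega
  · intro h h'
    have h1 := W 3 4 4 1 (by decide) (by decide) h h'
    have h2 := W 4 3 1 4 (by decide) (by decide) h' h
    omega
  · intro h h'
    have h1 := W 4 0 4 1 (by decide) (by decide) h h'
    have h2 := W 0 4 1 4 (by decide) (by decide) h' h
    omega
  · intro h h'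
    have h1 := W 0 2 3 2 (by decide) (by decide) h h'
    have h2 := W 2 0 2 3 (by decide) (by decide) h' h
    omega
  · intro h h'
    have h1 := W 1 3 3 2 (by decide) (by decide) h h'
    have h2 := W 3 1 2 3 (by decide) (by decide) h' h
    omega
  · intro h h'
    have h1 := W 2 4 3 2 (by decide) (by decide) h h'
    have h2 := W 4 2 2 3 (by decide) (by decide) h' h
    omega
  · intro h h'
    have h1 := W 3 0 3 2 (by decide) (by decide) h h'
    have h2 := W 0 3 2 3 (by decide) (by decide) h' h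
    omega
  · intro h
    have := K 0 0 0 0 (by decide) (by decide) h h (by omega); omega
  · intro h h'
    have := K 1 1 0 0 (by decide) (by decide) h' h' (by omega); omega
  · intro h h'
    have := K 2 2 0 0 (by decide) (by decide) h' h' (by omega); omega
  · intro h h'
    have := K 3 3 0 0 (by decide) (by decide) h' h' (by omega); omega
  · intro h h'
    have := K 4 4 0 0 (by decide) (by decide) h' h' (by omega); omega
  · intro h h' hs
    have := K 0 1 4 1 (by decide) (by decide) h h' (by omega); omega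
  · intro h h' hs
    have := K 1 2 4 1 (by decide) (by decide) h h' (by omega); omega
  · intro h h' hs
    have := K 2 3 4 1 (by decide) (by decide) h h' (by omega); omega
  · intro h h' hs
    have := K 3 4 4 1 (by decide) (by decide) h h' (by omega); omega
  · intro h h' hs
    have := K 4 0 4 1 (by decide) (by decide) h h' (by omega); omega
  · intro h h' hs
    have := K 0 2 3 2 (by decide) (by decide) h h' (by omega); omega
  · intro h h' hs
    have := K 1 3 3 2 (by decide) (by decide) h h' (by omega); omega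
  · intro h h' hs
    have := K 2 4 3 2 (by decide) (by decide) h h' (by omega); omega
  · intro h h' hs
    have := K 3 0 3 2 (by decide) (by decide) h h' (by omega); omega
  · intro h h' hs
    have := K 4 1 3 2 (by decide) (by decide) h h' (by omega); omega
  · exact F 1
  · exact F 2
  · exact F 3
  · exact F 4
  · refine ⟨haT _, ?_, ?_⟩
    · have h1 := hsT (e 1)
      unfold sf at h1
      rw [← map_neg, show -(1 : ZMod 5) = 4 by decide] at h1
      exact h1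
    · have h1 := hsT (e 2)
      unfold sf at h1
      rw [← map_neg, show -(2 : ZMod 5) = 3 by decide] at h1
      exact h1
  · obtain ⟨i, hi⟩ := h0
    obtain ⟨j, rfl⟩ := e.surjective i
    have hj : b j = 0 := hi
    have hall : ∀ j : ZMod 5, j = 0 ∨ j = 1 ∨ j = 2 ∨ j = 3 ∨ j = 4 := by decide
    have hj' := hall j
    rcases hj' with rfl | rfl | rfl | rfl | rfl
    · exact Or.inl hj
    · exact Or.inr (Or.inl hj)
    · exact Or.inr (Or.inr (Or.inl hj))
    · exact Or.inr (Or.inr (Or.inr (Or.inl hj)))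
    · exact Or.inr (Or.inr (Or.inr (Or.inr hj)))

end

section
set_option linter.unusedSectionVars false
open Classical
variable {G : Type*} [AddCommGroup G] [Fintype G] {Q : Type*} [AddCommGroup Q] [Fintype Q]

lemma sf_fib (φ : G →+ Q) {A : Finset G} (hA : Anti A) (d : Q) :
    sf (fib φ A) d = fib φ (symm A) d := (fib_symm φ hA d).symm

/-- `(K')`. -/
lemma fib_K' (φ : G →+ Q) (hφ : Function.Surjective φ) {A : Finset G} (hA : SumFree02 A) (N : ℕ)
    (hN0 : 0 < N) (hN : ∀ l, l ∣ Nat.card φ.ker → l ≠ 1 → N ≤ l) (i j : Q)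
    (hi : 0 < fib φ A i) (hj : 0 < fib φ A j) (hs : 0 < sf (fib φ A) (i - j)) :
    sf (fib φ A) (i - j) + fib φ A i + fib φ A j ≤ Nat.card φ.ker + Nat.card φ.ker / N := by
  rw [sf_fib φ hA.anti] at hs ⊢
  obtain ⟨t, l, r, ri, rj, h1, h2, h3, h4, h5, h6, h7⟩ := fib_K φ hφ hA i j hi hj hs
  have hl := hN l ⟨t, h1⟩ h3
  have ht : t ≤ Nat.card φ.ker / N := by
    rw [Nat.le_div_iff_mul_le hN0, h1, mul_comm]
    exact Nat.mul_le_mul_right t hl
  have h8 : ri * t + rj * t ≤ r * t + t := by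
    calc ri * t + rj * t = (ri + rj) * t := by ring
      _ ≤ (r + 1) * t := Nat.mul_le_mul_right t h7
      _ = r * t + t := by ring
  omega

lemma card_ker_pos (φ : G →+ Q) : 0 < Nat.card φ.ker := Nat.card_pos

/-- Lemma Five: a quotient of order five with an empty fibre. -/
lemma fiveG (φ : G →+ Q) (hφ : Function.Surjective φ) (hD : D1 (Fintype.card G))
    (hQ : Nat.card Q = 5) {A : Finset G} (hA : SumFree02 A) (h0 : ∃ q, fib φ A q = 0) :
    25 * A.card ≤ 6 * Fintype.card G := by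
  have hdom := card_dom φ hφ
  rw [← Nat.card_eq_fintype_card (α := Q), hQ] at hdom
  have hDT : D1 (Nat.card φ.ker) := hD.dvd ⟨5, hdom⟩
  have h := fiveQ hQ (Nat.card φ.ker) (Nat.card φ.ker / 5) (fib φ A) (Nat.mul_div_le _ _)
    (by
      intro i j hi hj
      rw [sf_fib φ hA.anti]
      exact fib_W φ hφ hA i j hi hj)
    (by
      intro i j hij
      rw [sf_fib φ hA.anti]
      exact fib_Full φ hφ hA i j hij)
    (by
      intro d
      rw [sf_fib φ hA.anti]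
      exact fib_le φ hφ _ d)
    (fun i => fib_le φ hφ _ i)
    (fib_K' φ hφ hA 5 (by norm_num) (by
      intro l hl hl1
      have := hDT l hl
      omega))
    h0
  rw [sum_fib] at h
  omega

end

end Pool.Agent.Helper23
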