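import Pool.Agent.Helper23.Even

/-!
# Constructions (lower bounds) and the splitting `G = G[2] × K`
-/

open Finset
open scoped Pointwise

namespace Pool.Agent.Helper23

section
set_option linter.unusedSectionVars false

theorem exists_surj (G : Type*) [AddCommGroup G] [Finite G] :
    ∃ φ : G →+ ZMod (AddMonoid.exponent G), Function.Surjective φ := by
  set κ := AddMonoid.exponent G with hκ
  have hκ0 : NeZero κ := ⟨AddMonoid.exponent_ne_zero_of_finite⟩
  have hexp : Monoid.exponent (Multiplicative G) = κ := by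
    rw [hκ, Monoid.exponent_multiplicative]
  have : NeZero (Monoid.exponent (Multiplicative G)) := by rw [hexp]; exact hκ0
  have hcyc : IsCyclic (Multiplicative (ZMod κ))ˣ :=
    isCyclic_of_surjective (toUnits (G := Multiplicative (ZMod κ))) toUnits.surjective
  have hE : HasEnoughRootsOfUnity (Multiplicative (ZMod κ)) κ := by
    refine ⟨⟨Multiplicative.ofAdd 1, ?_⟩, ?_⟩
    · refine ⟨?_, ?_⟩
      · rw [← ofAdd_nsmul, nsmul_eq_mul, mul_one]
        simp
      · intro l hl
        rw [← ofAdd_nsmul, nsmul_eq_mul, mul_one] at hl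
        have : (l : ZMod κ) = 0 := hl
        exact (ZMod.natCast_eq_zero_iff _ _).mp this
    · infer_instance
  have hE' : HasEnoughRootsOfUnity (Multiplicative (ZMod κ))
      (Monoid.exponent (Multiplicative G)) := by rw [hexp]; exact hE
  obtain ⟨e⟩ := CommGroup.monoidHom_mulEquiv_of_hasEnoughRootsOfUnity (Multiplicative G)
    (Multiplicative (ZMod κ))
  have hx : ∃ g : Multiplicative G, orderOf g = Monoid.exponent (Multiplicative G) :=
    Monoid.exists_orderOf_eq_exponent (Monoid.ExponentExists.of_finite)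
  obtain ⟨g, hg⟩ := hx
  set χ := e.symm g with hχ
  have hord : orderOf χ = κ := by
    rw [hχ, MulEquiv.orderOf_eq, hg, hexp]
  let φ : G →+ ZMod κ :=
    { toFun := fun x => Multiplicative.toAdd ((χ (Multiplicative.ofAdd x) : (Multiplicative (ZMod κ))ˣ) :
        Multiplicative (ZMod κ))
      map_zero' := by simp
      map_add' := by intro x y; simp [ofAdd_add, map_mul] }
  have hφ : ∀ x, φ x = Multiplicative.toAdd ((χ (Multiplicative.ofAdd x) :
      (Multiplicative (ZMod κ))ˣ) : Multiplicative (ZMod κ)) := fun x => rfl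
  refine ⟨φ, ?_⟩
  rw [← AddMonoidHom.range_eq_top]
  have hcard : χ ^ (Nat.card φ.range) = 1 := by
    refine MonoidHom.ext (fun x => ?_)
    rw [MonoidHom.pow_apply, MonoidHom.one_apply]
    have h1 : Nat.card φ.range • (φ (Multiplicative.toAdd x)) = 0 := by
      have hm : φ (Multiplicative.toAdd x) ∈ φ.range := ⟨_, rfl⟩
      have := card_nsmul_eq_zero' (x := (⟨φ (Multiplicative.toAdd x), hm⟩ : φ.range))
      have h2 := congrArg (fun z : φ.range => (z : ZMod κ)) this
      simpa using h2
    rw [hφ, ofAdd_toAdd, ← toAdd_pow] at h1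
    have h2 : (((χ x : (Multiplicative (ZMod κ))ˣ) : Multiplicative (ZMod κ)) ^ Nat.card φ.range) = 1 := by
      apply Multiplicative.toAdd.injective
      rw [h1]; rfl
    apply Units.ext
    rw [Units.val_pow_eq_pow_val, h2]
    rfl
  have hdvd : κ ∣ Nat.card φ.range := by
    have h3 := orderOf_dvd_of_pow_eq_one hcard
    exact hord.symm.dvd.trans h3
  apply AddSubgroup.eq_top_of_card_eq
  rw [Nat.card_zmod]
  apply Nat.dvd_antisymm _ hdvd
  have := AddSubgroup.card_addSubgroup_dvd_card φ.range
  rwa [Nat.card_zmod] at this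

theorem exists_surj_of_dvd (G : Type*) [AddCommGroup G] [Finite G] {d : ℕ}
    (hd : d ∣ AddMonoid.exponent G) : ∃ φ : G →+ ZMod d, Function.Surjective φ := by
  obtain ⟨φ, hφ⟩ := exists_surj G
  refine ⟨(ZMod.castHom hd (ZMod d)).toAddMonoidHom.comp φ, ?_⟩
  exact (ZMod.castHom_surjective hd).comp hφ

end

section
set_option linter.unusedSectionVars false
variable {G : Type*} [AddCommGroup G] [Fintype G]
open Classical

/-- Pull back of a `[0,2]`-sum-free set of residues. -/
theorem lower_pullback {d : ℕ} [NeZero d] (hd : d ∣ AddMonoid.exponent G) (R : Finset (ZMod d))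
    (hR : SumFree02 R) : ∃ A : Finset G, SumFree02 A ∧ A.card * d = Fintype.card G * R.card := by
  obtain ⟨φ, hφ⟩ := exists_surj_of_dvd G hd
  refine ⟨(univ : Finset G).filter (fun g => φ g ∈ R), ⟨?_, ?_⟩, ?_⟩
  · rw [mem_filter, map_zero]
    exact fun h => hR.1 h.2
  · intro a ha b hb
    rw [mem_filter] at ha hb
    have := hR.2 _ ha.2 _ hb.2
    constructor
    · intro h0
      apply this.1
      rw [← map_add, h0, map_zero]
    · rw [mem_filter, map_add]
      exact fun h => this.2 h.2
  · have h1 := card_pre φ hφ R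
    have h2 := card_dom φ hφ
    rw [ZMod.card] at h2
    rw [h2]
    have h3 : ((univ : Finset G).filter (fun g => φ g ∈ R)).card = Nat.card φ.ker * R.card := by
      exact h1
    rw [h3]; ring

/-- The interval construction. -/
lemma interval_sumFree (d lo hi : ℕ) [NeZero d] (h1 : 0 < lo) (h2 : 2 * hi < d)
    (h3 : hi < 2 * lo) :
    SumFree02 ((Finset.Icc lo hi).image (fun k : ℕ => (k : ZMod d))) := by
  have hcast : ∀ k l : ℕ, k < d → l < d → (k : ZMod d) = l → k = l := by
    intro k l hk hl h
    rw [ZMod.natCast_eq_natCast_iff'] at h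
    rwa [Nat.mod_eq_of_lt hk, Nat.mod_eq_of_lt hl] at h
  constructor
  · rw [mem_image]
    rintro ⟨k, hk, h0⟩
    rw [mem_Icc] at hk
    have := hcast k 0 (by omega) (by omega) (by rw [h0]; simp)
    omega
  · intro a ha b hb
    rw [mem_image] at ha hb
    obtain ⟨k, hk, rfl⟩ := ha
    obtain ⟨l, hl, rfl⟩ := hb
    rw [mem_Icc] at hk hl
    constructor
    · intro h0
      have := hcast (k + l) 0 (by omega) (by omega) (by push_cast; rw [h0])
      omega
    · rw [mem_image]
      rintro ⟨m, hm, hmE⟩
      rw [mem_Icc] at hm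
      have := hcast m (k + l) (by omega) (by omega) (by push_cast; rw [hmE])
      omega

lemma interval_card (d lo hi : ℕ) [NeZero d] (h2 : hi < d) :
    ((Finset.Icc lo hi).image (fun k : ℕ => (k : ZMod d))).card = hi + 1 - lo := by
  rw [card_image_of_injOn, Nat.card_Icc]
  intro k hk l hl h
  rw [mem_coe, mem_Icc] at hk hl
  have h' : (k : ZMod d) = l := h
  rw [ZMod.natCast_eq_natCast_iff'] at h'
  rwa [Nat.mod_eq_of_lt (by omega), Nat.mod_eq_of_lt (by omega)] at h'

theorem lower_interval (d lo hi : ℕ) (hd0 : 0 < d) (hd : d ∣ AddMonoid.exponent G) (h1 : 0 < lo)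
    (h2 : 2 * hi < d) (h3 : hi < 2 * lo) :
    ∃ A : Finset G, SumFree02 A ∧ A.card * d = Fintype.card G * (hi + 1 - lo) := by
  have : NeZero d := ⟨hd0.ne'⟩
  obtain ⟨A, hA, hc⟩ := lower_pullback (G := G) hd _ (interval_sumFree d lo hi h1 h2 h3)
  refine ⟨A, hA, ?_⟩
  rw [hc, interval_card d lo hi (by omega)]

/-- A half system in a group of odd order. -/
lemma exists_half {K : Type*} [AddCommGroup K] [Fintype K] (hodd : Odd (Fintype.card K)) :
    ∃ B : Finset K, Anti B ∧ 2 * B.card + 1 = Fintype.card K := by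
  set f := Fintype.equivFin K with hf
  set B := (univ : Finset K).filter (fun y => f y < f (-y)) with hB
  have hanti : Anti B := by
    intro y hy hy'
    simp only [hB, mem_filter, mem_univ, true_and, neg_neg] at hy hy'
    exact absurd (hy.trans hy') (lt_irrefl _)
  refine ⟨B, hanti, ?_⟩
  have : symm B = (univ : Finset K).erase 0 := by
    ext y
    rw [mem_symm, mem_erase]
    simp only [hB, mem_filter, mem_univ, true_and, neg_neg, and_true]
    constructor
    · rintro h rfl
      simp at h
    · intro hy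
      have := neg_ne_of_odd hodd hy
      have h2 : f y ≠ f (-y) := fun h => this (f.injective h).symm
      exact lt_or_gt_of_ne h2
  have h2 := card_symm hanti
  rw [this, card_erase_of_mem (mem_univ _), Finset.card_univ] at h2
  have : 0 < Fintype.card K := Fintype.card_pos
  omega

/-- Half of an elementary abelian `2`-group. -/
lemma exists_T1 {T : Type*} [AddCommGroup T] [Fintype T] (h2 : 2 ∣ AddMonoid.exponent T) :
    ∃ T1 : Finset T, (0 : T) ∉ T1 ∧ (∀ a ∈ T1, ∀ b ∈ T1, a + b ∉ T1) ∧
      2 * T1.card = Fintype.card T := by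
  obtain ⟨φ, hφ⟩ := exists_surj_of_dvd T h2
  have h1 := card_pre φ hφ {1}
  have h3 := card_dom φ hφ
  rw [ZMod.card] at h3
  refine ⟨(univ : Finset T).filter (fun g => φ g ∈ ({1} : Finset (ZMod 2))), ?_, ?_, ?_⟩
  · rw [mem_filter, map_zero, mem_singleton]
    exact fun h => absurd h.2 (by decide)
  · intro a ha b hb hab
    rw [mem_filter, mem_singleton] at ha hb hab
    rw [map_add, ha.2, hb.2] at hab
    exact absurd hab.2 (by decide)
  · have h4 : ((univ : Finset T).filter (fun g => φ g ∈ ({1} : Finset (ZMod 2)))).card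
        = Nat.card φ.ker * 1 := by
      rw [← card_singleton (1 : ZMod 2)]
      exact h1
    rw [h4, h3]; ring

theorem lower_prod {T K : Type*} [AddCommGroup T] [Fintype T] [AddCommGroup K] [Fintype K]
    (h2 : 2 ∣ AddMonoid.exponent T) (hodd : Odd (Fintype.card K)) :
    ∃ A : Finset (T × K), SumFree02 A ∧
      4 * A.card + Fintype.card T = Fintype.card T * Fintype.card K := by
  obtain ⟨T1, hT0, hT1, hTc⟩ := exists_T1 (T := T) h2
  obtain ⟨B, hB, hBc⟩ := exists_half hodd
  refine ⟨T1 ×ˢ B, ⟨?_, ?_⟩, ?_⟩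
  · rw [mem_product]
    exact fun h => hT0 h.1
  · intro a ha b hb
    rw [mem_product] at ha hb
    constructor
    · intro h0
      apply hB _ ha.2
      have : a.2 + b.2 = 0 := by rw [← Prod.snd_add, h0]; rfl
      rw [neg_eq_of_add_eq_zero_right this]
      exact hb.2
    · rw [mem_product, Prod.fst_add]
      exact fun h => hT1 _ ha.1 _ hb.1 h.1
  · rw [card_product, ← hBc, ← hTc]; ring

/-- Transport along an isomorphism. -/
lemma SumFree02.map_equiv {G G' : Type*} [AddCommGroup G] [AddCommGroup G'] [DecidableEq G']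
    (e : G ≃+ G')
    {A : Finset G} (h : SumFree02 A) : SumFree02 (A.image e) := by
  constructor
  · rw [mem_image]
    rintro ⟨a, ha, h0⟩
    rw [map_eq_zero_iff e e.injective] at h0
    rw [h0] at ha
    exact h.1 ha
  · intro x hx y hy
    rw [mem_image] at hx hy
    obtain ⟨a, ha, rfl⟩ := hx
    obtain ⟨b, hb, rfl⟩ := hy
    constructor
    · rw [← map_add, Ne, map_eq_zero_iff e e.injective]
      exact (h.2 a ha b hb).1
    · rw [← map_add, mem_image]
      rintro ⟨c, hc, hE⟩
      rw [e.injective hE] at hc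
      exact (h.2 a ha b hb).2 hc

end

end Pool.Agent.Helper23
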