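import Mathlib

/-!
# `[0,2]`-sum-free sets: definitions
-/

namespace Pool.Agent.Helper23

/-- A finite set `A` in an abelian group is `[0,2]`-sum-free: `0 ∉ A`, and for all `a, b ∈ A`
(possibly equal) `a + b ≠ 0` and `a + b ∉ A`. -/
def SumFree02 {G : Type*} [AddCommGroup G] (A : Finset G) : Prop :=
  (0 : G) ∉ A ∧ ∀ a ∈ A, ∀ b ∈ A, a + b ≠ 0 ∧ a + b ∉ A

/-- The set of sizes of `[0,2]`-sum-free subsets of `G`. -/
def sizes (G : Type*) [AddCommGroup G] : Set ℕ := {k | ∃ A : Finset G, SumFree02 A ∧ A.card = k}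

end Pool.Agent.Helper23
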