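import Pool.Agent.Helper23.Small
import Pool.Agent.Helper23.Big
import Pool.Agent.Helper23.LemmaFive

/-!
# Groups all of whose order's divisors are `1 mod 4`
-/

open Finset
open scoped Pointwise

universe u

namespace Pool.Agent.Helper23

section
set_option linter.unusedSectionVars false
open Classical
variable {G : Type u} [AddCommGroup G] [Fintype G]

lemma fib_pos_of_mem {Q : Type*} [AddCommGroup Q] (φ : G →+ Q) {A : Finset G} {x : G}
    (hx : x ∈ A) : 0 < fib φ A (φ x) := by
  unfold fib
  rw [card_pos]
  exact ⟨x, mem_filter.mpr ⟨hx, rfl⟩⟩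

theorem upper_13 (hD : D1 (Fintype.card G)) (hκ : 13 ≤ AddMonoid.exponent G)
    {A : Finset G} (hA : SumFree02 A) :
    4 * AddMonoid.exponent G * A.card + Fintype.card G
      ≤ AddMonoid.exponent G * Fintype.card G := by
  by_contra hcon
  push Not at hcon
  set κ := AddMonoid.exponent G with hκdef
  have hn0 : 0 < Fintype.card G := Fintype.card_pos
  have hne : A.Nonempty := by
    rw [nonempty_iff_ne_empty]
    rintro rfl
    rw [card_empty, mul_zero, zero_add] at hcon
    have : 1 * Fintype.card G ≤ κ * Fintype.card G := Nat.mul_le_mul_right _ (by omega)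
    omega
  obtain ⟨H, hqκ, d, hmaxd, hCn⟩ := exists_dir hA hne
  set π := QuotientAddGroup.mk' H with hπ
  have hπs : Function.Surjective π := QuotientAddGroup.mk'_surjective H
  have hπk : π.ker = H := QuotientAddGroup.ker_mk' H
  have hTH : Nat.card π.ker = Nat.card H := by rw [hπk]
  rw [← hTH] at hCn
  have hdom : Fintype.card G = Nat.card π.ker * Fintype.card (G ⧸ H) := card_dom π hπs
  rw [Nat.card_eq_fintype_card] at hqκ
  have hDQ : D1 (Fintype.card (G ⧸ H)) := hD.dvd ⟨_, by rw [mul_comm]; exact hdom⟩
  have hDT : D1 (Nat.card π.ker) := hD.dvd ⟨_, hdom⟩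
  have hsum : ∑ i, fib π A i = A.card := sum_fib π A
  have hT0 : 0 < Nat.card π.ker := Nat.card_pos
  have hκd : κ ∣ Fintype.card G := by
    rw [← Nat.card_eq_fintype_card]
    exact AddGroup.exponent_dvd_nat_card
  have hκ4 : κ % 4 = 1 := hD κ hκd
  have hqT : Fintype.card (G ⧸ H) * Nat.card π.ker = Fintype.card G := by rw [hdom, mul_comm]
  -- density
  have hα13 : 3 * Fintype.card G < 13 * A.card := by
    by_contra hge
    push Not at hge
    have h1 : 4 * κ * (13 * A.card) ≤ 4 * κ * (3 * Fintype.card G) := Nat.mul_le_mul_left _ hge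
    have h2 : 13 * Fintype.card G ≤ κ * Fintype.card G := Nat.mul_le_mul_right _ hκ
    have h3 : 4 * κ * (3 * Fintype.card G) + κ * Fintype.card G = 13 * (κ * Fintype.card G) := by
      ring
    have h4 : 4 * κ * (13 * A.card) = 13 * (4 * κ * A.card) := by ring
    omega
  have hα25 : 5 ∣ Fintype.card G → 6 * Fintype.card G < 25 * A.card := by
    intro h5
    have h5κ := prime_dvd_exponent Nat.prime_five h5
    rw [← hκdef] at h5κ
    have hκ25 : 25 ≤ κ := by omega
    by_contra hge
    push Not at hge
    have h1 : 4 * κ * (25 * A.card) ≤ 4 * κ * (6 * Fintype.card G) := Nat.mul_le_mul_left _ hge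
    have h2 : 25 * Fintype.card G ≤ κ * Fintype.card G := Nat.mul_le_mul_right _ hκ25
    have h3 : 4 * κ * (6 * Fintype.card G) + κ * Fintype.card G = 25 * (κ * Fintype.card G) := by
      ring
    have h4 : 4 * κ * (25 * A.card) = 25 * (4 * κ * A.card) := by ring
    omega
  -- `4 |A| > (q - 1) T`
  have h1 : Fintype.card G < 4 * A.card + Nat.card π.ker := by
    have h : κ * Fintype.card G < κ * (4 * A.card + Nat.card π.ker) := by
      calc κ * Fintype.card G < 4 * κ * A.card + Fintype.card G := hcon
        _ = 4 * κ * A.card + Fintype.card (G ⧸ H) * Nat.card π.ker := by rw [hqT]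
        _ ≤ 4 * κ * A.card + κ * Nat.card π.ker :=
            Nat.add_le_add_left (Nat.mul_le_mul_right (Nat.card π.ker) hqκ) _
        _ = κ * (4 * A.card + Nat.card π.ker) := by ring
    exact Nat.lt_of_mul_lt_mul_left h
  have hWW : ∀ i j, 0 < fib π A i → 0 < fib π A j →
      sf (fib π A) (i - j) + fib π A i ≤ Nat.card π.ker := by
    intro i j hi hj
    rw [sf_fib π hA.anti]
    exact fib_W π hπs hA i j hi hj
  have hFF : ∀ i j, Nat.card π.ker < fib π A i + fib π A j → sf (fib π A) (i - j) = 0 := by
    intro i j hij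
    rw [sf_fib π hA.anti]
    exact fib_Full π hπs hA i j hij
  have hsT : ∀ d, sf (fib π A) d ≤ Nat.card π.ker := by
    intro d
    rw [sf_fib π hA.anti]
    exact fib_le π hπs _ d
  have haT : ∀ i, fib π A i ≤ Nat.card π.ker := fun i => fib_le π hπs _ i
  have hCmax : ∀ d', sf (fib π A) d' ≤ fib π (symm A) d := by
    intro d'
    rw [sf_fib π hA.anti]
    exact hmaxd d'
  rcases Classical.em (∃ i, Nat.card π.ker < 2 * fib π A i) with hbig | hsmall
  · -- the maximum fibre
    obtain ⟨i0, hi0⟩ := Finite.exists_max (fun i => fib π A i)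
    obtain ⟨i1, hi1⟩ := hbig
    have hb : Nat.card π.ker < 2 * fib π A i0 := by
      have := hi0 i1
      omega
    have hmax' : ∀ i, fib π A i ≤ fib π A i0 := hi0
    -- Lemma Five
    have hFive : ∀ L : AddSubgroup (G ⧸ H), Nat.card ((G ⧸ H) ⧸ L) = 5 →
      ∀ y : (G ⧸ H) ⧸ L, ∃ x, 0 < fib π A x ∧ QuotientAddGroup.mk' L x = y := by
      intro L hL y
      by_contra hno
      push Not at hno
      set φ := (QuotientAddGroup.mk' L).comp π with hφ
      have hφs : Function.Surjective φ := (QuotientAddGroup.mk'_surjective L).comp hπs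
      have hz : fib φ A y = 0 := by
        by_contra hne0
        obtain ⟨x, hx, hxy⟩ := fib_pos (Nat.pos_of_ne_zero hne0)
        exact hno (π x) (fib_pos_of_mem π hx) hxy
      have h25 := fiveG φ hφs hD hL hA ⟨y, hz⟩
      have h5 : 5 ∣ Fintype.card G := by
        have := card_dom φ hφs
        rw [← Nat.card_eq_fintype_card (α := (G ⧸ H) ⧸ L), hL] at this
        exact ⟨_, by rw [mul_comm]; exact this⟩
      have := hα25 h5
      omega
    by_cases h5 : 5 ∣ Fintype.card G
    · apply bigCase hDQ (Nat.card π.ker) (fib π (symm A) d) 5 (Nat.card π.ker / 5) (fib π A) d hT0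
        hWW hFF hsT haT _ (Nat.mul_div_le _ _) (sf_fib π hA.anti d) hCmax _ hFive _ i0 hmax' hb
      · exact fib_K' π hπs hA 5 (by norm_num) (by
          intro l hl hl1
          have := hDT l hl
          omega)
      · rw [hsum, hqT]; exact h1
      · left
        rw [hsum, hqT]
        exact ⟨rfl, hα25 h5⟩
    · apply bigCase hDQ (Nat.card π.ker) (fib π (symm A) d) 13 (Nat.card π.ker / 13) (fib π A) d hT0
        hWW hFF hsT haT _ (Nat.mul_div_le _ _) (sf_fib π hA.anti d) hCmax _ hFive _ i0 hmax' hb
      · exact fib_K' π hπs hA 13 (by norm_num) (by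
          intro l hl hl1
          have h2 := hDT l hl
          have hln : l ∣ Fintype.card G := hl.trans ⟨_, hdom⟩
          by_contra hlt
          have : l = 5 ∨ l = 9 := by omega
          rcases this with rfl | rfl
          · exact h5 hln
          · have := hD 3 (Dvd.dvd.trans (by norm_num) hln)
            omega)
      · rw [hsum, hqT]; exact h1
      · right
        rw [hsum, hqT]
        exact ⟨rfl, hα13⟩
  · push Not at hsmall
    have hT4 := hDT _ dvd_rfl
    apply smallCase hDQ (Nat.card π.ker) κ (fib π (symm A) d) hDT (fib π A) d _ hκ hqκ _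
      (sf_fib π hA.anti d) _ _ _
    · intro i j hi hj hs
      rw [sf_fib π hA.anti] at hs ⊢
      exact fib_K π hπs hA i j hi hj hs
    · rw [hsum, hqT]; exact hcon
    · rw [hsum, hqT]; exact hCn
    · rw [hsum, hqT]; exact hα13
    · intro i
      have := hsmall i
      omega

theorem upper_D1 (hD : D1 (Fintype.card G)) {A : Finset G} (hA : SumFree02 A) :
    4 * AddMonoid.exponent G * A.card + Fintype.card G
      ≤ AddMonoid.exponent G * Fintype.card G := by
  have hκd : AddMonoid.exponent G ∣ Fintype.card G := by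
    rw [← Nat.card_eq_fintype_card]
    exact AddGroup.exponent_dvd_nat_card
  have hκ4 : AddMonoid.exponent G % 4 = 1 := hD _ hκd
  rcases Nat.lt_or_ge (AddMonoid.exponent G) 13 with hlt | hge
  · have h9 : AddMonoid.exponent G ≠ 9 := by
      intro h9
      have := hD 3 (Dvd.dvd.trans (by norm_num) (h9 ▸ hκd))
      omega
    have h15 : AddMonoid.exponent G = 1 ∨ AddMonoid.exponent G = 5 := by omega
    rcases h15 with h1 | h5
    · rw [h1]
      have hsub : Subsingleton G := AddMonoid.exp_eq_one_iff.mp h1
      have : A = ∅ := by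
        rw [eq_empty_iff_forall_notMem]
        intro x hx
        apply hA.1
        rw [Subsingleton.elim (0 : G) x]
        exact hx
      rw [this, card_empty]
      omega
    · have h := five_main (Fintype.card G) G rfl (fun x => by
        rw [← h5]; exact AddMonoid.exponent_nsmul_eq_zero x) A hA
      rw [h5]
      omega
  · exact upper_13 hD hge hA

theorem case_odd (hD : D1 (Fintype.card G)) :
    IsGreatest (sizes G)
      ((AddMonoid.exponent G - 1) / 4 * (Fintype.card G / AddMonoid.exponent G)) := by
  have hκd : AddMonoid.exponent G ∣ Fintype.card G := by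
    rw [← Nat.card_eq_fintype_card]
    exact AddGroup.exponent_dvd_nat_card
  have hκ4 : AddMonoid.exponent G % 4 = 1 := hD _ hκd
  have hκ0 : 0 < AddMonoid.exponent G := by omega
  obtain ⟨n', hn'⟩ := hκd
  have hdiv : Fintype.card G / AddMonoid.exponent G = n' := by
    rw [hn', Nat.mul_div_cancel_left _ hκ0]
  have hlow : ∀ κ : ℕ, κ = AddMonoid.exponent G → ∃ A : Finset G, SumFree02 A ∧
      A.card * κ = Fintype.card G * ((κ - 1) / 4) := by
    intro κ hκ
    rw [← hκ] at hκ4 hκ0
    rcases Nat.lt_or_ge κ 2 with h1 | h1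
    · refine ⟨∅, ⟨notMem_empty _, fun a ha => absurd ha (notMem_empty _)⟩, ?_⟩
      have : κ = 1 := by omega
      rw [this]; simp
    · obtain ⟨A, hA, hc⟩ := lower_interval (G := G) κ ((κ + 3) / 4) ((κ - 1) / 2) hκ0
        (by rw [hκ]) (by omega) (by omega) (by omega)
      refine ⟨A, hA, ?_⟩
      rw [hc]
      congr 1
      omega
  constructor
  · obtain ⟨A, hA, hc⟩ := hlow _ rfl
    refine ⟨A, hA, ?_⟩
    rw [hdiv]
    have h2 : AddMonoid.exponent G * A.card
        = AddMonoid.exponent G * ((AddMonoid.exponent G - 1) / 4 * n') := by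
      rw [mul_comm _ A.card, hc]
      nth_rewrite 1 [hn']
      ring
    exact Nat.eq_of_mul_eq_mul_left hκ0 h2
  · rintro k ⟨A, hA, rfl⟩
    rw [hdiv]
    have h := upper_D1 hD hA
    rw [hn'] at h
    have h2 : AddMonoid.exponent G * (4 * A.card + n')
        ≤ AddMonoid.exponent G * (AddMonoid.exponent G * n') := by
      calc AddMonoid.exponent G * (4 * A.card + n')
          = 4 * AddMonoid.exponent G * A.card + AddMonoid.exponent G * n' := by ring
        _ ≤ _ := h
    have h3 := Nat.le_of_mul_le_mul_left h2 hκ0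
    obtain ⟨j, hj⟩ : ∃ j, AddMonoid.exponent G = 4 * j + 1 := ⟨(AddMonoid.exponent G - 1) / 4, by omega⟩
    have hj' : (AddMonoid.exponent G - 1) / 4 = j := by omega
    rw [hj']
    rw [hj] at h3
    have h4 : (4 * j + 1) * n' = 4 * (j * n') + n' := by ring
    omega

end

end Pool.Agent.Helper23
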