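import Pool.Agent.Helper23.Cycle

/-!
# The case when all fibres are less than half full
-/

open Finset
open scoped Pointwise

namespace Pool.Agent.Helper23

section
set_option linter.unusedSectionVars false
open Classical
variable {Q : Type*} [AddCommGroup Q] [Fintype Q]

theorem smallCase (hD : D1 (Fintype.card Q)) (T κ C : ℕ) (hT : D1 T) (a : Q → ℕ) (d : Q)
    (hK : ∀ i j, 0 < a i → 0 < a j → 0 < sf a (i - j) →
      ∃ t l r ri rj : ℕ, T = l * t ∧ 0 < t ∧ l ≠ 1 ∧ sf a (i - j) + r * t ≤ T ∧
        a i ≤ ri * t ∧ a j ≤ rj * t ∧ ri + rj ≤ r + 1)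
    (hκ : 13 ≤ κ) (hqκ : Fintype.card Q ≤ κ)
    (hbig : κ * (Fintype.card Q * T) < 4 * κ * ∑ i, a i + Fintype.card Q * T)
    (hCd : sf a d = C)
    (hC : 2 * (∑ i, a i) * T + C * ∑ i, a i ≤ C * (Fintype.card Q * T))
    (hα : 3 * (Fintype.card Q * T) < 13 * ∑ i, a i)
    (hsmall : ∀ i, 2 * a i < T) : False := by
  have hq0 : 0 < Fintype.card Q := Fintype.card_pos
  have hT4 := hT T dvd_rfl
  have hT0 : 0 < T := by omega
  set q := Fintype.card Q with hq
  set A := ∑ i, a i with hA
  have hodd : Odd q := hD.odd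
  -- `4 A > (q - 1) T`
  have h1 : q * T < 4 * A + T := by
    have h : κ * (q * T) < κ * (4 * A + T) := by
      calc κ * (q * T) < 4 * κ * A + q * T := hbig
        _ ≤ 4 * κ * A + κ * T := by
            have := Nat.mul_le_mul_right T hqκ
            omega
        _ = κ * (4 * A + T) := by ring
    exact Nat.lt_of_mul_lt_mul_left h
  -- a good pair
  have hpair : ∃ i, 0 < a i ∧ 0 < a (i + d) ∧ κ * T < 2 * κ * (a i + a (i + d)) + T := by
    by_contra hno
    push Not at hno
    by_cases hall : ∀ i, 0 < a i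
    · have h2 : ∀ i, 2 * κ * (a i + a (i + d)) + T ≤ κ * T := fun i => hno i (hall i) (hall _)
      have h3 : ∑ i : Q, (2 * κ * (a i + a (i + d)) + T) ≤ ∑ _i : Q, κ * T :=
        sum_le_sum (fun i _ => h2 i)
      rw [sum_add_distrib, ← mul_sum, sum_add_distrib, sum_const, sum_const, Finset.card_univ,
        smul_eq_mul, smul_eq_mul] at h3
      have h4 : ∑ i : Q, a (i + d) = A :=
        Fintype.sum_equiv (Equiv.addRight d) _ _ (fun i => rfl)
      rw [h4, ← hA, ← hq] at h3
      have h5 : 4 * κ * A + q * T ≤ κ * (q * T) := by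
        calc 4 * κ * A + q * T = 2 * κ * (A + A) + q * T := by ring
          _ ≤ q * (κ * T) := h3
          _ = κ * (q * T) := by ring
      omega
    · push Not at hall
      obtain ⟨i1, hi1⟩ := hall
      have hi1' : a i1 = 0 := by omega
      have hW : ∀ i, a i + a (i + d) ≤ (T - 1) / 2 := by
        intro i
        rcases Nat.eq_zero_or_pos (a i) with h | h
        · have := hsmall (i + d); omega
        · rcases Nat.eq_zero_or_pos (a (i + d)) with h' | h'
          · have := hsmall i; omega
          · have h2 := hno i h h'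
            have h3 : 2 * (a i + a (i + d)) < T := by
              by_contra hge
              push Not at hge
              have : κ * T ≤ κ * (2 * (a i + a (i + d))) := Nat.mul_le_mul_left κ hge
              have e : κ * (2 * (a i + a (i + d))) = 2 * κ * (a i + a (i + d)) := by ring
              omega
            omega
      have h2 := cycle hodd d a ((T - 1) / 2) hW i1 hi1'
      rw [← hA, ← hq] at h2
      have h3 : 2 * ((T - 1) / 2) + 1 = T := by omega
      have h4 : 4 * A + T ≤ q * T + 1 - q + 0 ∨ 4 * A + T ≤ q * T := by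
        right
        obtain ⟨w, hw⟩ : ∃ w, (T - 1) / 2 = w := ⟨_, rfl⟩
        rw [hw] at h2 h3
        rw [← h3]
        nlinarith
      omega
  obtain ⟨i, hi, hid, hpr⟩ := hpair
  have hCpos : 0 < C := by
    rcases Nat.eq_zero_or_pos C with h | h
    · rw [h] at hC
      have : 0 < 2 * A * T := by
        have : 0 < A := by
          by_contra h0
          have : A = 0 := by omega
          rw [this] at hα; omega
        positivity
      omega
    · exact h
  have hsd : sf a ((i + d) - i) = C := by rw [add_sub_cancel_left, hCd]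
  obtain ⟨t, l, r, ri, rj, hTl, ht, hl1, hs, hri, hrj, hrr⟩ := hK (i + d) i hid hi (by rw [hsd]; exact hCpos)
  rw [hsd] at hs
  have hld : D1 l := hT.dvd ⟨t, hTl⟩
  have hl4 := hld l dvd_rfl
  -- `2 κ (ri + rj) > (κ - 1) l`
  have e1 : κ * l < 2 * κ * (ri + rj) + l := by
    have : t * (κ * l) < t * (2 * κ * (ri + rj) + l) := by
      calc t * (κ * l) = κ * (l * t) := by ring
        _ = κ * T := by rw [← hTl]
        _ < 2 * κ * (a i + a (i + d)) + T := hpr
        _ ≤ 2 * κ * (rj * t + ri * t) + l * t := by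
            rw [← hTl]
            have := Nat.mul_le_mul_left (2 * κ) (Nat.add_le_add hrj hri)
            omega
        _ = t * (2 * κ * (ri + rj) + l) := by ring
    exact Nat.lt_of_mul_lt_mul_left this
  -- `5 r ≥ 2 l`
  have e2 : 2 * l ≤ 5 * r := by
    rcases Nat.lt_or_ge κ l with hκl | hκl
    · -- `l > κ ≥ 13`
      have h17 : 17 ≤ l := by omega
      have h3 : 6 * l < 13 * (ri + rj) := by
        by_contra hge
        push Not at hge
        -- 13 * R ≤ 6 l; κ l < 2 κ R + l
        have h4 : 13 * (κ * l) < 2 * κ * (13 * (ri + rj)) + 13 * l := by nlinarith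
        have h5 : 2 * κ * (13 * (ri + rj)) ≤ 2 * κ * (6 * l) := Nat.mul_le_mul_left _ hge
        have h6 : 13 * (κ * l) = 2 * κ * (6 * l) + κ * l := by ring
        have h7 : 13 * l ≤ κ * l := Nat.mul_le_mul_right l hκ
        omega
      omega
    · have h3 : l ≤ 2 * (ri + rj) := by
        by_contra hge
        push Not at hge
        have h4 : κ * (2 * (ri + rj) + 1) ≤ κ * l := Nat.mul_le_mul_left κ (by omega)
        have h5 : κ * (2 * (ri + rj) + 1) = 2 * κ * (ri + rj) + κ := by ring
        omega
      omega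
  -- `5 C ≤ 3 T`
  have e3 : 5 * C ≤ 3 * T := by
    have h3 : t * (2 * l) ≤ t * (5 * r) := Nat.mul_le_mul_left t e2
    have h4 : t * (2 * l) = 2 * T := by rw [hTl]; ring
    have h5 : t * (5 * r) = 5 * (r * t) := by ring
    omega
  -- contradiction with `C (qT - A) ≥ 2 A T`
  have hA0 : 0 < A := by
    by_contra h0
    have : A = 0 := by omega
    rw [this] at hα; omega
  have f1 : 10 * (A * T) + 5 * C * A ≤ 5 * C * (q * T) := by nlinarith
  have hAq : A ≤ q * T := by
    have : A ≤ ∑ _i : Q, T := sum_le_sum (fun i _ => by have := hsmall i; omega)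
    rw [sum_const, Finset.card_univ, smul_eq_mul] at this
    exact this
  -- (5C)(qT - A) ≤ 3T (qT - A)
  obtain ⟨B, hB⟩ : ∃ B, q * T = A + B := ⟨q * T - A, by omega⟩
  rw [hB] at f1 hα
  have f2 : 10 * (A * T) ≤ 5 * C * B := by nlinarith
  have f3 : 5 * C * B ≤ 3 * T * B := Nat.mul_le_mul_right B e3
  have f4 : T * (10 * A) ≤ T * (3 * B) := by
    calc T * (10 * A) = 10 * (A * T) := by ring
      _ ≤ 3 * T * B := f2.trans f3
      _ = T * (3 * B) := by ring
  have f5 := Nat.le_of_mul_le_mul_left f4 hT0
  omega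

end

end Pool.Agent.Helper23
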